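import Mathlib
import Pool.Agent.Work.MP_972ac7_gen.Defs
import Pool.Agent.Work.MP_972ac7_od.Interface

/-!
# Strong spectral gap of the quaternion lattices in `SL2(ℚ_p) × SL2(ℚ_q)` (MP_972ac7_al)
-/

open MeasureTheory
open scoped Quaternion BigOperators ENNReal

namespace TauSG

/-! ## Part I: a lattice transversal to a compact open subgroup -/

/-- A group `Λ` mapped to `GA × GB`, exactly transversal to the compact open subgroup `KA × KB`. -/
structure Trans (GA GB Λ : Type) [Group GA] [TopologicalSpace GA] [Group GB]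
    [TopologicalSpace GB] [Group Λ] where
  KA : Subgroup GA
  KB : Subgroup GB
  α : Λ →* GA
  β : Λ →* GB
  compA : IsCompact (KA : Set GA)
  openA : IsOpen (KA : Set GA)
  compB : IsCompact (KB : Set GB)
  openB : IsOpen (KB : Set GB)
  cover : ∀ (x : GA) (y : GB), ∃ a ∈ KA, ∃ b ∈ KB, ∃ γ : Λ, x = a * α γ ∧ y = b * β γ
  triv : ∀ γ, α γ ∈ KA → β γ ∈ KB → γ = 1

namespace Trans

variable {GA GB Λ : Type} [Group GA] [TopologicalSpace GA] [Group GB]
  [TopologicalSpace GB] [Group Λ]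

/-- exchange the factors -/
def swap (T : Trans GA GB Λ) : Trans GB GA Λ where
  KA := T.KB
  KB := T.KA
  α := T.β
  β := T.α
  compA := T.compB
  openA := T.openB
  compB := T.compA
  openB := T.openA
  cover := by
    intro x y
    obtain ⟨a, ha, b, hb, γ, h1, h2⟩ := T.cover y x
    exact ⟨b, hb, a, ha, γ, h2, h1⟩
  triv := fun γ h1 h2 => T.triv γ h2 h1

/-- the lattice -/
def Γ (T : Trans GA GB Λ) : Subgroup (GA × GB) := (T.α.prod T.β).range

/-- the elements of `KA` that come from `Λ` -/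
def LA (T : Trans GA GB Λ) : Subgroup T.KA := T.α.range.subgroupOf T.KA

/-- the measure on `(GA × GB) ⧸ Γ`: the image of the Haar measure of `KA × KB` -/
noncomputable def meas (T : Trans GA GB Λ) [MeasurableSpace GA] [MeasurableSpace GB]
    (μA : Measure GA) (μB : Measure GB) : Measure ((GA × GB) ⧸ T.Γ) :=
  Measure.map (QuotientGroup.mk : GA × GB → (GA × GB) ⧸ T.Γ)
    ((μA.prod μB).restrict ((T.KA : Set GA) ×ˢ (T.KB : Set GB)))

end Trans

/-- A sequence of finite quotients `Q R` of the compact open subgroup `K` of `G`, separating the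
points topologically: the kernels are open and form a basis of neighbourhoods of `1`. -/
structure Levels {G : Type} [Group G] [TopologicalSpace G] (K : Subgroup G) where
  Q : ℕ → Type
  grp : ∀ R, Group (Q R)
  fin : ∀ R, Fintype (Q R)
  ρ : ∀ R, K →* Q R
  surj : ∀ R, Function.Surjective (ρ R)
  op : ∀ R, IsOpen {g : G | ∃ k : K, ρ R k = 1 ∧ (k : G) = g}
  basis : ∀ V ∈ nhds (1 : G), ∃ R, ∀ k : K, ρ R k = 1 → (k : G) ∈ V

attribute [instance] Levels.grp Levels.fin

/-- average of `f` over the fibre of `x` under `K → Q R` -/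
noncomputable def Levels.avg {G : Type} [Group G] [TopologicalSpace G] [MeasurableSpace G]
    {K : Subgroup G} (L : Levels K) (μ : Measure G) (f : G → ℂ) (R : ℕ) (x : L.Q R) : ℂ :=
  (Fintype.card (L.Q R) : ℂ) * ∫ g in {g : G | ∃ k : K, L.ρ R k = x ∧ (k : G) = g}, f g ∂μ

/-! ## Part II: quaternions -/

/-- The matrix of a quaternion, for `x² + y² = -1`. -/
def matQ {R : Type} [CommRing R] (x y : R) (z : ℍ[R]) : Matrix (Fin 2) (Fin 2) R :=
  !![z.re + z.imI * x - z.imK * y, z.imI * y + z.imJ + z.imK * x;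
    z.imI * y - z.imJ + z.imK * x, z.re - z.imI * x + z.imK * y]

lemma matQ_mul {R : Type} [CommRing R] {x y : R} (h : x ^ 2 + y ^ 2 = -1) (z w : ℍ[R]) :
    matQ x y (z * w) = matQ x y z * matQ x y w := by
  have hy : y ^ 2 = -1 - x ^ 2 := by rw [← h]; ring
  ext i j
  fin_cases i <;> fin_cases j
  · simp [matQ, Matrix.mul_apply, Fin.sum_univ_two]
    linear_combination (-(z.imI * w.imI) - z.imK * w.imK) * h
  · simp [matQ, Matrix.mul_apply, Fin.sum_univ_two]
    linear_combination (z.imK * w.imI - z.imI * w.imK) * h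
  · simp [matQ, Matrix.mul_apply, Fin.sum_univ_two]
    linear_combination (z.imI * w.imK - z.imK * w.imI) * h
  · simp [matQ, Matrix.mul_apply, Fin.sum_univ_two]
    linear_combination (-(z.imI * w.imI) - z.imK * w.imK) * h

lemma matQ_one {R : Type} [CommRing R] (x y : R) : matQ x y 1 = 1 := by
  ext i j
  fin_cases i <;> fin_cases j <;> simp [matQ]

lemma matQ_det {R : Type} [CommRing R] {x y : R} (h : x ^ 2 + y ^ 2 = -1) (z : ℍ[R]) :
    (matQ x y z).det = Quaternion.normSq z := by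
  rw [Matrix.det_fin_two, Quaternion.normSq_def']
  simp [matQ]
  linear_combination (-(z.imI ^ 2) - z.imK ^ 2) * h

/-- the homomorphism from the norm one quaternions to `SL2` -/
def slQ {R : Type} [CommRing R] {x y : R} (h : x ^ 2 + y ^ 2 = -1) :
    unitary ℍ[R] →* Matrix.SpecialLinearGroup (Fin 2) R where
  toFun z := ⟨matQ x y z, by rw [matQ_det h, (TauQ.mem_unitary_iff _).1 z.2]⟩
  map_one' := by
    apply Subtype.ext
    exact matQ_one x y
  map_mul' z w := by
    apply Subtype.ext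
    exact matQ_mul h z w

/-- norm one quaternions are functorial -/
def unitQ {R S : Type} [CommRing R] [CommRing S] (f : R →+* S) :
    unitary ℍ[R] →* unitary ℍ[S] where
  toFun z := ⟨TauQ.qmap f z, by
    rw [TauQ.mem_unitary_iff, TauQ.normSq_qmap, (TauQ.mem_unitary_iff _).1 z.2, map_one]⟩
  map_one' := by
    apply Subtype.ext
    exact map_one (TauQ.qmap f)
  map_mul' z w := by
    apply Subtype.ext
    exact map_mul (TauQ.qmap f) _ _

/-- `Z[1/(pq)] → ℚ_l` -/
noncomputable def toQ (p q l : ℕ) [Fact l.Prime] (h : p * q ≠ 0) : TauQ.RR p q →+* ℚ_[l] :=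
  IsLocalization.Away.lift (R := ℤ) (((p * q : ℕ) : ℤ)) (g := Int.castRingHom ℚ_[l]) (by
    have h1 : (((p * q : ℕ) : ℤ) : ℚ_[l]) ≠ 0 := by exact_mod_cast h
    exact IsUnit.mk0 _ h1)

/-- a square root datum: `x² + y² = -1` in the `l`-adic integers -/
def IsSpl (l : ℕ) [Fact l.Prime] (x y : ℤ_[l]) : Prop := x ^ 2 + y ^ 2 = -1

lemma IsSpl.coe {l : ℕ} [Fact l.Prime] {x y : ℤ_[l]} (h : IsSpl l x y) :
    (x : ℚ_[l]) ^ 2 + (y : ℚ_[l]) ^ 2 = -1 := by
  have := congrArg (fun z : ℤ_[l] => (z : ℚ_[l])) h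
  simpa using this

/-- the embedding of the norm one quaternions over `Z[1/(pq)]` in `SL2(ℚ_l)` -/
noncomputable def emb (p q l : ℕ) [Fact l.Prime] (h : p * q ≠ 0) {x y : ℤ_[l]}
    (hxy : IsSpl l x y) : TauQ.GG p q →* Matrix.SpecialLinearGroup (Fin 2) ℚ_[l] :=
  (slQ hxy.coe).comp (unitQ (toQ p q l h))

/-- `SL2(Z_l)` in `SL2(ℚ_l)` -/
noncomputable def KK (l : ℕ) [Fact l.Prime] : Subgroup (Matrix.SpecialLinearGroup (Fin 2) ℚ_[l]) :=
  (Matrix.SpecialLinearGroup.map (n := Fin 2) (algebraMap ℤ_[l] ℚ_[l])).range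

/-- Borel structure on `SL2(ℚ_l)` -/
noncomputable instance instMSL (l : ℕ) [Fact l.Prime] :
    MeasurableSpace (Matrix.SpecialLinearGroup (Fin 2) ℚ_[l]) := borel _

instance instBSL (l : ℕ) [Fact l.Prime] :
    BorelSpace (Matrix.SpecialLinearGroup (Fin 2) ℚ_[l]) := ⟨rfl⟩

end TauSG
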