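import Mathlib
import Pool.Agent.Work.MP_972ac7_sg.Defs

/-!
# Block statements: strong spectral gap of the quaternion lattices in `SL2(ℚ_p) × SL2(ℚ_q)`

Block X is `X.lean` (imports Mathlib and this file), `namespace TauSG`, theorem `X_thm : S_X` with
hypotheses `(h : S_Y)` of the blocks it uses. See BLUEPRINT.md.
-/

open MeasureTheory Pool.TFD
open scoped Quaternion BigOperators ENNReal

namespace TauSG

open TauQ (RR GG castR redM)
open TauO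

/-! ## Part I: abstract lattices -/

/-- DISC: the lattice is discrete -/
def S_DISC : Prop :=
  ∀ (GA GB Λ : Type) [Group GA] [TopologicalSpace GA] [IsTopologicalGroup GA] [Group GB]
    [TopologicalSpace GB] [IsTopologicalGroup GB] [Group Λ] (T : Trans GA GB Λ),
    DiscreteTopology T.Γ ∧ Function.Injective (T.α.prod T.β)

/-- MEA: the invariant probability measure on the quotient -/
def S_MEA : Prop :=
  ∀ (GA GB Λ : Type)
    [Group GA] [TopologicalSpace GA] [IsTopologicalGroup GA] [LocallyCompactSpace GA]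
    [SecondCountableTopology GA] [T2Space GA] [MeasurableSpace GA] [BorelSpace GA]
    [Group GB] [TopologicalSpace GB] [IsTopologicalGroup GB] [LocallyCompactSpace GB]
    [SecondCountableTopology GB] [T2Space GB] [MeasurableSpace GB] [BorelSpace GB]
    [Group Λ] (T : Trans GA GB Λ) (μA : Measure GA) (μB : Measure GB),
    μA.IsHaarMeasure → μB.IsHaarMeasure → μA.IsMulRightInvariant → μB.IsMulRightInvariant →
    μA (T.KA : Set GA) = 1 → μB (T.KB : Set GB) = 1 →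
    IsProbabilityMeasure (T.meas μA μB) ∧
      ∀ g : GA × GB, MeasurePreserving (fun x => g • x) (T.meas μA μB) (T.meas μA μB)

/-- ONE: finitely many orbits at all levels force one orbit and density -/
def S_ONE : Prop :=
  ∀ (GA GB Λ : Type) [Group GA] [TopologicalSpace GA] [IsTopologicalGroup GA] [T2Space GA]
    [Group GB] [TopologicalSpace GB] [IsTopologicalGroup GB] [Group Λ] (T : Trans GA GB Λ)
    (L : Levels T.KA) (O : ℕ), NoFD GA → (∀ R, (T.LA.map (L.ρ R)).index ≤ O) →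
    (∀ R, T.LA.map (L.ρ R) = ⊤) ∧ DenseRange T.α

/-- AVG: averages over the levels: total sum and the translation bound -/
def S_AVG : Prop :=
  ∀ (G : Type) [Group G] [TopologicalSpace G] [IsTopologicalGroup G] [LocallyCompactSpace G]
    [SecondCountableTopology G] [T2Space G] [MeasurableSpace G] [BorelSpace G] (K : Subgroup G)
    (L : Levels K) (μ : Measure G), IsCompact (K : Set G) → IsOpen (K : Set G) →
    μ.IsHaarMeasure → μ.IsMulRightInvariant → μ (K : Set G) = 1 →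
    ∀ f : G → ℂ, MemLp f 2 (μ.restrict (K : Set G)) →
      (∀ R, ∑ x, L.avg μ f R x = (Fintype.card (L.Q R) : ℂ) * ∫ g in (K : Set G), f g ∂μ) ∧
      (∀ R (s : K), ∑ x, ‖L.avg μ f R (x * L.ρ R s) - L.avg μ f R x‖ ^ 2 ≤
        Fintype.card (L.Q R) * ∫ g in (K : Set G), ‖f (g * s) - f g‖ ^ 2 ∂μ)

/-- CVG: the averages over the levels converge in `L²` -/
def S_CVG : Prop :=
  ∀ (G : Type) [Group G] [TopologicalSpace G] [IsTopologicalGroup G] [LocallyCompactSpace G]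
    [SecondCountableTopology G] [T2Space G] [MeasurableSpace G] [BorelSpace G] (K : Subgroup G)
    (L : Levels K) (μ : Measure G), IsCompact (K : Set G) → IsOpen (K : Set G) →
    μ.IsHaarMeasure → μ (K : Set G) = 1 →
    ∀ f : G → ℂ, MemLp f 2 (μ.restrict (K : Set G)) → ∀ ε : ℝ, 0 < ε → ∃ R,
      (Fintype.card (L.Q R) : ℝ) * (∫ g in (K : Set G), ‖f g‖ ^ 2 ∂μ - ε) ≤
        ∑ x, ‖L.avg μ f R x‖ ^ 2

end TauSG

namespace TauSG

section

variable {GA GB Λ : Type} [Group GA] [TopologicalSpace GA] [Group GB]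
  [TopologicalSpace GB] [Group Λ] [MeasurableSpace GB]

/-- the average of `φ` over `KB` -/
noncomputable def Trans.psi (T : Trans GA GB Λ) (μB : Measure GB) (φ : (GA × GB) ⧸ T.Γ → ℂ) :
    (GA × GB) ⧸ T.Γ → ℂ :=
  fun x => ∫ k in (T.KB : Set GB), φ (((1, k) : GA × GB) • x) ∂μB

/-- the average of `φ` over `KB` as a function on `GA` -/
noncomputable def Trans.phi0 (T : Trans GA GB Λ) (μB : Measure GB) (φ : (GA × GB) ⧸ T.Γ → ℂ) :
    GA → ℂ :=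
  fun a => ∫ b in (T.KB : Set GB), φ (QuotientGroup.mk (a, b)) ∂μB

end

open TauQ (RR GG castR redM)
open TauO

/-- PSI: the average over `KB` -/
def S_PSI : Prop :=
  ∀ (GA GB Λ : Type)
    [Group GA] [TopologicalSpace GA] [IsTopologicalGroup GA] [LocallyCompactSpace GA]
    [SecondCountableTopology GA] [T2Space GA] [MeasurableSpace GA] [BorelSpace GA]
    [Group GB] [TopologicalSpace GB] [IsTopologicalGroup GB] [LocallyCompactSpace GB]
    [SecondCountableTopology GB] [T2Space GB] [MeasurableSpace GB] [BorelSpace GB]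
    [Group Λ] (T : Trans GA GB Λ) (μA : Measure GA) (μB : Measure GB),
    μA.IsHaarMeasure → μB.IsHaarMeasure → μA.IsMulRightInvariant → μB.IsMulRightInvariant →
    μA (T.KA : Set GA) = 1 → μB (T.KB : Set GB) = 1 →
    ∀ φ : (GA × GB) ⧸ T.Γ → ℂ, MemLp φ 2 (T.meas μA μB) →
      MemLp (T.psi μB φ) 2 (T.meas μA μB) ∧
      MemLp (T.phi0 μB φ) 2 (μA.restrict (T.KA : Set GA)) ∧
      (∀ k ∈ T.KB, ∀ x, T.psi μB φ (((1, k) : GA × GB) • x) = T.psi μB φ x) ∧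
      (∀ a : GA, ∀ b ∈ T.KB, T.psi μB φ (QuotientGroup.mk (a, b)) = T.phi0 μB φ a) ∧
      ∫ a in (T.KA : Set GA), T.phi0 μB φ a ∂μA = ∫ x, φ x ∂(T.meas μA μB) ∧
      ∫ a in (T.KA : Set GA), ‖T.phi0 μB φ a‖ ^ 2 ∂μA = ∫ x, ‖T.psi μB φ x‖ ^ 2 ∂(T.meas μA μB) ∧
      ∀ δ : ℝ, (∀ k ∈ T.KB, ∫ x, ‖φ (((1, k) : GA × GB)⁻¹ • x) - φ x‖ ^ 2 ∂(T.meas μA μB) ≤ δ) →
        ∫ x, ‖φ x - T.psi μB φ x‖ ^ 2 ∂(T.meas μA μB) ≤ δ

/-- TRS: a nearly invariant function gives a nearly invariant function on `KA` -/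
def S_TRS : Prop :=
  ∀ (GA GB Λ : Type)
    [Group GA] [TopologicalSpace GA] [IsTopologicalGroup GA] [LocallyCompactSpace GA]
    [SecondCountableTopology GA] [T2Space GA] [MeasurableSpace GA] [BorelSpace GA]
    [Group GB] [TopologicalSpace GB] [IsTopologicalGroup GB] [LocallyCompactSpace GB]
    [SecondCountableTopology GB] [T2Space GB] [MeasurableSpace GB] [BorelSpace GB]
    [Group Λ] (T : Trans GA GB Λ) (μA : Measure GA) (μB : Measure GB),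
    μA.IsHaarMeasure → μB.IsHaarMeasure → μA.IsMulRightInvariant → μB.IsMulRightInvariant →
    μA (T.KA : Set GA) = 1 → μB (T.KB : Set GB) = 1 →
    ∀ s : Λ, T.α s ∈ T.KA → ∃ η : ℝ, 0 < η ∧
    ∀ φ : (GA × GB) ⧸ T.Γ → ℂ, MemLp φ 2 (T.meas μA μB) → ∀ δ : ℝ,
      (∀ k ∈ T.KB, ∫ x, ‖φ (((1, k) : GA × GB)⁻¹ • x) - φ x‖ ^ 2 ∂(T.meas μA μB) ≤ δ) →
      ∫ x, ‖φ (((1, T.β s) : GA × GB)⁻¹ • x) - φ x‖ ^ 2 ∂(T.meas μA μB) ≤ δ →
      η * ∫ a in (T.KA : Set GA), ‖T.phi0 μB φ (a * T.α s) - T.phi0 μB φ a‖ ^ 2 ∂μA ≤ 9 * δ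

/-- SG: the strong spectral gap from a gap at all levels -/
def S_SG : Prop :=
  ∀ (GA GB Λ : Type)
    [Group GA] [TopologicalSpace GA] [IsTopologicalGroup GA] [LocallyCompactSpace GA]
    [SecondCountableTopology GA] [T2Space GA] [MeasurableSpace GA] [BorelSpace GA]
    [Group GB] [TopologicalSpace GB] [IsTopologicalGroup GB] [LocallyCompactSpace GB]
    [SecondCountableTopology GB] [T2Space GB] [MeasurableSpace GB] [BorelSpace GB]
    [Group Λ] (T : Trans GA GB Λ) (L : Levels T.KA) (μA : Measure GA) (μB : Measure GB),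
    μA.IsHaarMeasure → μB.IsHaarMeasure → μA.IsMulRightInvariant → μB.IsMulRightInvariant →
    μA (T.KA : Set GA) = 1 → μB (T.KB : Set GB) = 1 →
    ∀ (ι : Type) [Fintype ι] (s : ι → Λ) (hs : ∀ i, T.α (s i) ∈ T.KA) (c : ℝ), 0 < c →
    (∀ R (f : L.Q R → ℂ), ∑ x, f x = 0 →
      c * ∑ x, ‖f x‖ ^ 2 ≤ ∑ i, ∑ x, ‖f (x * L.ρ R ⟨T.α (s i), hs i⟩) - f x‖ ^ 2) →
    StrongGap T.Γ (T.meas μA μB)

/-! ## Part II: `SL2(ℚ_l)` -/

/-- TOPL -/
def S_TOPL : Prop :=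
  ∀ (l : ℕ) [Fact l.Prime],
    LocallyCompactSpace (Matrix.SpecialLinearGroup (Fin 2) ℚ_[l]) ∧
    SecondCountableTopology (Matrix.SpecialLinearGroup (Fin 2) ℚ_[l]) ∧
    T2Space (Matrix.SpecialLinearGroup (Fin 2) ℚ_[l]) ∧
    IsCompact (KK l : Set (Matrix.SpecialLinearGroup (Fin 2) ℚ_[l])) ∧
    IsOpen (KK l : Set (Matrix.SpecialLinearGroup (Fin 2) ℚ_[l]))

/-- upper unipotent matrix -/
def upp {k : Type} [CommRing k] (t : k) : Matrix.SpecialLinearGroup (Fin 2) k :=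
  ⟨!![1, t; 0, 1], by simp [Matrix.det_fin_two]⟩

/-- lower unipotent matrix -/
def low {k : Type} [CommRing k] (t : k) : Matrix.SpecialLinearGroup (Fin 2) k :=
  ⟨!![1, 0; t, 1], by simp [Matrix.det_fin_two]⟩

/-- GEN: the unipotent matrices generate -/
def S_GEN : Prop :=
  ∀ (k : Type) [Field k],
    Subgroup.closure {g : Matrix.SpecialLinearGroup (Fin 2) k | ∃ t : k, g = upp t ∨ g = low t} = ⊤

/-- NOFD -/
def S_NOFD : Prop :=
  ∀ (l : ℕ) [Fact l.Prime], NoFD (Matrix.SpecialLinearGroup (Fin 2) ℚ_[l])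

/-- UNIM -/
def S_UNIM : Prop :=
  ∀ (l : ℕ) [Fact l.Prime] (μ : Measure (Matrix.SpecialLinearGroup (Fin 2) ℚ_[l])),
    μ.IsHaarMeasure → μ.IsMulRightInvariant

/-- SPL -/
def S_SPL : Prop :=
  ∀ (l : ℕ) [Fact l.Prime], l ≠ 2 → ∃ x y : ℤ_[l], IsSpl l x y

/-! ## Part III: the embedding -/

/-- INT: integrality -/
def S_INT : Prop :=
  ∀ (p q l : ℕ) [Fact l.Prime] (h : p * q ≠ 0) (x y : ℤ_[l]) (hxy : IsSpl l x y)
    (γ : GG p q) (d : ℤ) (α : ℍ[ℤ]), ¬ (l : ℤ) ∣ d →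
    ((d : ℤ) : ℍ[RR p q]) * (γ : ℍ[RR p q]) = castR p q α → emb p q l h hxy γ ∈ KK l

/-- COV1: the lattice acts transitively on the vertices of one tree, with denominators powers of the
same prime -/
def S_COV1 : Prop :=
  ∀ (p q l : ℕ) [Fact l.Prime], p.Prime → q.Prime → p ≠ 2 → q ≠ 2 → p ≠ q → (l = p ∨ l = q) →
    ∀ (h : p * q ≠ 0) (x y : ℤ_[l]) (hxy : IsSpl l x y)
      (g : Matrix.SpecialLinearGroup (Fin 2) ℚ_[l]), ∃ γ : G1 p q,
      (∃ (i : ℕ) (α : ℍ[ℤ]),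
        (((pst l) ^ i : ℤ) : ℍ[RR p q]) * ((γ : GG p q) : ℍ[RR p q]) = castR p q α) ∧
      ∃ a ∈ KK l, g = a * emb p q l h hxy (γ : GG p q)

/-- COV -/
def S_COV : Prop :=
  ∀ (p q : ℕ) [Fact p.Prime] [Fact q.Prime], p ≠ 2 → q ≠ 2 → p ≠ q →
    ∀ (h : p * q ≠ 0) (x y : ℤ_[p]) (hxy : IsSpl p x y) (x' y' : ℤ_[q]) (hxy' : IsSpl q x' y')
      (u : Matrix.SpecialLinearGroup (Fin 2) ℚ_[p]) (v : Matrix.SpecialLinearGroup (Fin 2) ℚ_[q]),
      ∃ a ∈ KK p, ∃ b ∈ KK q, ∃ γ : G1 p q, u = a * emb p q p h hxy (γ : GG p q) ∧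
        v = b * emb p q q h hxy' (γ : GG p q)

/-- TRIV -/
def S_TRIV : Prop :=
  ∀ (p q : ℕ) [Fact p.Prime] [Fact q.Prime], p ≠ 2 → q ≠ 2 → p ≠ q →
    ∀ (h : p * q ≠ 0) (x y : ℤ_[p]) (hxy : IsSpl p x y) (x' y' : ℤ_[q]) (hxy' : IsSpl q x' y')
      (γ : G1 p q), emb p q p h hxy (γ : GG p q) ∈ KK p → emb p q q h hxy' (γ : GG p q) ∈ KK q →
      γ = 1

/-- LEV: the levels of `SL2(Z_l)` are the norm one quaternions modulo `l^R` -/
def S_LEV : Prop :=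
  ∀ (l : ℕ) [Fact l.Prime], l ≠ 2 → ∀ (x y : ℤ_[l]) (hxy : IsSpl l x y),
    ∃ (L : Levels (KK l)) (e : ∀ R, L.Q R ≃* unitary ℍ[ZMod (l ^ R)]),
      ∀ (p q : ℕ) (h : p * q ≠ 0) (γ : GG p q) (d : ℤ) (α : ℍ[ℤ]), ¬ (l : ℤ) ∣ d →
        ((d : ℤ) : ℍ[RR p q]) * (γ : ℍ[RR p q]) = castR p q α →
        ∀ (hm : emb p q l h hxy γ ∈ KK l) (R : ℕ),
          ((d : ℤ) : ℍ[ZMod (l ^ R)]) * (e R (L.ρ R ⟨emb p q l h hxy γ, hm⟩) : ℍ[ZMod (l ^ R)]) =
            redM (l ^ R) α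

/-- IDX: bounded index and gap at the levels `p^R` -/
def S_IDX : Prop :=
  ∀ p q : ℕ, p.Prime → q.Prime → p ≠ 2 → q ≠ 2 → p ≠ q →
    ∃ (g : ℝ) (O : ℕ), 0 < g ∧ ∀ (R : ℕ) [NeZero (p ^ R)] (hM : Nat.Coprime q (p ^ R)),
      (Subgroup.closure {x | ∃ b' b : SS q, x = uM (p ^ R) hM b' b}).index ≤ O ∧
      (Subgroup.closure {x | ∃ b' b : SS q, x = uM (p ^ R) hM b' b} = ⊤ →
        ∀ φ : unitary ℍ[ZMod (p ^ R)] → ℂ, ∑ x, φ x = 0 →
        2 * g * ∑ x, ‖φ x‖ ^ 2 ≤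
          ∑ b' : SS q, ∑ b : SS q, ∑ x, ‖φ (uM (p ^ R) hM b' b * x) - φ x‖ ^ 2)

/-- PAIR: the pairs of letters are in the group -/
def S_PAIR : Prop :=
  ∀ (p q r : ℕ), p.Prime → q.Prime → p ≠ 2 → q ≠ 2 → (r = p ∨ r = q) → ∀ b' b : SS r,
    ∃ γ : G1 p q,
      ((pst r : ℤ) : ℍ[RR p q]) * ((γ : GG p q) : ℍ[RR p q]) = castR p q (b'.val * b.val)

/-- WORD: the elements which are integral at `l` are products of pairs of letters of the other
prime -/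
def S_WORD : Prop :=
  ∀ (p q l r : ℕ) [Fact l.Prime], p.Prime → q.Prime → p ≠ 2 → q ≠ 2 → p ≠ q →
    ((l = p ∧ r = q) ∨ (l = q ∧ r = p)) →
    ∀ (h : p * q ≠ 0) (x y : ℤ_[l]) (hxy : IsSpl l x y) (γ : G1 p q),
      emb p q l h hxy (γ : GG p q) ∈ KK l →
      γ ∈ Subgroup.closure {γ' : G1 p q | ∃ b' b : SS r,
        ((pst r : ℤ) : ℍ[RR p q]) * ((γ' : GG p q) : ℍ[RR p q]) = castR p q (b'.val * b.val)}

/-- SIDE: the data of one side -/
def S_SIDE : Prop :=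
  ∀ (p q l r : ℕ) [Fact l.Prime], p.Prime → q.Prime → p ≠ 2 → q ≠ 2 → p ≠ q →
    ((l = p ∧ r = q) ∨ (l = q ∧ r = p)) →
    ∀ (h : p * q ≠ 0) (x y : ℤ_[l]) (hxy : IsSpl l x y),
    ∃ (L : Levels (KK l)) (O : ℕ) (c : ℝ) (s : SS r × SS r → G1 p q)
      (hs : ∀ i, ((emb p q l h hxy).comp (G1 p q).subtype) (s i) ∈ KK l), 0 < c ∧
      (∀ R, (((((emb p q l h hxy).comp (G1 p q).subtype).range).subgroupOf (KK l)).map
        (L.ρ R)).index ≤ O) ∧
      ((∀ R, ((((emb p q l h hxy).comp (G1 p q).subtype).range).subgroupOf (KK l)).map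
        (L.ρ R) = ⊤) → ∀ R (f : L.Q R → ℂ), ∑ x, f x = 0 →
        c * ∑ x, ‖f x‖ ^ 2 ≤ ∑ i, ∑ x, ‖f (x * L.ρ R ⟨_, hs i⟩) - f x‖ ^ 2)

/-- HSG: the norm one quaternion group `G1 p q` (of finite index in the norm one quaternions over
`Z[1/(pq)]`) is a lattice in `SL2(ℚ_p) × SL2(ℚ_q)` with a strong spectral gap. -/
def S_HSG : Prop :=
  ∀ (p q : ℕ) [Fact p.Prime] [Fact q.Prime], p ≠ 2 → q ≠ 2 → p ≠ q →
    ∃ (T : Trans (Matrix.SpecialLinearGroup (Fin 2) ℚ_[p])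
        (Matrix.SpecialLinearGroup (Fin 2) ℚ_[q]) (G1 p q))
      (m : Measure ((Matrix.SpecialLinearGroup (Fin 2) ℚ_[p] ×
        Matrix.SpecialLinearGroup (Fin 2) ℚ_[q]) ⧸ T.Γ)),
      Function.Injective (T.α.prod T.β) ∧ DiscreteTopology T.Γ ∧ IsProbabilityMeasure m ∧
      (∀ g : Matrix.SpecialLinearGroup (Fin 2) ℚ_[p] × Matrix.SpecialLinearGroup (Fin 2) ℚ_[q],
        MeasurePreserving (fun x => g • x) m m) ∧
      DenseRange T.α ∧ DenseRange T.β ∧ StrongGap T.Γ m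

end TauSG
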