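import Mathlib
import Pool.Agent.Work.MP_972ac7_sg.Interface

/-! # Block AVG: averages over the levels (helper14) -/

open MeasureTheory
open scoped BigOperators ENNReal

namespace TauSG

/-! ## Square integrals -/

theorem AVG_pt (a c : ℂ) : ‖a - c‖ ^ 2 = ‖a‖ ^ 2 - 2 * ((starRingEnd ℂ) c * a).re + ‖c‖ ^ 2 := by
  simp only [Complex.sq_norm, Complex.normSq_apply, Complex.sub_re, Complex.sub_im,
    Complex.mul_re, Complex.conj_re, Complex.conj_im]
  ring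

theorem AVG_sq {X : Type} [MeasurableSpace X] (ν : Measure X) [IsFiniteMeasure ν] (f : X → ℂ)
    (hf : MemLp f 2 ν) (c : ℂ) :
    ∫ g, ‖f g - c‖ ^ 2 ∂ν = ∫ g, ‖f g‖ ^ 2 ∂ν -
      2 * ((starRingEnd ℂ) c * ∫ g, f g ∂ν).re + ‖c‖ ^ 2 * ν.real Set.univ := by
  have h1 : Integrable (fun g => ‖f g‖ ^ 2) ν := hf.integrable_norm_pow (by norm_num)
  have h2 : Integrable f ν := hf.integrable (by norm_num)
  have h3 : Integrable (fun g => (starRingEnd ℂ) c * f g) ν := h2.const_mul _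
  have h4 : Integrable (fun g => ((starRingEnd ℂ) c * f g).re) ν := h3.re
  have e1 : ∫ g, ((starRingEnd ℂ) c * f g).re ∂ν = ((starRingEnd ℂ) c * ∫ g, f g ∂ν).re := by
    rw [← integral_const_mul]
    exact integral_re h3
  have e2 : ∫ _, ‖c‖ ^ 2 ∂ν = ‖c‖ ^ 2 * ν.real Set.univ := by
    rw [integral_const, smul_eq_mul, mul_comm]
  have h5 : Integrable (fun _ : X => ‖c‖ ^ 2) ν := integrable_const _
  calc ∫ g, ‖f g - c‖ ^ 2 ∂ν
      = ∫ g, (‖f g‖ ^ 2 - 2 * ((starRingEnd ℂ) c * f g).re + ‖c‖ ^ 2) ∂ν :=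
        integral_congr_ae (Filter.Eventually.of_forall fun g => AVG_pt _ _)
    _ = ∫ g, (‖f g‖ ^ 2 - 2 * ((starRingEnd ℂ) c * f g).re) ∂ν + ∫ _, ‖c‖ ^ 2 ∂ν :=
        integral_add (h1.sub (h4.const_mul 2)) h5
    _ = _ := by
        rw [integral_sub h1 (h4.const_mul 2), integral_const_mul, e1, e2]

/-- completing the square -/
theorem AVG_low {X : Type} [MeasurableSpace X] (ν : Measure X) [IsFiniteMeasure ν] (f : X → ℂ)
    (hf : MemLp f 2 ν) (c : ℂ) (hm : 0 < ν.real Set.univ) :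
    ∫ g, ‖f g‖ ^ 2 ∂ν - ‖∫ g, f g ∂ν‖ ^ 2 / ν.real Set.univ ≤ ∫ g, ‖f g - c‖ ^ 2 ∂ν := by
  rw [AVG_sq ν f hf c]
  obtain ⟨m, hmd⟩ : ∃ m : ℝ, m = ν.real Set.univ := ⟨_, rfl⟩
  obtain ⟨I, hI⟩ : ∃ I : ℂ, I = ∫ g, f g ∂ν := ⟨_, rfl⟩
  rw [← hmd] at hm ⊢
  rw [← hI]
  have h1 : 0 ≤ ‖I - (m : ℂ) * c‖ ^ 2 := by positivity
  have h2 : ‖I - (m : ℂ) * c‖ ^ 2 = ‖I‖ ^ 2 - 2 * m * ((starRingEnd ℂ) c * I).re +
      m ^ 2 * ‖c‖ ^ 2 := by
    simp only [Complex.sq_norm, Complex.normSq_apply, Complex.sub_re, Complex.sub_im,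
      Complex.mul_re, Complex.mul_im, Complex.conj_re, Complex.conj_im, Complex.ofReal_re,
      Complex.ofReal_im]
    ring
  rw [h2] at h1
  have h3 : 0 ≤ (‖I‖ ^ 2 - 2 * m * ((starRingEnd ℂ) c * I).re + m ^ 2 * ‖c‖ ^ 2) / m := by
    positivity
  have h4 : (‖I‖ ^ 2 - 2 * m * ((starRingEnd ℂ) c * I).re + m ^ 2 * ‖c‖ ^ 2) / m =
      ‖I‖ ^ 2 / m - 2 * ((starRingEnd ℂ) c * I).re + ‖c‖ ^ 2 * m := by
    field_simp
  rw [h4] at h3
  linarith

/-- Cauchy-Schwarz -/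
theorem AVG_cs {X : Type} [MeasurableSpace X] (ν : Measure X) [IsFiniteMeasure ν] (f : X → ℂ)
    (hf : MemLp f 2 ν) (hm : 0 < ν.real Set.univ) :
    ‖∫ g, f g ∂ν‖ ^ 2 ≤ ν.real Set.univ * ∫ g, ‖f g‖ ^ 2 ∂ν := by
  obtain ⟨m, hmd⟩ : ∃ m : ℝ, m = ν.real Set.univ := ⟨_, rfl⟩
  obtain ⟨I, hI⟩ : ∃ I : ℂ, I = ∫ g, f g ∂ν := ⟨_, rfl⟩
  have h1 := AVG_sq ν f hf (I / m)
  have h0 : 0 ≤ ∫ g, ‖f g - I / m‖ ^ 2 ∂ν := integral_nonneg fun g => by positivity
  rw [h1] at h0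
  rw [← hmd] at hm h0 ⊢
  rw [← hI] at h0 ⊢
  have h2 : ((starRingEnd ℂ) (I / m) * I).re = ‖I‖ ^ 2 / m := by
    rw [map_div₀, Complex.conj_ofReal, div_mul_eq_mul_div, mul_comm, Complex.mul_conj,
      ← Complex.ofReal_div, Complex.ofReal_re, Complex.sq_norm]
  have h3 : ‖I / (m : ℂ)‖ ^ 2 * m = ‖I‖ ^ 2 / m := by
    rw [norm_div, Complex.norm_real, Real.norm_of_nonneg hm.le]
    field_simp
  rw [h2, h3] at h0
  have h4 : ‖I‖ ^ 2 / m ≤ ∫ g, ‖f g‖ ^ 2 ∂ν := by linarith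
  rw [div_le_iff₀ hm] at h4
  linarith

/-! ## The fibres -/

section fib

variable {G : Type} [Group G] [TopologicalSpace G] {K : Subgroup G} (L : Levels K)

/-- the fibre of `x` -/
def AVG_F (R : ℕ) (x : L.Q R) : Set G := {g : G | ∃ k : K, L.ρ R k = x ∧ (k : G) = g}

theorem AVG_mem (R : ℕ) (x : L.Q R) (g : G) :
    g ∈ AVG_F L R x ↔ ∃ h : g ∈ K, L.ρ R ⟨g, h⟩ = x := by
  constructor
  · rintro ⟨k, h1, rfl⟩
    exact ⟨k.2, h1⟩
  · rintro ⟨h, h1⟩
    exact ⟨⟨g, h⟩, h1, rfl⟩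

theorem AVG_pre_left (R : ℕ) (k : K) (x : L.Q R) :
    (fun g => (k : G) * g) ⁻¹' AVG_F L R (L.ρ R k * x) = AVG_F L R x := by
  ext g
  rw [Set.mem_preimage, AVG_mem, AVG_mem]
  constructor
  · rintro ⟨h, h1⟩
    have hg : g ∈ K := (K.mul_mem_cancel_left k.2).1 h
    refine ⟨hg, ?_⟩
    have e : (⟨(k : G) * g, h⟩ : K) = k * ⟨g, hg⟩ := rfl
    rw [e, map_mul] at h1
    exact mul_left_cancel h1
  · rintro ⟨h, h1⟩
    refine ⟨K.mul_mem k.2 h, ?_⟩
    have e : (⟨(k : G) * g, K.mul_mem k.2 h⟩ : K) = k * ⟨g, h⟩ := rfl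
    rw [e, map_mul, h1]

theorem AVG_pre_right (R : ℕ) (k : K) (x : L.Q R) :
    (fun g => g * (k : G)) ⁻¹' AVG_F L R (x * L.ρ R k) = AVG_F L R x := by
  ext g
  rw [Set.mem_preimage, AVG_mem, AVG_mem]
  constructor
  · rintro ⟨h, h1⟩
    have hg : g ∈ K := (K.mul_mem_cancel_right k.2).1 h
    refine ⟨hg, ?_⟩
    have e : (⟨g * (k : G), h⟩ : K) = ⟨g, hg⟩ * k := rfl
    rw [e, map_mul] at h1
    exact mul_right_cancel h1
  · rintro ⟨h, h1⟩
    refine ⟨K.mul_mem h k.2, ?_⟩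
    have e : (⟨g * (k : G), K.mul_mem h k.2⟩ : K) = ⟨g, h⟩ * k := rfl
    rw [e, map_mul, h1]

theorem AVG_union (R : ℕ) : (⋃ x, AVG_F L R x) = (K : Set G) := by
  ext g
  rw [Set.mem_iUnion]
  constructor
  · rintro ⟨x, h⟩
    exact ((AVG_mem L R x g).1 h).1
  · intro h
    exact ⟨L.ρ R ⟨g, h⟩, (AVG_mem L R _ g).2 ⟨h, rfl⟩⟩

theorem AVG_disj (R : ℕ) : Pairwise (Function.onFun Disjoint (AVG_F L R)) := by
  intro x y hxy
  rw [Function.onFun, Set.disjoint_left]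
  intro g h1 h2
  obtain ⟨a, b⟩ := (AVG_mem L R x g).1 h1
  obtain ⟨c, d⟩ := (AVG_mem L R y g).1 h2
  exact hxy (b.symm.trans d)

theorem AVG_sub (R : ℕ) (x : L.Q R) : AVG_F L R x ⊆ (K : Set G) :=
  fun g h => ((AVG_mem L R x g).1 h).1

variable [IsTopologicalGroup G]

theorem AVG_open (R : ℕ) (x : L.Q R) : IsOpen (AVG_F L R x) := by
  obtain ⟨k, hk⟩ := L.surj R x
  have h := AVG_pre_left L R k⁻¹ x
  have e : L.ρ R k⁻¹ * x = 1 := by
    rw [map_inv, hk]
    exact inv_mul_cancel x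
  rw [e] at h
  rw [← h]
  exact (L.op R).preimage (continuous_const.mul continuous_id)

variable [MeasurableSpace G] [BorelSpace G]

theorem AVG_ms (R : ℕ) (x : L.Q R) : MeasurableSet (AVG_F L R x) := (AVG_open L R x).measurableSet

theorem AVG_meas_eq (μ : Measure G) [μ.IsMulLeftInvariant] (R : ℕ) (x : L.Q R) :
    μ (AVG_F L R x) = μ (AVG_F L R 1) := by
  obtain ⟨k, hk⟩ := L.surj R x
  have h := AVG_pre_left L R k 1
  rw [mul_one, hk] at h
  rw [← h]
  exact (measure_preimage_mul μ (k : G) _).symm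

theorem AVG_card (μ : Measure G) [μ.IsMulLeftInvariant] (h1 : μ (K : Set G) = 1) (R : ℕ)
    (x : L.Q R) : (Fintype.card (L.Q R) : ℝ≥0∞) * μ (AVG_F L R x) = 1 := by
  have e := measure_iUnion (μ := μ) (AVG_disj L R) (fun x => AVG_ms L R x)
  rw [AVG_union, h1, tsum_fintype] at e
  rw [Finset.sum_congr rfl fun y _ => (AVG_meas_eq L μ R y).trans (AVG_meas_eq L μ R x).symm,
    Finset.sum_const, Finset.card_univ, nsmul_eq_mul] at e
  exact e.symm

theorem AVG_card_real (μ : Measure G) [μ.IsMulLeftInvariant] (h1 : μ (K : Set G) = 1) (R : ℕ)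
    (x : L.Q R) : (Fintype.card (L.Q R) : ℝ) * μ.real (AVG_F L R x) = 1 := by
  have e := congrArg ENNReal.toReal (AVG_card L μ h1 R x)
  rw [ENNReal.toReal_mul, ENNReal.toReal_natCast, ENNReal.toReal_one] at e
  exact e

omit [IsTopologicalGroup G] [MeasurableSpace G] [BorelSpace G] in
theorem AVG_card_pos (R : ℕ) : (0 : ℝ) < Fintype.card (L.Q R) := by
  have : Nonempty (L.Q R) := ⟨1⟩
  exact_mod_cast Fintype.card_pos

theorem AVG_real_pos (μ : Measure G) [μ.IsMulLeftInvariant] (h1 : μ (K : Set G) = 1) (R : ℕ)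
    (x : L.Q R) : 0 < μ.real (AVG_F L R x) := by
  have e := AVG_card_real L μ h1 R x
  have h := AVG_card_pos L R
  by_contra hn
  have h0 : μ.real (AVG_F L R x) = 0 := le_antisymm (not_lt.1 hn) measureReal_nonneg
  rw [h0, mul_zero] at e
  exact zero_ne_one e

theorem AVG_sum (μ : Measure G) (E : Type) [NormedAddCommGroup E] [NormedSpace ℝ E] (R : ℕ)
    (φ : G → E) (hφ : IntegrableOn φ (K : Set G) μ) :
    ∑ x, ∫ g in AVG_F L R x, φ g ∂μ = ∫ g in (K : Set G), φ g ∂μ := by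
  rw [← AVG_union L R, integral_iUnion_fintype (fun x => AVG_ms L R x) (AVG_disj L R)]
  exact fun x => hφ.mono_set (AVG_sub L R x)

end fib

theorem AVG_thm : S_AVG := by
  intro G _ _ _ _ _ _ _ _ K L μ hKc hKo hμ hr h1 f hf
  have := hr
  have hKm : MeasurableSet (K : Set G) := hKo.measurableSet
  have : IsFiniteMeasure (μ.restrict (K : Set G)) :=
    ⟨by rw [Measure.restrict_apply_univ, h1]; exact ENNReal.one_lt_top⟩
  have hfi : IntegrableOn f (K : Set G) μ := hf.integrable (by norm_num)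
  have hdef : ∀ R x, L.avg μ f R x = (Fintype.card (L.Q R) : ℂ) * ∫ g in AVG_F L R x, f g ∂μ :=
    fun R x => rfl
  refine ⟨?_, ?_⟩
  · intro R
    simp only [hdef]
    rw [← Finset.mul_sum, AVG_sum L μ ℂ R f hfi]
  · intro R s
    obtain ⟨N, hN⟩ : ∃ N : ℝ, N = Fintype.card (L.Q R) := ⟨_, rfl⟩
    have hN0 : 0 < N := by rw [hN]; exact AVG_card_pos L R
    have hmpK : MeasurePreserving (fun g => g * (s : G)) (μ.restrict (K : Set G))
        (μ.restrict (K : Set G)) := by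
      have h := (measurePreserving_mul_right μ (s : G)).restrict_preimage hKm
      have e : (fun g => g * (s : G)) ⁻¹' (K : Set G) = (K : Set G) := by
        ext g
        exact K.mul_mem_cancel_right s.2
      rw [e] at h
      exact h
    have hfs : MemLp (fun g => f (g * (s : G))) 2 (μ.restrict (K : Set G)) :=
      hf.comp_measurePreserving hmpK
    have hd : MemLp (fun g => f (g * (s : G)) - f g) 2 (μ.restrict (K : Set G)) := hfs.sub hf
    have hdi : IntegrableOn (fun g => ‖f (g * (s : G)) - f g‖ ^ 2) (K : Set G) μ :=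
      hd.integrable_norm_pow (by norm_num)
    have hx : ∀ x, ‖L.avg μ f R (x * L.ρ R s) - L.avg μ f R x‖ ^ 2 ≤
        N * ∫ g in AVG_F L R x, ‖f (g * (s : G)) - f g‖ ^ 2 ∂μ := by
      intro x
      have hle : μ.restrict (AVG_F L R x) ≤ μ.restrict (K : Set G) :=
        Measure.restrict_mono (AVG_sub L R x) le_rfl
      have : IsFiniteMeasure (μ.restrict (AVG_F L R x)) := isFiniteMeasure_of_le _ hle
      have e1 : ∫ g in AVG_F L R (x * L.ρ R s), f g ∂μ =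
          ∫ g in AVG_F L R x, f (g * (s : G)) ∂μ := by
        have h := (measurePreserving_mul_right μ (s : G)).setIntegral_preimage_emb
          (MeasurableEquiv.mulRight (s : G)).measurableEmbedding f (AVG_F L R (x * L.ρ R s))
        rw [← h]
        rw [show (fun g => g * (s : G)) ⁻¹' AVG_F L R (x * L.ρ R s) = AVG_F L R x from
          AVG_pre_right L R s x]
      have hfx : Integrable f (μ.restrict (AVG_F L R x)) :=
        (hf.integrable (by norm_num)).mono_measure hle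
      have hfsx : Integrable (fun g => f (g * (s : G))) (μ.restrict (AVG_F L R x)) :=
        (hfs.integrable (by norm_num)).mono_measure hle
      have e2 : L.avg μ f R (x * L.ρ R s) - L.avg μ f R x =
          (Fintype.card (L.Q R) : ℂ) * ∫ g in AVG_F L R x, (f (g * (s : G)) - f g) ∂μ := by
        rw [hdef, hdef, e1, ← mul_sub, integral_sub hfsx hfx]
      have hm : 0 < (μ.restrict (AVG_F L R x)).real Set.univ := by
        rw [measureReal_restrict_apply_univ]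
        exact AVG_real_pos L μ h1 R x
      have h3 := AVG_cs (μ.restrict (AVG_F L R x)) (fun g => f (g * (s : G)) - f g)
        (hd.mono_measure hle) hm
      rw [measureReal_restrict_apply_univ] at h3
      have h4 : N * μ.real (AVG_F L R x) = 1 := by rw [hN]; exact AVG_card_real L μ h1 R x
      have e3 : ‖(Fintype.card (L.Q R) : ℂ)‖ = N := by
        rw [hN, Complex.norm_natCast]
      rw [e2, norm_mul, mul_pow, e3]
      calc N ^ 2 * ‖∫ g in AVG_F L R x, (f (g * (s : G)) - f g) ∂μ‖ ^ 2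
          ≤ N ^ 2 * (μ.real (AVG_F L R x) *
            ∫ g in AVG_F L R x, ‖f (g * (s : G)) - f g‖ ^ 2 ∂μ) :=
          mul_le_mul_of_nonneg_left h3 (by positivity)
        _ = N * (N * μ.real (AVG_F L R x)) *
            ∫ g in AVG_F L R x, ‖f (g * (s : G)) - f g‖ ^ 2 ∂μ := by ring
        _ = _ := by rw [h4, mul_one]
    calc ∑ x, ‖L.avg μ f R (x * L.ρ R s) - L.avg μ f R x‖ ^ 2
        ≤ ∑ x, N * ∫ g in AVG_F L R x, ‖f (g * (s : G)) - f g‖ ^ 2 ∂μ :=
          Finset.sum_le_sum fun x _ => hx x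
      _ = N * ∫ g in (K : Set G), ‖f (g * (s : G)) - f g‖ ^ 2 ∂μ := by
          rw [← Finset.mul_sum, AVG_sum L μ ℝ R _ hdi]
      _ = _ := by rw [hN]

end TauSG
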