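import Mathlib
import Pool.Agent.Work.MP_972ac7_sg.Interface

/-! # MP_972ac7_al, block COV: the lattice is transitive on the pairs of vertices (helper94) -/

set_option autoImplicit false

open MeasureTheory Pool.TFD
open scoped Quaternion BigOperators ENNReal

namespace TauSG

open TauQ (RR GG castR redM)
open TauO

lemma COV_ndvd {p q : ℕ} (hp : p.Prime) (hq : q.Prime) (hpq : p ≠ q) (j : ℕ) :
    ¬ (p : ℤ) ∣ (pst q) ^ j := by
  intro h1
  have hp' : Prime (p : ℤ) := Nat.prime_iff_prime_int.1 hp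
  have h2 := hp'.dvd_of_dvd_pow h1
  have h3 : (p : ℤ) ∣ (q : ℤ) := by
    have h4 : pst q = (q : ℤ) ∨ pst q = -(q : ℤ) := by
      unfold pst eps
      split_ifs
      · left; ring
      · right; ring
    rcases h4 with h4 | h4
    · rwa [h4] at h2
    · rw [h4] at h2
      exact (dvd_neg).1 h2
  have h5 : p ∣ q := by exact_mod_cast h3
  exact hpq ((Nat.prime_dvd_prime_iff_eq hp hq).1 h5)

theorem COV_thm (hC : S_COV1) (hI : S_INT) : S_COV := by
  intro p q _ _ hp2 hq2 hpq h x y hxy x' y' hxy' u v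
  have hp : p.Prime := Fact.out
  have hq : q.Prime := Fact.out
  obtain ⟨γ1, -, a1, ha1, hu⟩ := hC p q p hp hq hp2 hq2 hpq (Or.inl rfl) h x y hxy u
  obtain ⟨γ2, ⟨j, β, hβ⟩, b2, hb2, hv⟩ := hC p q q hp hq hp2 hq2 hpq (Or.inr rfl) h x' y' hxy'
    (v * (emb p q q h hxy' (γ1 : GG p q))⁻¹)
  have h1 : emb p q p h hxy (γ2 : GG p q) ∈ KK p :=
    hI p q p h x y hxy (γ2 : GG p q) _ β (COV_ndvd hp hq hpq j) hβ
  refine ⟨a1 * (emb p q p h hxy (γ2 : GG p q))⁻¹, (KK p).mul_mem ha1 ((KK p).inv_mem h1), b2, hb2,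
    γ2 * γ1, ?_, ?_⟩
  · rw [hu, Subgroup.coe_mul, map_mul]
    group
  · rw [Subgroup.coe_mul, map_mul, ← mul_assoc, ← hv]
    group

end TauSG
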