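import Mathlib
import Pool.Agent.Work.MP_972ac7_sg.Interface
import Pool.Agent.Work.MP_972ac7_od.HT

/-! # MP_972ac7_al, block COV1: transitivity on the vertices of one tree (helper50) -/

set_option autoImplicit false

open MeasureTheory Pool.TFD
open scoped Quaternion BigOperators ENNReal

namespace TauSG

open TauQ (RR GG castR redM)
open TauO

/-- factorization into letters -/
lemma COV1_fac (hE : TauO.Stmt_exists) {l : ℕ} (hl : l.Prime) (hl2 : l ≠ 2) :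
    ∀ (n : ℕ) (α : ℍ[ℤ]) (t : ℤ), ¬ (l : ℤ) ∣ t → Quaternion.normSq α = (l : ℤ) ^ n * t →
    ∃ (e : ℕ) (w : List (SS l)) (γ : ℍ[ℤ]), n = 2 * e + w.length ∧
      α = (((l : ℤ) ^ e : ℤ) : ℍ[ℤ]) * ((w.map SS.val).prod * γ) := by
  intro n
  induction n using Nat.strong_induction_on with
  | _ n ih =>
  intro α t ht hα
  rcases Nat.eq_zero_or_pos n with h0 | hpos
  · subst h0
    exact ⟨0, [], α, by simp, by simp⟩
  have hl0 : (l : ℤ) ≠ 0 := by exact_mod_cast hl.ne_zero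
  by_cases hd : ∃ γ : ℍ[ℤ], α = (l : ℍ[ℤ]) * γ
  · obtain ⟨γ, hγ⟩ := hd
    have hN : Quaternion.normSq α = (l:ℤ)^2 * Quaternion.normSq γ := by
      rw [hγ, map_mul, Quaternion.normSq_natCast]
    have hn2 : 2 ≤ n := by
      by_contra hcon
      have hn1 : n = 1 := by omega
      subst hn1
      apply ht
      rw [hN] at hα
      refine ⟨Quaternion.normSq γ, ?_⟩
      apply mul_left_cancel₀ hl0
      linear_combination -hα
    obtain ⟨m, rfl⟩ : ∃ m, n = m + 2 := ⟨n - 2, by omega⟩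
    obtain ⟨e, w, δ, h1, h2⟩ := ih m (by omega) γ t ht (by
      apply mul_left_cancel₀ (pow_ne_zero 2 hl0)
      rw [← hN, hα]; ring)
    refine ⟨e + 1, w, δ, by omega, ?_⟩
    rw [hγ, pow_succ', Int.cast_mul, Int.cast_natCast, mul_assoc, ← h2]
  · push Not at hd
    obtain ⟨β, γ, hγ⟩ := hE l hl hl2 α hd (by
      rw [hα]; exact Dvd.dvd.mul_right (dvd_pow_self _ (by omega)) _)
    obtain ⟨m, rfl⟩ : ∃ m, n = m + 1 := ⟨n - 1, by omega⟩
    obtain ⟨e, w, δ, h1, h2⟩ := ih m (by omega) γ t ht (by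
      apply mul_left_cancel₀ hl0
      rw [hγ, map_mul, β.norm] at hα
      rw [hα]; ring)
    refine ⟨e, β :: w, δ, by simp only [List.length_cons]; omega, ?_⟩
    rw [List.map_cons, List.prod_cons, mul_assoc, ← mul_assoc _ β.val,
      (Int.cast_commute _ β.val).eq, mul_assoc, ← h2]
    exact hγ

lemma COV1_prod_mem {l : ℕ} : ∀ (j : ℕ) (w : List (SS l)), w.length = 2 * j →
    (w.map SS.val).prod ∈ TauQ.OO := by
  intro j
  induction j with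
  | zero =>
    intro w hw
    have : w = [] := List.length_eq_zero_iff.1 (by omega)
    subst this
    simpa using TauQ.OO.one_mem
  | succ j ih =>
    intro w hw
    match w, hw with
    | [], hw => simp at hw
    | [a], hw => simp at hw; omega
    | a :: b :: w, hw =>
      simp only [List.map_cons, List.prod_cons]
      rw [← mul_assoc]
      exact TauQ.OO.mul_mem (SS.mul_old a b) (ih w (by simp only [List.length_cons] at hw; omega))

lemma COV1_norm {l : ℕ} (w : List (SS l)) :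
    Quaternion.normSq (w.map SS.val).prod = (l : ℤ) ^ w.length := by
  induction w with
  | nil => simp
  | cons a w ih =>
    rw [List.map_cons, List.prod_cons, map_mul, ih, a.norm, List.length_cons, pow_succ']

/-- the element of the group attached to an even product of letters -/
lemma COV1_elt {p q l : ℕ} (hlpq : l = p ∨ l = q) (j : ℕ) (β : ℍ[ℤ]) (hβ : β ∈ TauQ.OO)
    (hN : Quaternion.normSq β = (l : ℤ) ^ (2 * j)) :
    ∃ γ : G1 p q, (((pst l) ^ j : ℤ) : ℍ[RR p q]) * ((γ : GG p q) : ℍ[RR p q]) =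
      castR p q β := by
  rcases hlpq with rfl | rfl
  · obtain ⟨γ, hγ⟩ := TauO.hat_mk (p := l) (q := q) β j 0 hβ (by
      rw [TauQ.hat_N, hN]; push_cast; ring)
    refine ⟨γ, ?_⟩
    rw [← hγ, den, pow_zero, mul_one]
  · obtain ⟨γ, hγ⟩ := TauO.hat_mk (p := p) (q := l) β 0 j hβ (by
      rw [TauQ.hat_N, hN]; push_cast; ring)
    refine ⟨γ, ?_⟩
    rw [← hγ, den, pow_zero, one_mul]

lemma COV1_surj {R : Type} [CommRing R] {x y t : R} (h : x ^ 2 + y ^ 2 = -1) (ht : 2 * t = 1)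
    (m : Matrix (Fin 2) (Fin 2) R) : ∃ ξ : ℍ[R], matQ x y ξ = m := by
  refine ⟨TauQ.mk4 (t * (m 0 0 + m 1 1))
    (-(t * (m 0 0 - m 1 1) * x + t * (m 0 1 + m 1 0) * y)) (t * (m 0 1 - m 1 0))
    (t * (m 0 0 - m 1 1) * y - t * (m 0 1 + m 1 0) * x), ?_⟩
  ext i j
  fin_cases i <;> fin_cases j <;> simp [matQ]
  · linear_combination (-(t * (m 0 0 - m 1 1))) * h + m 0 0 * ht
  · linear_combination (-(t * (m 0 1 + m 1 0))) * h + m 0 1 * ht
  · linear_combination (-(t * (m 0 1 + m 1 0))) * h + m 1 0 * ht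
  · linear_combination (t * (m 0 0 - m 1 1)) * h + m 1 1 * ht

lemma COV1_app {l : ℕ} [Fact l.Prime] (n : ℕ) (z : ℤ_[l]) :
    ∃ (a : ℤ) (w : ℤ_[l]), z = (a : ℤ_[l]) + (l : ℤ_[l]) ^ n * w := by
  have h := PadicInt.appr_spec n z
  rw [Ideal.mem_span_singleton] at h
  obtain ⟨w, hw⟩ := h
  exact ⟨(z.appr n : ℤ), w, by push_cast; rw [← hw]; ring⟩

/-- approximation of quaternions -/
lemma COV1_appQ {l : ℕ} [Fact l.Prime] (n : ℕ) (ξ : ℍ[ℤ_[l]]) :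
    ∃ (α : ℍ[ℤ]) (η : ℍ[ℤ_[l]]),
      ξ = TauQ.qmap (Int.castRingHom ℤ_[l]) α + (((l : ℤ) ^ n : ℤ) : ℍ[ℤ_[l]]) * η := by
  obtain ⟨a0, w0, h0⟩ := COV1_app n ξ.re
  obtain ⟨a1, w1, h1⟩ := COV1_app n ξ.imI
  obtain ⟨a2, w2, h2⟩ := COV1_app n ξ.imJ
  obtain ⟨a3, w3, h3⟩ := COV1_app n ξ.imK
  refine ⟨TauQ.mk4 a0 a1 a2 a3, TauQ.mk4 w0 w1 w2 w3, ?_⟩
  have hc : (((l : ℤ) ^ n : ℤ) : ℍ[ℤ_[l]]) * TauQ.mk4 w0 w1 w2 w3 =
      ((l : ℤ_[l]) ^ n) • TauQ.mk4 w0 w1 w2 w3 := by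
    have : (((l : ℤ) ^ n : ℤ) : ℍ[ℤ_[l]]) = (((l : ℤ_[l]) ^ n : ℤ_[l]) : ℍ[ℤ_[l]]) := by
      push_cast; rfl
    rw [this, Quaternion.coe_mul_eq_smul]
  rw [hc]
  ext
  · simpa using h0
  · simpa using h1
  · simpa using h2
  · simpa using h3

lemma COV1_matQ_int {R : Type} [CommRing R] (x y : R) (n : ℤ) (z : ℍ[R]) :
    matQ x y (((n : ℤ) : ℍ[R]) * z) = ((n : ℤ) : R) • matQ x y z := by
  have : ((n : ℤ) : ℍ[R]) = ((n : R) : ℍ[R]) := by norm_cast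
  rw [this, Quaternion.coe_mul_eq_smul]
  ext i j
  fin_cases i <;> fin_cases j <;> simp [matQ] <;> ring

/-- clearing denominators -/
lemma COV1_clear1 {l : ℕ} [Fact l.Prime] (z : ℚ_[l]) :
    ∃ a : ℕ, ∀ b, a ≤ b → ∃ w : ℤ_[l], (w : ℚ_[l]) = (l : ℚ_[l]) ^ b * z := by
  have hl : l.Prime := Fact.out
  have hl1 : (1 : ℝ) < l := by exact_mod_cast hl.one_lt
  obtain ⟨a, ha⟩ := pow_unbounded_of_one_lt ‖z‖ hl1
  refine ⟨a, fun b hb => ?_⟩
  have h1 : ‖(l : ℚ_[l]) ^ b * z‖ ≤ 1 := by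
    rw [norm_mul, norm_pow, Padic.norm_p, inv_pow, inv_mul_le_iff₀ (by positivity), mul_one]
    exact ha.le.trans (pow_le_pow_right₀ hl1.le hb)
  exact ⟨⟨_, h1⟩, rfl⟩

lemma COV1_clear {l : ℕ} [Fact l.Prime] (m : Matrix (Fin 2) (Fin 2) ℚ_[l]) :
    ∃ (a : ℕ) (X : Matrix (Fin 2) (Fin 2) ℤ_[l]),
      X.map (algebraMap ℤ_[l] ℚ_[l]) = ((l : ℚ_[l]) ^ a) • m := by
  choose a ha using fun i j => COV1_clear1 (m i j)
  have hle : ∀ i j, a i j ≤ ∑ i, ∑ j, a i j := by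
    intro i j
    exact (Finset.single_le_sum (f := fun j => a i j) (fun _ _ => Nat.zero_le _)
      (Finset.mem_univ j)).trans (Finset.single_le_sum (f := fun i => ∑ j, a i j)
      (fun _ _ => Nat.zero_le _) (Finset.mem_univ i))
  choose X hX using fun i j => ha i j _ (hle i j)
  refine ⟨∑ i, ∑ j, a i j, Matrix.of X, ?_⟩
  ext i j
  exact hX i j

theorem COV1_thm (hE : TauO.Stmt_exists) : S_COV1 := by
  intro p q l _ hp hq hp2 hq2 hpq hlpq h x y hxy g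
  have hl : l.Prime := Fact.out
  have hl2 : l ≠ 2 := by rcases hlpq with rfl | rfl <;> assumption
  have hlQ : (l : ℚ_[l]) ≠ 0 := by exact_mod_cast hl.ne_zero
  have hlZ : (l : ℤ) ≠ 0 := by exact_mod_cast hl.ne_zero
  have hinj : Function.Injective (algebraMap ℤ_[l] ℚ_[l]) := IsFractionRing.injective ℤ_[l] ℚ_[l]
  -- 2 is a unit
  obtain ⟨t, ht⟩ : ∃ t : ℤ_[l], 2 * t = 1 := by
    have hd1 : IsUnit (((2 : ℤ) : ℤ_[l])) := by
      rw [PadicInt.isUnit_iff]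
      refine le_antisymm (PadicInt.norm_le_one _) ?_
      by_contra hcon
      push Not at hcon
      have h1 := (PadicInt.norm_int_lt_one_iff_dvd 2).1 hcon
      have h2 : l ∣ 2 := by exact_mod_cast h1
      exact hl2 ((Nat.prime_dvd_prime_iff_eq hl Nat.prime_two).1 h2)
    obtain ⟨u, hu⟩ := hd1.exists_right_inv
    exact ⟨u, by simpa using hu⟩
  -- clear denominators
  obtain ⟨a, X, hX⟩ := COV1_clear ((g⁻¹ : Matrix.SpecialLinearGroup (Fin 2) ℚ_[l]) :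
    Matrix (Fin 2) (Fin 2) ℚ_[l])
  have hdet : X.det = (l : ℤ_[l]) ^ (2 * a) := by
    apply hinj
    have h1 : (algebraMap ℤ_[l] ℚ_[l]) X.det = (X.map (algebraMap ℤ_[l] ℚ_[l])).det :=
      RingHom.map_det _ _
    rw [h1, hX, Matrix.det_smul, Matrix.SpecialLinearGroup.det_coe]
    simp
    ring
  obtain ⟨ξ, hξ⟩ := COV1_surj hxy ht X
  obtain ⟨α, η, hα⟩ := COV1_appQ (2 * a + 1) ξ
  -- the norm of α
  obtain ⟨s, hs, hN⟩ : ∃ s : ℤ, ¬ (l : ℤ) ∣ s ∧ Quaternion.normSq α = (l : ℤ) ^ (2 * a) * s := by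
    have h1 : Quaternion.normSq ξ = (l : ℤ_[l]) ^ (2 * a) := by
      rw [← hdet, ← hξ, matQ_det hxy]
    have h2 : (l : ℤ_[l]) ^ (2 * a + 1) ∣ ((Quaternion.normSq α - (l : ℤ) ^ (2 * a) : ℤ) : ℤ_[l]) := by
      push_cast
      rw [← h1]
      have h3 : ((Quaternion.normSq α : ℤ) : ℤ_[l]) =
          Quaternion.normSq (TauQ.qmap (Int.castRingHom ℤ_[l]) α) := by
        rw [TauQ.normSq_qmap]; rfl
      have h4 : (((l : ℤ) ^ (2 * a + 1) : ℤ) : ℍ[ℤ_[l]]) * η = ((l : ℤ_[l]) ^ (2 * a + 1)) • η := by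
        have : (((l : ℤ) ^ (2 * a + 1) : ℤ) : ℍ[ℤ_[l]]) =
            (((l : ℤ_[l]) ^ (2 * a + 1) : ℤ_[l]) : ℍ[ℤ_[l]]) := by
          push_cast; rfl
        rw [this, Quaternion.coe_mul_eq_smul]
      rw [h3, hα, h4]
      obtain ⟨A, hA⟩ : ∃ A, A = TauQ.qmap (Int.castRingHom ℤ_[l]) α := ⟨_, rfl⟩
      rw [← hA]
      refine ⟨-(2 * (A.re * η.re + A.imI * η.imI + A.imJ * η.imJ + A.imK * η.imK) +
        (l : ℤ_[l]) ^ (2 * a + 1) * Quaternion.normSq η), ?_⟩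
      simp only [Quaternion.normSq_def', Quaternion.re_add, Quaternion.imI_add,
        Quaternion.imJ_add, Quaternion.imK_add, Quaternion.re_smul, Quaternion.imI_smul,
        Quaternion.imJ_smul, Quaternion.imK_smul, smul_eq_mul]
      ring
    rw [PadicInt.pow_p_dvd_int_iff] at h2
    obtain ⟨k, hk⟩ := h2
    refine ⟨1 + l * k, ?_, by linear_combination hk⟩
    intro hd
    have h5 : (l : ℤ) ∣ 1 := by
      have := (Int.dvd_add_right (Dvd.intro k rfl : (l : ℤ) ∣ l * k)).1 (by rwa [add_comm] at hd)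
      exact this
    have h6 : l ∣ 1 := by exact_mod_cast h5
    exact hl.one_lt.ne' (Nat.dvd_one.1 h6)
  obtain ⟨e, w, γ', h1, h2⟩ := COV1_fac hE hl hl2 (2 * a) α s hs hN
  obtain ⟨j, hj⟩ : ∃ j, w.length = 2 * j := ⟨a - e, by omega⟩
  have hej : e + j = a := by omega
  obtain ⟨β, hβ⟩ : ∃ β, β = (w.map SS.val).prod := ⟨_, rfl⟩
  rw [← hβ] at h2
  have hβ1 : β ∈ TauQ.OO := by rw [hβ]; exact COV1_prod_mem j w hj
  have hβ2 : Quaternion.normSq β = (l : ℤ) ^ (2 * j) := by rw [hβ, COV1_norm, hj]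
  obtain ⟨γ1, hγ1⟩ := COV1_elt (p := p) (q := q) hlpq j β hβ1 hβ2
  have hγs : (((pst l) ^ j : ℤ) : ℍ[RR p q]) * (((γ1⁻¹ : G1 p q) : GG p q) : ℍ[RR p q]) =
      castR p q (star β) := by
    have hx : (((γ1⁻¹ : G1 p q) : GG p q) : ℍ[RR p q]) = star ((γ1 : GG p q) : ℍ[RR p q]) := rfl
    rw [hx, castR, TauQ.qmap_star, ← castR, ← hγ1, star_mul, star_intCast]
    exact (Int.cast_commute _ _).eq
  refine ⟨γ1⁻¹, ⟨j, star β, hγs⟩, g * emb p q l h hxy (γ1 : GG p q), ?_, ?_⟩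
  swap
  · rw [Subgroup.coe_inv, map_inv]; group
  -- the integral quaternion
  obtain ⟨E, hE1⟩ : ∃ E : ℤ, E = (eps l) ^ j := ⟨_, rfl⟩
  have hE2 : E * E = 1 := by rw [hE1, ← mul_pow, eps_sq, one_pow]
  obtain ⟨B, hB⟩ : ∃ B, B = TauQ.qmap (Int.castRingHom ℤ_[l]) β := ⟨_, rfl⟩
  obtain ⟨Bs, hBs⟩ : ∃ Bs, Bs = TauQ.qmap (Int.castRingHom ℤ_[l]) (star β) := ⟨_, rfl⟩
  obtain ⟨G, hG⟩ : ∃ G, G = TauQ.qmap (Int.castRingHom ℤ_[l]) γ' := ⟨_, rfl⟩
  have hBB : Bs * B = (((l : ℤ) ^ (2 * j) : ℤ) : ℍ[ℤ_[l]]) := by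
    rw [hBs, hB, ← map_mul, Quaternion.star_mul_self, hβ2]
    have : (((l : ℤ) ^ (2 * j) : ℤ) : ℍ[ℤ]) = (((((l : ℤ) ^ (2 * j) : ℤ)) : ℤ) : ℍ[ℤ]) := rfl
    exact map_intCast _ _
  obtain ⟨ζ, hζ⟩ : ∃ ζ : ℍ[ℤ_[l]], ζ = E • (G + ((l : ℤ) ^ (a + 1 - j)) • (Bs * η)) := ⟨_, rfl⟩
  have key : Bs * ξ = ((E * (l : ℤ) ^ (a + j) : ℤ) : ℍ[ℤ_[l]]) * ζ := by
    have hA : TauQ.qmap (Int.castRingHom ℤ_[l]) α = ((l : ℤ) ^ e) • (B * G) := by
      rw [h2, map_mul, map_mul, map_intCast, ← hB, ← hG, zsmul_eq_mul]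
    rw [hα, hA, ← zsmul_eq_mul, ← zsmul_eq_mul, hζ, mul_add, mul_smul_comm, mul_smul_comm,
      ← mul_assoc, hBB, ← zsmul_eq_mul, smul_smul, smul_smul, smul_add, smul_smul]
    congr 1
    · congr 1
      calc (l : ℤ) ^ e * (l : ℤ) ^ (2 * j) = (E * E) * (l : ℤ) ^ (a + j) := by
            rw [hE2, one_mul, ← pow_add]; congr 1; omega
        _ = E * (l : ℤ) ^ (a + j) * E := by ring
    · congr 1
      calc (l : ℤ) ^ (2 * a + 1) = (E * E) * ((l : ℤ) ^ (a + j) * (l : ℤ) ^ (a + 1 - j)) := by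
            rw [hE2, one_mul, ← pow_add]; congr 1; omega
        _ = E * (l : ℤ) ^ (a + j) * E * (l : ℤ) ^ (a + 1 - j) := by ring
  -- the matrix identity
  have hBsQ : TauQ.qmap (algebraMap ℤ_[l] ℚ_[l]) Bs =
      (((pst l) ^ j : ℤ) : ℍ[ℚ_[l]]) *
        TauQ.qmap (toQ p q l h) (((γ1⁻¹ : G1 p q) : GG p q) : ℍ[RR p q]) := by
    have h3 := congrArg (TauQ.qmap (toQ p q l h)) hγs
    rw [map_mul, map_intCast] at h3
    rw [h3, hBs]
    ext <;> simp [castR]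
  have hmain : (matQ x y ζ).map (algebraMap ℤ_[l] ℚ_[l]) =
      (((emb p q l h hxy (γ1⁻¹ : G1 p q) * g⁻¹ : Matrix.SpecialLinearGroup (Fin 2) ℚ_[l])) :
        Matrix (Fin 2) (Fin 2) ℚ_[l]) := by
    have hne : ((E : ℚ_[l]) * (l : ℚ_[l]) ^ (a + j)) ≠ 0 := by
      refine mul_ne_zero ?_ (pow_ne_zero _ hlQ)
      intro h0
      have : (E : ℚ_[l]) * E = 1 := by exact_mod_cast congrArg (Int.cast (R := ℚ_[l])) hE2
      rw [h0, zero_mul] at this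
      exact zero_ne_one this
    have hl1 : (matQ x y (Bs * ξ)).map (algebraMap ℤ_[l] ℚ_[l]) =
        ((E : ℚ_[l]) * (l : ℚ_[l]) ^ (a + j)) • (matQ x y ζ).map (algebraMap ℤ_[l] ℚ_[l]) := by
      rw [key, COV1_matQ_int]
      ext i j'
      simp
    have hr1 : (matQ x y (Bs * ξ)).map (algebraMap ℤ_[l] ℚ_[l]) =
        ((E : ℚ_[l]) * (l : ℚ_[l]) ^ (a + j)) •
        ((((emb p q l h hxy (γ1⁻¹ : G1 p q) * g⁻¹ : Matrix.SpecialLinearGroup (Fin 2) ℚ_[l])) :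
        Matrix (Fin 2) (Fin 2) ℚ_[l])) := by
      rw [matQ_mul hxy, hξ, Matrix.map_mul, hX]
      have h4 : (matQ x y Bs).map (algebraMap ℤ_[l] ℚ_[l]) =
          matQ (x : ℚ_[l]) (y : ℚ_[l]) (TauQ.qmap (algebraMap ℤ_[l] ℚ_[l]) Bs) := by
        ext i j
        fin_cases i <;> fin_cases j <;> simp [matQ]
      rw [h4, hBsQ, COV1_matQ_int, Matrix.mul_smul, Matrix.smul_mul, smul_smul,
        Matrix.SpecialLinearGroup.coe_mul]
      congr 1
      rw [hE1, pst, Int.cast_pow, Int.cast_mul, Int.cast_natCast, Int.cast_pow]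
      ring
    have := hl1.symm.trans hr1
    exact smul_right_injective _ hne this
  have hdet1 : (matQ x y ζ).det = 1 := by
    apply hinj
    rw [RingHom.map_det, map_one]
    change ((matQ x y ζ).map (algebraMap ℤ_[l] ℚ_[l])).det = 1
    rw [hmain, Matrix.SpecialLinearGroup.det_coe]
  have hmem : emb p q l h hxy (γ1⁻¹ : G1 p q) * g⁻¹ ∈ KK l :=
    ⟨⟨matQ x y ζ, hdet1⟩, Subtype.ext hmain⟩
  have hmem2 := (KK l).inv_mem hmem
  rw [mul_inv_rev, inv_inv, ← map_inv, ← Subgroup.coe_inv, inv_inv] at hmem2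
  exact hmem2

end TauSG
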