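import Mathlib
import Pool.Agent.Work.MP_972ac7_sg.Interface
import Pool.Agent.Work.MP_972ac7_sg.AVG

/-! # Block CVG: convergence of the averages over the levels (helper14) -/

open MeasureTheory
open scoped BigOperators ENNReal

namespace TauSG

/-- uniform continuity on a compact subgroup -/
theorem CVG_unif {G : Type} [Group G] [TopologicalSpace G] [IsTopologicalGroup G] (K : Set G)
    (hK : IsCompact K) (h : G → ℂ) (hh : Continuous h) (η : ℝ) (hη : 0 < η) :
    ∃ V ∈ nhds (1 : G), ∀ g ∈ K, ∀ v ∈ V, ‖h (g * v) - h g‖ < η := by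
  have ho : IsOpen {p : G × G | ‖h (p.1 * p.2) - h p.1‖ < η} := by
    apply isOpen_lt
    · exact ((hh.comp (continuous_fst.mul continuous_snd)).sub (hh.comp continuous_fst)).norm
    · exact continuous_const
  have hsub : K ×ˢ ({1} : Set G) ⊆ {p : G × G | ‖h (p.1 * p.2) - h p.1‖ < η} := by
    rintro ⟨a, b⟩ ⟨-, hb⟩
    have hb' : b = 1 := hb
    show ‖h (a * b) - h a‖ < η
    rw [hb', mul_one, sub_self, norm_zero]
    exact hη
  obtain ⟨u, v, -, hv, hu1, hv1, huv⟩ := generalized_tube_lemma hK isCompact_singleton ho hsub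
  refine ⟨v, hv.mem_nhds (hv1 rfl), ?_⟩
  intro g hg w hw
  exact huv (Set.mk_mem_prod (hu1 hg) hw)

theorem CVG_two (a b c : ℂ) : ‖a - c‖ ^ 2 ≤ 2 * ‖a - b‖ ^ 2 + 2 * ‖b - c‖ ^ 2 := by
  have h : ‖a - c‖ ≤ ‖a - b‖ + ‖b - c‖ := by
    have e : a - c = (a - b) + (b - c) := by ring
    rw [e]
    exact norm_add_le _ _
  have h0 := norm_nonneg (a - c)
  nlinarith [sq_nonneg (‖a - b‖ - ‖b - c‖)]

theorem CVG_thm : S_CVG := by
  intro G _ _ _ _ _ _ _ _ K L μ hKc hKo hμ h1 f hf ε hε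
  have hKm : MeasurableSet (K : Set G) := hKo.measurableSet
  have hfin : IsFiniteMeasure (μ.restrict (K : Set G)) :=
    ⟨by rw [Measure.restrict_apply_univ, h1]; exact ENNReal.one_lt_top⟩
  -- a continuous approximation
  have hf' : MemLp f (ENNReal.ofReal 2) (μ.restrict (K : Set G)) := by
    have e : ENNReal.ofReal 2 = 2 := by norm_num
    rw [e]
    exact hf
  obtain ⟨h, -, hint, hcont, hmem⟩ := hf'.exists_hasCompactSupport_integral_rpow_sub_le
    (by norm_num : (0 : ℝ) < 2) (show (0 : ℝ) < ε / 4 by positivity)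
  have hmem2 : MemLp h 2 (μ.restrict (K : Set G)) := by
    have e : ENNReal.ofReal 2 = 2 := by norm_num
    rw [e] at hmem
    exact hmem
  have hint2 : ∫ g in (K : Set G), ‖f g - h g‖ ^ 2 ∂μ ≤ ε / 4 := by
    refine le_trans (le_of_eq ?_) hint
    refine integral_congr_ae (Filter.Eventually.of_forall fun g => ?_)
    exact (Real.rpow_two _).symm
  obtain ⟨η, hη, hη2⟩ : ∃ η : ℝ, 0 < η ∧ η ^ 2 ≤ ε / 4 := by
    refine ⟨√(ε / 4), Real.sqrt_pos.2 (by positivity), ?_⟩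
    rw [Real.sq_sqrt (by positivity)]
  obtain ⟨V, hV, hVh⟩ := CVG_unif (K : Set G) hKc h hcont η hη
  obtain ⟨R, hR⟩ := L.basis V hV
  refine ⟨R, ?_⟩
  obtain ⟨N, hN⟩ : ∃ N : ℝ, N = Fintype.card (L.Q R) := ⟨_, rfl⟩
  have hN0 : 0 < N := by rw [hN]; exact AVG_card_pos L R
  rw [← hN]
  have hd : MemLp (fun g => f g - h g) 2 (μ.restrict (K : Set G)) := hf.sub hmem2
  have hdi : IntegrableOn (fun g => ‖f g - h g‖ ^ 2) (K : Set G) μ :=
    hd.integrable_norm_pow (by norm_num)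
  have hfi2 : IntegrableOn (fun g => ‖f g‖ ^ 2) (K : Set G) μ :=
    hf.integrable_norm_pow (by norm_num)
  -- one fibre
  have hx : ∀ x, N * ∫ g in AVG_F L R x, ‖f g‖ ^ 2 ∂μ - ‖L.avg μ f R x‖ ^ 2 ≤
      N * (2 * ∫ g in AVG_F L R x, ‖f g - h g‖ ^ 2 ∂μ) + ε / 2 := by
    intro x
    have hle : μ.restrict (AVG_F L R x) ≤ μ.restrict (K : Set G) :=
      Measure.restrict_mono (AVG_sub L R x) le_rfl
    have hfinx : IsFiniteMeasure (μ.restrict (AVG_F L R x)) := isFiniteMeasure_of_le _ hle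
    obtain ⟨k, hk⟩ := L.surj R x
    have hm : 0 < μ.real (AVG_F L R x) := AVG_real_pos L μ h1 R x
    have hNm : N * μ.real (AVG_F L R x) = 1 := by rw [hN]; exact AVG_card_real L μ h1 R x
    have h2 := AVG_low (μ.restrict (AVG_F L R x)) f (hf.mono_measure hle) (h k) (by
      rw [measureReal_restrict_apply_univ]; exact hm)
    rw [measureReal_restrict_apply_univ] at h2
    have hdx : IntegrableOn (fun g => ‖f g - h g‖ ^ 2) (AVG_F L R x) μ :=
      hdi.mono_set (AVG_sub L R x)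
    have h3 : ∫ g in AVG_F L R x, ‖f g - h k‖ ^ 2 ∂μ ≤
        2 * ∫ g in AVG_F L R x, ‖f g - h g‖ ^ 2 ∂μ + μ.real (AVG_F L R x) * (ε / 2) := by
      have e1 : ∫ g in AVG_F L R x, (2 * ‖f g - h g‖ ^ 2 + ε / 2) ∂μ =
          2 * ∫ g in AVG_F L R x, ‖f g - h g‖ ^ 2 ∂μ + μ.real (AVG_F L R x) * (ε / 2) := by
        rw [integral_add (hdx.const_mul 2) (integrable_const _), integral_const_mul,
          integral_const, measureReal_restrict_apply_univ, smul_eq_mul]
      rw [← e1]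
      have hfk : MemLp (fun g => f g - h k) 2 (μ.restrict (AVG_F L R x)) :=
        (hf.mono_measure hle).sub (memLp_const _)
      refine setIntegral_mono_on (hfk.integrable_norm_pow (by norm_num))
        ((hdx.const_mul 2).add (integrable_const _)) (AVG_ms L R x) ?_
      intro g hg
      obtain ⟨hgK, hgx⟩ := (AVG_mem L R x g).1 hg
      have hv : ((k : G)⁻¹ * g) ∈ V := by
        have h5 := hR (k⁻¹ * ⟨g, hgK⟩) (by rw [map_mul, map_inv, hgx, hk, inv_mul_cancel])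
        exact h5
      have h6 := hVh k k.2 _ hv
      rw [mul_inv_cancel_left] at h6
      have h7 : ‖h g - h k‖ ^ 2 ≤ ε / 4 :=
        le_trans (pow_le_pow_left₀ (norm_nonneg _) h6.le 2) hη2
      have h8 := CVG_two (f g) (h g) (h k)
      show ‖f g - h k‖ ^ 2 ≤ 2 * ‖f g - h g‖ ^ 2 + ε / 2
      linarith
    have h4 : ‖L.avg μ f R x‖ ^ 2 = N * (‖∫ g in AVG_F L R x, f g ∂μ‖ ^ 2 /
        μ.real (AVG_F L R x)) := by
      have e0 : L.avg μ f R x = (Fintype.card (L.Q R) : ℂ) * ∫ g in AVG_F L R x, f g ∂μ := rfl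
      have e3 : ‖(Fintype.card (L.Q R) : ℂ)‖ = N := by
        rw [hN, Complex.norm_natCast]
      have e4 : N = 1 / μ.real (AVG_F L R x) := by
        rw [eq_div_iff hm.ne']
        exact hNm
      rw [e0, norm_mul, mul_pow, e3]
      have e5 : N ^ 2 = N * (1 / μ.real (AVG_F L R x)) := by
        rw [← e4]; ring
      rw [e5]
      ring
    have h9 := mul_le_mul_of_nonneg_left (h2.trans h3) hN0.le
    have h10 : N * (2 * ∫ g in AVG_F L R x, ‖f g - h g‖ ^ 2 ∂μ +
        μ.real (AVG_F L R x) * (ε / 2)) =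
        N * (2 * ∫ g in AVG_F L R x, ‖f g - h g‖ ^ 2 ∂μ) + (N * μ.real (AVG_F L R x)) * (ε / 2) := by
      ring
    rw [h10, hNm, one_mul, mul_sub, ← h4] at h9
    exact h9
  have hsum := Finset.sum_le_sum fun x (_ : x ∈ Finset.univ) => hx x
  rw [Finset.sum_sub_distrib, Finset.sum_add_distrib, ← Finset.mul_sum, ← Finset.mul_sum,
    ← Finset.mul_sum, AVG_sum L μ ℝ R _ hfi2, AVG_sum L μ ℝ R _ hdi, Finset.sum_const,
    Finset.card_univ, nsmul_eq_mul, ← hN] at hsum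
  have h11 : N * (2 * ∫ g in (K : Set G), ‖f g - h g‖ ^ 2 ∂μ) ≤ N * (2 * (ε / 4)) :=
    mul_le_mul_of_nonneg_left (by linarith) hN0.le
  have h12 : N * (∫ g in (K : Set G), ‖f g‖ ^ 2 ∂μ - ε) =
      N * ∫ g in (K : Set G), ‖f g‖ ^ 2 ∂μ - N * ε := by ring
  rw [h12]
  have h13 : N * (2 * (ε / 4)) + N * (ε / 2) = N * ε := by ring
  linarith

end TauSG
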