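import Mathlib
import Pool.Agent.Work.MP_972ac7_sg.Interface

set_option autoImplicit false

/-! Block DISC (helper87). -/

namespace TauSG

theorem DISC_thm : S_DISC := by
  intro GA GB Λ _ _ _ _ _ _ _ T
  refine ⟨?_, ?_⟩
  · apply discreteTopology_of_isOpen_singleton_one
    have h1 : IsOpen ((T.KA : Set GA) ×ˢ (T.KB : Set GB)) := T.openA.prod T.openB
    have h2 : ({1} : Set T.Γ) = (fun x : T.Γ => (x : GA × GB)) ⁻¹'
        ((T.KA : Set GA) ×ˢ (T.KB : Set GB)) := by
      ext x
      simp only [Set.mem_singleton_iff, Set.mem_preimage, Set.mem_prod, SetLike.mem_coe]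
      constructor
      · rintro rfl
        exact ⟨T.KA.one_mem, T.KB.one_mem⟩
      · rintro ⟨hA, hB⟩
        obtain ⟨x, hx⟩ := x
        obtain ⟨γ, rfl⟩ := hx
        have h3 : γ = 1 := T.triv γ hA hB
        subst h3
        apply Subtype.ext
        exact map_one (T.α.prod T.β)
    rw [h2]
    exact h1.preimage continuous_subtype_val
  · rw [injective_iff_map_eq_one]
    intro γ hγ
    have h1 : T.α γ = 1 := congrArg Prod.fst hγ
    have h2 : T.β γ = 1 := congrArg Prod.snd hγ
    refine T.triv γ ?_ ?_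
    · rw [h1]; exact T.KA.one_mem
    · rw [h2]; exact T.KB.one_mem

end TauSG
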