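import Mathlib
import Pool.Agent.Work.MP_972ac7_sg.Interface

/-!
# Assembly: the strong spectral gap of the quaternion lattices
-/

open MeasureTheory Pool.TFD
open scoped Quaternion BigOperators ENNReal

namespace TauSG

open TauQ (RR GG castR redM)
open TauO

/-- the transversal lattice -/
noncomputable def trPQ (hTOP : S_TOPL) (hCOV : S_COV) (hTRIV : S_TRIV) (p q : ℕ)
    [Fact p.Prime] [Fact q.Prime] (hp : p ≠ 2) (hq : q ≠ 2) (hpq : p ≠ q) (h : p * q ≠ 0)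
    {x y : ℤ_[p]} (hxy : IsSpl p x y) {x' y' : ℤ_[q]} (hxy' : IsSpl q x' y') :
    Trans (Matrix.SpecialLinearGroup (Fin 2) ℚ_[p]) (Matrix.SpecialLinearGroup (Fin 2) ℚ_[q])
      (G1 p q) where
  KA := KK p
  KB := KK q
  α := (emb p q p h hxy).comp (G1 p q).subtype
  β := (emb p q q h hxy').comp (G1 p q).subtype
  compA := (hTOP p).2.2.2.1
  openA := (hTOP p).2.2.2.2
  compB := (hTOP q).2.2.2.1
  openB := (hTOP q).2.2.2.2
  cover := fun u v => hCOV p q hp hq hpq h x y hxy x' y' hxy' u v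
  triv := fun γ h1 h2 => hTRIV p q hp hq hpq h x y hxy x' y' hxy' γ h1 h2

/-- a Haar measure giving mass one to a compact open subgroup -/
lemma exists_haar {G : Type} [Group G] [TopologicalSpace G] [IsTopologicalGroup G]
    [MeasurableSpace G] [BorelSpace G] (K : Subgroup G) (hc : IsCompact (K : Set G))
    (ho : IsOpen (K : Set G)) : ∃ μ : Measure G, μ.IsHaarMeasure ∧ μ (K : Set G) = 1 := by
  let K0 : TopologicalSpace.PositiveCompacts G :=
    ⟨⟨(K : Set G), hc⟩, by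
      change (interior (K : Set G)).Nonempty
      rw [ho.interior_eq]
      exact ⟨1, K.one_mem⟩⟩
  exact ⟨Measure.haarMeasure K0, inferInstance, Measure.haarMeasure_self⟩

theorem HSG_thm (hDISC : S_DISC) (hMEA : S_MEA) (hONE : S_ONE) (hSG : S_SG) (hTOP : S_TOPL)
    (hNOFD : S_NOFD) (hUNIM : S_UNIM) (hSPL : S_SPL) (hCOV : S_COV) (hTRIV : S_TRIV)
    (hSIDE : S_SIDE) : S_HSG := by
  intro p q ip iq hp hq hpq
  have h : p * q ≠ 0 := mul_ne_zero ip.out.ne_zero iq.out.ne_zero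
  obtain ⟨x, y, hxy⟩ := hSPL p hp
  obtain ⟨x', y', hxy'⟩ := hSPL q hq
  have i1 := (hTOP p).1
  have i2 := (hTOP p).2.1
  have i3 := (hTOP p).2.2.1
  have j1 := (hTOP q).1
  have j2 := (hTOP q).2.1
  have j3 := (hTOP q).2.2.1
  let T := trPQ hTOP hCOV hTRIV p q hp hq hpq h hxy hxy'
  obtain ⟨L, O, c, s, hs, hc, hidx, hgap⟩ := hSIDE p q p q ip.out iq.out hp hq hpq
    (Or.inl ⟨rfl, rfl⟩) h x y hxy
  obtain ⟨L', O', c', s', hs', hc', hidx', hgap'⟩ := hSIDE p q q p ip.out iq.out hp hq hpq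
    (Or.inr ⟨rfl, rfl⟩) h x' y' hxy'
  have h1 := hONE _ _ _ T L O (hNOFD p) hidx
  have h2 := hONE _ _ _ T.swap L' O' (hNOFD q) hidx'
  obtain ⟨μA, hA1, hA2⟩ := exists_haar (KK p) (hTOP p).2.2.2.1 (hTOP p).2.2.2.2
  obtain ⟨μB, hB1, hB2⟩ := exists_haar (KK q) (hTOP q).2.2.2.1 (hTOP q).2.2.2.2
  have hA3 := hUNIM p μA hA1
  have hB3 := hUNIM q μB hB1
  have hm := hMEA _ _ _ T μA μB hA1 hB1 hA3 hB3 hA2 hB2
  have hd := hDISC _ _ _ T
  refine ⟨T, T.meas μA μB, hd.2, hd.1, hm.1, hm.2, h1.2, h2.2, ?_⟩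
  exact hSG _ _ _ T L μA μB hA1 hB1 hA3 hB3 hA2 hB2 (SS q × SS q) s hs c hc (hgap h1.1)

end TauSG
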