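import Mathlib
import Pool.Agent.Work.MP_972ac7_sg.Interface

/-! # IDX: bounded index and gap at the levels `p^R` (helper96) -/

open MeasureTheory Pool.TFD
open scoped Quaternion BigOperators ENNReal

namespace TauSG

open TauQ (RR GG castR redM)
open TauO

theorem IDX_index {G : Type} [Group G] [Fintype G] (H : Subgroup G) (O : ℕ) (o : G → Fin O)
    (hoH : ∀ u ∈ H, ∀ x, o (u * x) = o x)
    (hgap : ∀ φ : G → ℂ, (∀ j, ∑ x, (if o x = j then φ x else 0) = 0) →
      (∀ u ∈ H, ∀ x, φ (u * x) = φ x) → φ = 0) : H.index ≤ O := by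
  classical
  have hinj : ∀ x y, o x = o y → x * y⁻¹ ∈ H := by
    intro x y hxy
    by_contra hcon
    have hsum : ∀ (w : G) (j : Fin O), ∑ z, (if o z = j then (if z * w⁻¹ ∈ H then (1 : ℂ) else 0) else 0) =
        if o w = j then ∑ z, (if z ∈ H then (1 : ℂ) else 0) else 0 := by
      intro w j
      have h1 : ∀ z, (if o z = j then (if z * w⁻¹ ∈ H then (1 : ℂ) else 0) else 0) =
          if o w = j then (if z * w⁻¹ ∈ H then (1 : ℂ) else 0) else 0 := by
        intro z
        by_cases hz : z * w⁻¹ ∈ H
        · have h2 := hoH _ hz w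
          rw [inv_mul_cancel_right] at h2
          rw [h2]
        · simp only [if_neg hz, ite_self]
      rw [Finset.sum_congr rfl fun z _ => h1 z]
      split_ifs with hw
      · exact Equiv.sum_comp (Equiv.mulRight w⁻¹) (fun z => if z ∈ H then (1 : ℂ) else 0)
      · exact Finset.sum_const_zero
    have h3 := hgap (fun z => (if z * x⁻¹ ∈ H then (1 : ℂ) else 0) -
      (if z * y⁻¹ ∈ H then (1 : ℂ) else 0)) (by
        intro j
        have h4 : ∀ z, (if o z = j then ((if z * x⁻¹ ∈ H then (1 : ℂ) else 0) -
            (if z * y⁻¹ ∈ H then (1 : ℂ) else 0)) else 0) =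
            (if o z = j then (if z * x⁻¹ ∈ H then (1 : ℂ) else 0) else 0) -
            (if o z = j then (if z * y⁻¹ ∈ H then (1 : ℂ) else 0) else 0) := by
          intro z
          split_ifs <;> simp
        rw [Finset.sum_congr rfl fun z _ => h4 z, Finset.sum_sub_distrib, hsum, hsum, hxy,
          sub_self])
      (by
        intro u hu z
        simp only [mul_assoc, H.mul_mem_cancel_left hu])
    have h5 := congrFun h3 x
    simp only [mul_inv_cancel, H.one_mem, if_true, if_neg hcon, sub_zero, Pi.zero_apply] at h5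
    exact one_ne_zero h5
  have h6 : Nat.card (G ⧸ H) ≤ Nat.card (Fin O) := by
    refine Nat.card_le_card_of_injective
      (Quotient.lift (fun g : G => o g⁻¹) ?_ : G ⧸ H → Fin O) ?_
    · intro a b hab
      have h7 : a⁻¹ * b ∈ H := QuotientGroup.leftRel_apply.1 hab
      have h8 := hoH _ h7 b⁻¹
      rw [mul_inv_cancel_right] at h8
      exact h8
    · intro a b
      induction a using QuotientGroup.induction_on with
      | H a =>
        induction b using QuotientGroup.induction_on with
        | H b =>
          intro hab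
          have h7 := hinj a⁻¹ b⁻¹ hab
          rw [inv_inv] at h7
          exact QuotientGroup.eq.2 h7
  rw [Nat.card_fin] at h6
  exact h6

theorem IDX_thm (h : TauO.SQ_TG) : S_IDX := by
  classical
  intro p q hp hq hp2 hq2 hpq
  obtain ⟨g, O, hg, hgap⟩ := h p q hp hq hp2 hq2 hpq
  refine ⟨g, O, hg, ?_⟩
  intro R _ hM
  obtain ⟨o, ho, hφ⟩ := hgap R hM
  have hoH : ∀ u ∈ Subgroup.closure {x | ∃ b' b : SS q, x = uM (p ^ R) hM b' b},
      ∀ x, o (u * x) = o x := by
    intro u hu
    induction hu using Subgroup.closure_induction with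
    | mem x hx =>
      obtain ⟨b', b, rfl⟩ := hx
      intro x
      exact ho b' b x
    | one => intro x; rw [one_mul]
    | mul a b _ _ iha ihb => intro x; rw [mul_assoc, iha, ihb]
    | inv a _ iha =>
      intro x
      have := iha (a⁻¹ * x)
      rw [mul_inv_cancel_left] at this
      exact this.symm
  refine ⟨?_, ?_⟩
  · refine IDX_index _ O o hoH ?_
    intro φ h1 h2
    have h3 := hφ φ h1
    have h4 : ∑ b' : SS q, ∑ b : SS q, ∑ x, ‖φ (uM (p ^ R) hM b' b * x) - φ x‖ ^ 2 = 0 := by
      refine Finset.sum_eq_zero fun b' _ => Finset.sum_eq_zero fun b _ =>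
        Finset.sum_eq_zero fun x _ => ?_
      rw [h2 _ (Subgroup.subset_closure ⟨b', b, rfl⟩) x, sub_self, norm_zero]
      norm_num
    rw [h4] at h3
    have h5 : ∑ x, ‖φ x‖ ^ 2 ≤ 0 := by
      by_contra hcon
      push Not at hcon
      have : 0 < 2 * g * ∑ x, ‖φ x‖ ^ 2 := by positivity
      linarith
    have h6 : ∑ x, ‖φ x‖ ^ 2 = 0 := le_antisymm h5 (Finset.sum_nonneg fun _ _ => by positivity)
    rw [Finset.sum_eq_zero_iff_of_nonneg (fun _ _ => by positivity)] at h6
    funext x
    have h7 := h6 x (Finset.mem_univ x)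
    simpa using h7
  · intro htop φ h1
    refine hφ φ ?_
    have h2 : ∀ x, o x = o 1 := by
      intro x
      have h3 := hoH x (by rw [htop]; exact Subgroup.mem_top x) 1
      rw [mul_one] at h3
      exact h3
    intro j
    simp only [h2]
    split_ifs
    · exact h1
    · exact Finset.sum_const_zero

end TauSG
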