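import Mathlib
import Pool.Agent.Work.MP_972ac7_sg.Interface

/-!
# Block LEV: the levels of `SL2(Z_l)`
-/

open MeasureTheory
open scoped Quaternion BigOperators ENNReal

namespace TauSG

open TauQ (RR GG castR redM qmap mk4)

namespace LevAux

/-- the inverse of `matQ` -/
def invQ {R : Type} [CommRing R] (t x y : R) (m : Matrix (Fin 2) (Fin 2) R) : ℍ[R] :=
  mk4 (t * (m 0 0 + m 1 1))
    (-(x * (t * (m 0 0 - m 1 1)) + y * (t * (m 0 1 + m 1 0))))
    (t * (m 0 1 - m 1 0))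
    (y * (t * (m 0 0 - m 1 1)) - x * (t * (m 0 1 + m 1 0)))

lemma matQ_invQ {R : Type} [CommRing R] {t x y : R} (ht : 2 * t = 1) (h : x ^ 2 + y ^ 2 = -1)
    (m : Matrix (Fin 2) (Fin 2) R) : matQ x y (invQ t x y m) = m := by
  ext i j
  fin_cases i <;> fin_cases j
  · simp [matQ, invQ]
    linear_combination (m 0 0) * ht - (t * (m 0 0 - m 1 1)) * h
  · simp [matQ, invQ]
    linear_combination (m 0 1) * ht - (t * (m 0 1 + m 1 0)) * h
  · simp [matQ, invQ]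
    linear_combination (m 1 0) * ht - (t * (m 0 1 + m 1 0)) * h
  · simp [matQ, invQ]
    linear_combination (m 1 1) * ht + (t * (m 0 0 - m 1 1)) * h

lemma invQ_matQ {R : Type} [CommRing R] {t x y : R} (ht : 2 * t = 1) (h : x ^ 2 + y ^ 2 = -1)
    (z : ℍ[R]) : invQ t x y (matQ x y z) = z := by
  apply Quaternion.ext
  · simp [matQ, invQ]
    linear_combination z.re * ht
  · simp [matQ, invQ]
    linear_combination (- z.imI * (x ^ 2 + y ^ 2)) * ht - z.imI * h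
  · simp [matQ, invQ]
    linear_combination z.imJ * ht
  · simp [matQ, invQ]
    linear_combination (- z.imK * (x ^ 2 + y ^ 2)) * ht - z.imK * h

lemma matQ_inj {R : Type} [CommRing R] {t x y : R} (ht : 2 * t = 1) (h : x ^ 2 + y ^ 2 = -1)
    {z w : ℍ[R]} (hzw : matQ x y z = matQ x y w) : z = w := by
  rw [← invQ_matQ ht h z, hzw, invQ_matQ ht h w]

lemma matQ_qmap {R S : Type} [CommRing R] [CommRing S] (f : R →+* S) (x y : R) (z : ℍ[R]) :
    matQ (f x) (f y) (qmap f z) = (matQ x y z).map f := by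
  ext i j
  fin_cases i <;> fin_cases j <;> simp [matQ]

lemma qmap_comp {R S T : Type} [CommRing R] [CommRing S] [CommRing T] (f : R →+* S) (g : S →+* T)
    (z : ℍ[R]) : qmap g (qmap f z) = qmap (g.comp f) z := by
  apply Quaternion.ext <;> simp

lemma qmap_inj {R S : Type} [CommRing R] [CommRing S] {f : R →+* S} (hf : Function.Injective f)
    {z w : ℍ[R]} (h : qmap f z = qmap f w) : z = w := by
  have h1 := congrArg (fun u : ℍ[S] => u.re) h
  have h2 := congrArg (fun u : ℍ[S] => u.imI) h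
  have h3 := congrArg (fun u : ℍ[S] => u.imJ) h
  have h4 := congrArg (fun u : ℍ[S] => u.imK) h
  simp only [TauQ.qmap_re, TauQ.qmap_imI, TauQ.qmap_imJ, TauQ.qmap_imK] at h1 h2 h3 h4
  exact Quaternion.ext _ _ (hf h1) (hf h2) (hf h3) (hf h4)

section padic

variable {l : ℕ} [Fact l.Prime]

lemma exists_half (hl : l ≠ 2) : ∃ t : ℤ_[l], 2 * t = 1 := by
  have h : IsUnit (2 : ℤ_[l]) := by
    rw [PadicInt.isUnit_iff]
    have h1 : ¬ (l : ℤ) ∣ 2 := by
      intro hd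
      have h2 : l ∣ 2 := by exact_mod_cast hd
      exact hl ((Nat.prime_dvd_prime_iff_eq (Fact.out : l.Prime) Nat.prime_two).1 h2)
    have h2 : ¬ ‖((2 : ℤ) : ℤ_[l])‖ < 1 := by
      rw [PadicInt.norm_int_lt_one_iff_dvd]
      exact h1
    have h3 : ‖((2 : ℤ) : ℤ_[l])‖ ≤ 1 := PadicInt.norm_le_one _
    have h4 : ‖((2 : ℤ) : ℤ_[l])‖ = 1 := le_antisymm h3 (not_lt.1 h2)
    simpa using h4
  obtain ⟨u, hu⟩ := h
  exact ⟨((u⁻¹ : ℤ_[l]ˣ) : ℤ_[l]), by rw [← hu]; exact Units.mul_inv u⟩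

/-- `SL2(Z_l) → SL2(ℚ_l)` on quaternions -/
noncomputable def F {x y : ℤ_[l]} (hxy : IsSpl l x y) :
    unitary ℍ[ℤ_[l]] →* Matrix.SpecialLinearGroup (Fin 2) ℚ_[l] :=
  (Matrix.SpecialLinearGroup.map (n := Fin 2) (algebraMap ℤ_[l] ℚ_[l])).comp (slQ hxy)

lemma F_apply {x y : ℤ_[l]} (hxy : IsSpl l x y) (z : unitary ℍ[ℤ_[l]]) (i j : Fin 2) :
    (F hxy z : Matrix (Fin 2) (Fin 2) ℚ_[l]) i j = ((matQ x y (z : ℍ[ℤ_[l]]) i j : ℤ_[l]) : ℚ_[l]) :=
  rfl

lemma F_mem {x y : ℤ_[l]} (hxy : IsSpl l x y) (z : unitary ℍ[ℤ_[l]]) : F hxy z ∈ KK l :=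
  ⟨slQ hxy z, rfl⟩

lemma coe_inj : Function.Injective (algebraMap ℤ_[l] ℚ_[l]) := by
  intro a b h
  exact Subtype.ext h

lemma F_inj (hl : l ≠ 2) {x y : ℤ_[l]} (hxy : IsSpl l x y) : Function.Injective (F hxy) := by
  intro z w h
  obtain ⟨t, ht⟩ := exists_half (l := l) hl
  apply Subtype.ext
  apply matQ_inj ht hxy
  ext i j
  have : (F hxy z : Matrix (Fin 2) (Fin 2) ℚ_[l]) i j =
      (F hxy w : Matrix (Fin 2) (Fin 2) ℚ_[l]) i j := by rw [h]
  rw [F_apply, F_apply] at this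
  exact Subtype.ext this

lemma F_surj (hl : l ≠ 2) {x y : ℤ_[l]} (hxy : IsSpl l x y) (k : KK l) :
    ∃ z, F hxy z = (k : Matrix.SpecialLinearGroup (Fin 2) ℚ_[l]) := by
  obtain ⟨A, hA⟩ := k.2
  obtain ⟨t, ht⟩ := exists_half (l := l) hl
  have h1 : matQ x y (invQ t x y (A : Matrix (Fin 2) (Fin 2) ℤ_[l])) = A := matQ_invQ ht hxy _
  refine ⟨⟨invQ t x y (A : Matrix (Fin 2) (Fin 2) ℤ_[l]), ?_⟩, ?_⟩
  · rw [TauQ.mem_unitary_iff, ← matQ_det hxy, h1]
    exact A.2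
  · rw [← hA]
    have : slQ hxy ⟨invQ t x y (A : Matrix (Fin 2) (Fin 2) ℤ_[l]), by
        rw [TauQ.mem_unitary_iff, ← matQ_det hxy, h1]
        exact A.2⟩ = A := Subtype.ext h1
    show Matrix.SpecialLinearGroup.map (n := Fin 2) (algebraMap ℤ_[l] ℚ_[l]) _ = _
    rw [this]

/-- the isomorphism of the norm one quaternions over `Z_l` with `SL2(Z_l)` -/
noncomputable def FK (hl : l ≠ 2) {x y : ℤ_[l]} (hxy : IsSpl l x y) : unitary ℍ[ℤ_[l]] ≃* KK l :=
  MulEquiv.ofBijective ((F hxy).codRestrict (KK l) (F_mem hxy)) ⟨by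
    intro z w h
    exact F_inj hl hxy (congrArg Subtype.val h), by
    intro k
    obtain ⟨z, hz⟩ := F_surj hl hxy k
    exact ⟨z, Subtype.ext hz⟩⟩

lemma FK_coe (hl : l ≠ 2) {x y : ℤ_[l]} (hxy : IsSpl l x y) (z : unitary ℍ[ℤ_[l]]) :
    ((FK hl hxy z : KK l) : Matrix.SpecialLinearGroup (Fin 2) ℚ_[l]) = F hxy z := rfl

/-- reduction modulo `l^R` -/
noncomputable def rho (hl : l ≠ 2) {x y : ℤ_[l]} (hxy : IsSpl l x y) (R : ℕ) :
    KK l →* unitary ℍ[ZMod (l ^ R)] :=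
  (unitQ (PadicInt.toZModPow R)).comp (FK hl hxy).symm.toMonoidHom

lemma rho_FK (hl : l ≠ 2) {x y : ℤ_[l]} (hxy : IsSpl l x y) (R : ℕ) (z : unitary ℍ[ℤ_[l]]) :
    rho hl hxy R (FK hl hxy z) = unitQ (PadicInt.toZModPow R) z := by
  show unitQ (PadicInt.toZModPow R) ((FK hl hxy).symm (FK hl hxy z)) = _
  rw [MulEquiv.symm_apply_apply]

lemma mod_iff (a b : ℤ_[l]) (R : ℕ) :
    (PadicInt.toZModPow R a = PadicInt.toZModPow R b) ↔
      ‖(a : ℚ_[l]) - (b : ℚ_[l])‖ ≤ (l : ℝ) ^ (-R : ℤ) := by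
  rw [← sub_eq_zero, ← map_sub, ← RingHom.mem_ker, PadicInt.ker_toZModPow,
    ← PadicInt.norm_le_pow_iff_mem_span_pow, ← PadicInt.coe_sub]
  rfl

lemma rho_one_iff (hl : l ≠ 2) {x y : ℤ_[l]} (hxy : IsSpl l x y) (R : ℕ) (k : KK l) :
    rho hl hxy R k = 1 ↔ ∀ i j,
      ‖((k : Matrix.SpecialLinearGroup (Fin 2) ℚ_[l]) : Matrix (Fin 2) (Fin 2) ℚ_[l]) i j -
        (1 : Matrix (Fin 2) (Fin 2) ℚ_[l]) i j‖ ≤ (l : ℝ) ^ (-R : ℤ) := by
  obtain ⟨z, rfl⟩ := (FK hl hxy).surjective k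
  obtain ⟨t, ht⟩ := exists_half (l := l) hl
  set f : ℤ_[l] →+* ZMod (l ^ R) := PadicInt.toZModPow R with hf
  have ht' : 2 * f t = 1 := by
    have := congrArg f ht
    rw [map_mul, map_one, show (2 : ℤ_[l]) = ((2 : ℕ) : ℤ_[l]) from by norm_cast,
      map_natCast] at this
    simpa using this
  have hxy' : (f x) ^ 2 + (f y) ^ 2 = -1 := by
    have := congrArg f (show x ^ 2 + y ^ 2 = -1 from hxy)
    simpa using this
  rw [rho_FK, FK_coe]
  have e1 : (unitQ (PadicInt.toZModPow R) z = 1) ↔ qmap f (z : ℍ[ℤ_[l]]) = 1 :=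
    ⟨fun h => congrArg Subtype.val h, fun h => Subtype.ext h⟩
  have e2 : qmap f (z : ℍ[ℤ_[l]]) = 1 ↔ (matQ x y (z : ℍ[ℤ_[l]])).map f = 1 := by
    rw [← matQ_qmap, ← matQ_one (f x) (f y)]
    exact ⟨fun h => by rw [h], fun h => matQ_inj ht' hxy' h⟩
  rw [e1, e2]
  constructor
  · intro h i j
    have h1 := congrFun (congrFun h i) j
    rw [Matrix.map_apply] at h1
    have h2 : f ((1 : Matrix (Fin 2) (Fin 2) ℤ_[l]) i j) = (1 : Matrix (Fin 2) (Fin 2) _) i j := by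
      rw [Matrix.one_apply, Matrix.one_apply]
      split_ifs <;> simp
    rw [← h2] at h1
    have h3 := (mod_iff _ _ R).1 h1
    rw [F_apply]
    have h4 : (((1 : Matrix (Fin 2) (Fin 2) ℤ_[l]) i j : ℤ_[l]) : ℚ_[l]) =
        (1 : Matrix (Fin 2) (Fin 2) ℚ_[l]) i j := by
      rw [Matrix.one_apply, Matrix.one_apply]
      split_ifs <;> simp
    rw [← h4]
    exact h3
  · intro h
    ext i j
    rw [Matrix.map_apply]
    have h2 : f ((1 : Matrix (Fin 2) (Fin 2) ℤ_[l]) i j) = (1 : Matrix (Fin 2) (Fin 2) _) i j := by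
      rw [Matrix.one_apply, Matrix.one_apply]
      split_ifs <;> simp
    rw [← h2]
    apply (mod_iff _ _ R).2
    have h3 := h i j
    rw [F_apply] at h3
    have h4 : (((1 : Matrix (Fin 2) (Fin 2) ℤ_[l]) i j : ℤ_[l]) : ℚ_[l]) =
        (1 : Matrix (Fin 2) (Fin 2) ℚ_[l]) i j := by
      rw [Matrix.one_apply, Matrix.one_apply]
      split_ifs <;> simp
    rw [h4]
    exact h3

lemma mem_KK_of_norm (g : Matrix.SpecialLinearGroup (Fin 2) ℚ_[l])
    (h : ∀ i j, ‖(g : Matrix (Fin 2) (Fin 2) ℚ_[l]) i j‖ ≤ 1) : g ∈ KK l := by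
  let A : Matrix (Fin 2) (Fin 2) ℤ_[l] := fun i j => ⟨(g : Matrix (Fin 2) (Fin 2) ℚ_[l]) i j, h i j⟩
  have hA : A.map (algebraMap ℤ_[l] ℚ_[l]) = (g : Matrix (Fin 2) (Fin 2) ℚ_[l]) := by
    ext i j
    rfl
  have hdet : A.det = 1 := by
    apply coe_inj (l := l)
    rw [RingHom.map_det, map_one]
    have : (algebraMap ℤ_[l] ℚ_[l]).mapMatrix A = (g : Matrix (Fin 2) (Fin 2) ℚ_[l]) := hA
    rw [this]
    exact g.2
  exact ⟨⟨A, hdet⟩, Subtype.ext hA⟩

lemma norm_of_near {a b : ℚ_[l]} (hb : ‖b‖ ≤ 1) {R : ℕ} (h : ‖a - b‖ ≤ (l : ℝ) ^ (-R : ℤ)) :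
    ‖a‖ ≤ 1 := by
  have h1 : (l : ℝ) ^ (-R : ℤ) ≤ 1 := by
    rw [zpow_neg, zpow_natCast]
    apply inv_le_one_of_one_le₀
    apply one_le_pow₀
    exact_mod_cast (Fact.out : l.Prime).one_lt.le
  have h2 : a = (a - b) + b := by ring
  rw [h2]
  exact le_trans (Padic.nonarchimedean _ _) (max_le (le_trans h h1) hb)

lemma norm_one_entry (i j : Fin 2) : ‖(1 : Matrix (Fin 2) (Fin 2) ℚ_[l]) i j‖ ≤ 1 := by
  rw [Matrix.one_apply]
  split_ifs <;> simp

lemma set_eq (hl : l ≠ 2) {x y : ℤ_[l]} (hxy : IsSpl l x y) (R : ℕ) :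
    {g : Matrix.SpecialLinearGroup (Fin 2) ℚ_[l] | ∃ k : KK l, rho hl hxy R k = 1 ∧
      (k : Matrix.SpecialLinearGroup (Fin 2) ℚ_[l]) = g} =
    {g : Matrix.SpecialLinearGroup (Fin 2) ℚ_[l] | ∀ i j,
      ‖(g : Matrix (Fin 2) (Fin 2) ℚ_[l]) i j - (1 : Matrix (Fin 2) (Fin 2) ℚ_[l]) i j‖ ≤
        (l : ℝ) ^ (-R : ℤ)} := by
  ext g
  constructor
  · rintro ⟨k, hk, rfl⟩
    exact (rho_one_iff hl hxy R k).1 hk
  · intro h
    have hg : g ∈ KK l := mem_KK_of_norm g fun i j => norm_of_near (norm_one_entry i j) (h i j)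
    exact ⟨⟨g, hg⟩, (rho_one_iff hl hxy R ⟨g, hg⟩).2 h, rfl⟩

lemma rho_surj (hl : l ≠ 2) {x y : ℤ_[l]} (hxy : IsSpl l x y) (R : ℕ) :
    Function.Surjective (rho hl hxy R) := by
  intro z
  obtain ⟨t, ht⟩ := exists_half (l := l) hl
  rcases Nat.eq_zero_or_pos R with rfl | hR
  · refine ⟨1, ?_⟩
    rw [map_one]
    apply Subtype.ext
    have : Subsingleton (ZMod (l ^ 0)) := by
      rw [pow_zero]
      infer_instance
    apply Quaternion.ext <;> exact Subsingleton.elim _ _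
  set f : ℤ_[l] →+* ZMod (l ^ R) := PadicInt.toZModPow R with hf
  have ht' : 2 * f t = 1 := by
    have := congrArg f ht
    rw [map_mul, map_one, show (2 : ℤ_[l]) = ((2 : ℕ) : ℤ_[l]) from by norm_cast,
      map_natCast] at this
    simpa using this
  have hxy' : (f x) ^ 2 + (f y) ^ 2 = -1 := by
    have := congrArg f (show x ^ 2 + y ^ 2 = -1 from hxy)
    simpa using this
  have hfs : Function.Surjective f := ZMod.ringHom_surjective f
  obtain ⟨a, ha⟩ := hfs (z : ℍ[ZMod (l ^ R)]).re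
  obtain ⟨b, hb⟩ := hfs (z : ℍ[ZMod (l ^ R)]).imI
  obtain ⟨c, hc⟩ := hfs (z : ℍ[ZMod (l ^ R)]).imJ
  obtain ⟨d, hd⟩ := hfs (z : ℍ[ZMod (l ^ R)]).imK
  let w : ℍ[ℤ_[l]] := mk4 a b c d
  have hw : qmap f w = (z : ℍ[ZMod (l ^ R)]) := Quaternion.ext _ _ ha hb hc hd
  obtain ⟨δ, hδ⟩ : ∃ δ, δ = Quaternion.normSq w := ⟨_, rfl⟩
  have hfδ : f δ = 1 := by
    rw [hδ, ← TauQ.normSq_qmap, hw]
    exact (TauQ.mem_unitary_iff _).1 z.2
  have hunit : IsUnit δ := by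
    rw [PadicInt.isUnit_iff]
    have h1 : f δ = f 1 := by rw [hfδ, map_one]
    have h2 := (mod_iff δ 1 R).1 h1
    have h3 : (l : ℝ) ^ (-R : ℤ) < 1 := by
      rw [zpow_neg, zpow_natCast]
      apply inv_lt_one_of_one_lt₀
      apply one_lt_pow₀ _ (by omega)
      exact_mod_cast (Fact.out : l.Prime).one_lt
    have h4 : ‖δ - 1‖ < 1 := by
      refine lt_of_le_of_lt ?_ h3
      rw [← PadicInt.coe_sub] at h2
      exact h2
    by_contra hne
    have h5 : ‖δ‖ < 1 := lt_of_le_of_ne (PadicInt.norm_le_one _) hne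
    have h6 : (1 : ℤ_[l]) = δ - (δ - 1) := by ring
    have h7 : ‖(1 : ℤ_[l])‖ < 1 := by
      rw [h6]
      calc ‖δ - (δ - 1)‖ = ‖δ + (-(δ - 1))‖ := by rw [sub_eq_add_neg]
        _ ≤ max ‖δ‖ ‖-(δ - 1)‖ := PadicInt.nonarchimedean _ _
        _ < 1 := by rw [norm_neg]; exact max_lt h5 h4
    rw [norm_one] at h7
    exact lt_irrefl _ h7
  obtain ⟨u, hu⟩ := hunit
  let m : Matrix (Fin 2) (Fin 2) ℤ_[l] := !![((u⁻¹ : ℤ_[l]ˣ) : ℤ_[l]), 0; 0, 1]
  have hmf : m.map f = 1 := by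
    have hu1 : f ((u⁻¹ : ℤ_[l]ˣ) : ℤ_[l]) = 1 := by
      have h1 : f ((u : ℤ_[l]) * ((u⁻¹ : ℤ_[l]ˣ) : ℤ_[l])) = 1 := by
        rw [Units.mul_inv, map_one]
      rw [map_mul, hu, hfδ, one_mul] at h1
      exact h1
    ext i j
    fin_cases i <;> fin_cases j <;> simp [m, hu1]
  have hm1 : matQ x y (invQ t x y m) = m := matQ_invQ ht hxy m
  have hm2 : Quaternion.normSq (invQ t x y m) = ((u⁻¹ : ℤ_[l]ˣ) : ℤ_[l]) := by
    rw [← matQ_det hxy, hm1]
    simp [m, Matrix.det_fin_two]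
  have hm3 : qmap f (invQ t x y m) = 1 := by
    apply matQ_inj ht' hxy'
    rw [matQ_qmap, hm1, hmf, matQ_one]
  have hmem : invQ t x y m * w ∈ unitary ℍ[ℤ_[l]] := by
    rw [TauQ.mem_unitary_iff, map_mul, hm2, ← hδ, ← hu, Units.inv_mul]
  refine ⟨FK hl hxy ⟨invQ t x y m * w, hmem⟩, ?_⟩
  rw [rho_FK]
  apply Subtype.ext
  show qmap f (invQ t x y m * w) = _
  rw [map_mul, hm3, one_mul, hw]

end padic

end LevAux

open LevAux

theorem LEV_thm : S_LEV := by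
  intro l _ hl x y hxy
  have hprime : l.Prime := Fact.out
  let L : Levels (KK l) :=
    { Q := fun R => unitary ℍ[ZMod (l ^ R)]
      grp := fun R => inferInstance
      fin := fun R => by
        haveI : NeZero (l ^ R) := ⟨pow_ne_zero R hprime.ne_zero⟩
        exact Fintype.ofFinite _
      ρ := fun R => rho hl hxy R
      surj := fun R => rho_surj hl hxy R
      op := by
        intro R
        rw [set_eq hl hxy R]
        simp only [Set.ofPred_forall]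
        refine isOpen_iInter_of_finite fun i => isOpen_iInter_of_finite fun j => ?_
        have hc : Continuous fun g : Matrix.SpecialLinearGroup (Fin 2) ℚ_[l] =>
            (g : Matrix (Fin 2) (Fin 2) ℚ_[l]) i j :=
          (continuous_subtype_val).matrix_elem i j
        have ho : IsOpen (Metric.closedBall ((1 : Matrix (Fin 2) (Fin 2) ℚ_[l]) i j)
            ((l : ℝ) ^ (-R : ℤ))) := by
          apply IsUltrametricDist.isOpen_closedBall
          apply zpow_ne_zero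
          exact_mod_cast hprime.ne_zero
        have := ho.preimage hc
        convert this using 1
        ext g
        simp [Metric.mem_closedBall, dist_eq_norm]
      basis := by
        intro V hV
        have hind : Topology.IsInducing (fun g : Matrix.SpecialLinearGroup (Fin 2) ℚ_[l] =>
            (g : Matrix (Fin 2) (Fin 2) ℚ_[l])) := Topology.IsInducing.subtypeVal
        rw [hind.nhds_eq_comap, Filter.mem_comap] at hV
        obtain ⟨u, hu, huV⟩ := hV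
        have hu' : (u : Set (Fin 2 → Fin 2 → ℚ_[l])) ∈
            nhds (fun i j => (1 : Matrix (Fin 2) (Fin 2) ℚ_[l]) i j) := hu
        obtain ⟨ε, hε, hball⟩ := Metric.mem_nhds_iff.1 hu'
        obtain ⟨R, hR⟩ : ∃ R : ℕ, (l : ℝ) ^ (-R : ℤ) < ε := by
          have h1 : ((l : ℝ)⁻¹) < 1 := by
            apply inv_lt_one_of_one_lt₀
            exact_mod_cast hprime.one_lt
          obtain ⟨R, hR⟩ := exists_pow_lt_of_lt_one hε h1
          refine ⟨R, ?_⟩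
          rw [zpow_neg, zpow_natCast, ← inv_pow]
          exact hR
        refine ⟨R, fun k hk => huV ?_⟩
        have h1 := (rho_one_iff hl hxy R k).1 hk
        have h2 : (fun i j => ((k : Matrix.SpecialLinearGroup (Fin 2) ℚ_[l]) :
            Matrix (Fin 2) (Fin 2) ℚ_[l]) i j : Fin 2 → Fin 2 → ℚ_[l]) ∈
            Metric.ball (fun i j => (1 : Matrix (Fin 2) (Fin 2) ℚ_[l]) i j) ε := by
          refine Metric.mem_ball.2 ((dist_pi_lt_iff hε).2 fun i => (dist_pi_lt_iff hε).2 fun j => ?_)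
          exact lt_of_le_of_lt (le_of_eq (dist_eq_norm _ _)) (lt_of_le_of_lt (h1 i j) hR)
        exact hball h2 }
  refine ⟨L, fun R => MulEquiv.refl _, ?_⟩
  intro p q h γ d α hd hγ hm R
  obtain ⟨w, hw⟩ := (FK hl hxy).surjective ⟨emb p q l h hxy γ, hm⟩
  show ((d : ℤ) : ℍ[ZMod (l ^ R)]) *
    (rho hl hxy R ⟨emb p q l h hxy γ, hm⟩ : ℍ[ZMod (l ^ R)]) = redM (l ^ R) α
  rw [← hw, rho_FK]
  show ((d : ℤ) : ℍ[ZMod (l ^ R)]) * qmap (PadicInt.toZModPow R) (w : ℍ[ℤ_[l]]) = _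
  obtain ⟨t, ht⟩ := exists_half (l := l) hl
  have hcoe : ∀ a : ℤ_[l], algebraMap ℤ_[l] ℚ_[l] a = (a : ℚ_[l]) := fun a => rfl
  have ht' : 2 * (t : ℚ_[l]) = 1 := by
    have := congrArg (algebraMap ℤ_[l] ℚ_[l]) ht
    rw [map_mul, map_one, show (2 : ℤ_[l]) = ((2 : ℕ) : ℤ_[l]) from by norm_cast,
      map_natCast] at this
    simpa using this
  -- the two quaternions over ℚ_l agree
  have h1 : qmap (algebraMap ℤ_[l] ℚ_[l]) (w : ℍ[ℤ_[l]]) =
      qmap (toQ p q l h) (γ : ℍ[RR p q]) := by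
    apply matQ_inj ht' hxy.coe
    have h2 : (F hxy w : Matrix.SpecialLinearGroup (Fin 2) ℚ_[l]) = emb p q l h hxy γ :=
      congrArg Subtype.val hw
    have h3 := congrArg (fun g : Matrix.SpecialLinearGroup (Fin 2) ℚ_[l] =>
      (g : Matrix (Fin 2) (Fin 2) ℚ_[l])) h2
    have h4 : (F hxy w : Matrix (Fin 2) (Fin 2) ℚ_[l]) =
        matQ (x : ℚ_[l]) (y : ℚ_[l]) (qmap (algebraMap ℤ_[l] ℚ_[l]) (w : ℍ[ℤ_[l]])) := by
      have := matQ_qmap (algebraMap ℤ_[l] ℚ_[l]) x y (w : ℍ[ℤ_[l]])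
      rw [hcoe, hcoe] at this
      rw [this]
      rfl
    rw [← h4]
    exact h3
  have h5 : ((d : ℤ) : ℍ[ℤ_[l]]) * (w : ℍ[ℤ_[l]]) = qmap (Int.castRingHom ℤ_[l]) α := by
    apply qmap_inj (coe_inj (l := l))
    rw [map_mul, map_intCast, h1, qmap_comp]
    have h6 := congrArg (qmap (toQ p q l h)) hγ
    rw [map_mul, map_intCast] at h6
    rw [h6, castR, qmap_comp]
    congr 1
    exact congrArg qmap (RingHom.ext_int _ _)
  have h7 := congrArg (qmap (PadicInt.toZModPow (p := l) R)) h5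
  rw [map_mul, map_intCast, qmap_comp] at h7
  rw [h7, redM]
  congr 1
  exact congrArg qmap (RingHom.ext_int _ _)

end TauSG
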