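import Mathlib
import Pool.Agent.Work.MP_972ac7_sg.Interface

/-!
# MEA: the invariant probability measure on `(GA × GB) ⧸ Γ`
-/

open MeasureTheory Pool.TFD
open scoped Quaternion BigOperators ENNReal

namespace TauSG

namespace MEAaux

variable {GA GB Λ : Type} [Group GA] [TopologicalSpace GA]
  [Group GB] [TopologicalSpace GB] [Group Λ] (T : Trans GA GB Λ)

/-- unique representation -/
lemma existsUnique (x : GA × GB) :
    ∃! g : T.Γ.op, g • x ∈ (T.KA : Set GA) ×ˢ (T.KB : Set GB) := by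
  obtain ⟨a, ha, b, hb, γ, h1, h2⟩ := T.cover x.1 x.2
  have hmem : ((T.α γ, T.β γ) : GA × GB)⁻¹ ∈ T.Γ := T.Γ.inv_mem ⟨γ, rfl⟩
  refine ⟨⟨MulOpposite.op ((T.α γ, T.β γ) : GA × GB)⁻¹, hmem⟩, ?_, ?_⟩
  · show x * ((T.α γ, T.β γ) : GA × GB)⁻¹ ∈ (T.KA : Set GA) ×ˢ (T.KB : Set GB)
    constructor
    · show x.1 * (T.α γ)⁻¹ ∈ T.KA
      rw [h1, mul_inv_cancel_right]
      exact ha
    · show x.2 * (T.β γ)⁻¹ ∈ T.KB
      rw [h2, mul_inv_cancel_right]
      exact hb
  · rintro ⟨g, hg⟩ hg'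
    obtain ⟨δ, hδ⟩ := hg
    have hgx : x * MulOpposite.unop g ∈ (T.KA : Set GA) ×ˢ (T.KB : Set GB) := hg'
    rw [← hδ] at hgx
    have h3 : x.1 * T.α δ ∈ T.KA := hgx.1
    have h4 : x.2 * T.β δ ∈ T.KB := hgx.2
    have h5 : γ * δ = 1 := by
      apply T.triv
      · rw [map_mul]
        have : T.α γ * T.α δ = a⁻¹ * (x.1 * T.α δ) := by rw [h1]; group
        rw [this]
        exact T.KA.mul_mem (T.KA.inv_mem ha) h3
      · rw [map_mul]
        have : T.β γ * T.β δ = b⁻¹ * (x.2 * T.β δ) := by rw [h2]; group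
        rw [this]
        exact T.KB.mul_mem (T.KB.inv_mem hb) h4
    have h6 : δ = γ⁻¹ := eq_inv_of_mul_eq_one_right h5
    apply Subtype.ext
    show g = MulOpposite.op ((T.α γ, T.β γ) : GA × GB)⁻¹
    apply MulOpposite.unop_injective
    rw [MulOpposite.unop_op, ← hδ, h6]
    show (T.α γ⁻¹, T.β γ⁻¹) = _
    rw [map_inv, map_inv]
    rfl

end MEAaux

theorem MEA_thm (h : S_DISC) : S_MEA := by
  intro GA GB Λ _ _ _ _ _ _ _ _ _ _ _ _ _ _ _ _ _ T μA μB hA hB hrA hrB hKA hKB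
  have := hA
  have := hB
  have := hrA
  have := hrB
  have : DiscreteTopology T.Γ := (h GA GB Λ T).1
  have : Countable T.Γ := by
    have : SecondCountableTopology T.Γ := inferInstance
    exact TopologicalSpace.separableSpace_iff_countable.1 inferInstance
  have : Countable T.Γ.op := by
    exact (T.Γ.equivOp).symm.injective.countable
  have hKm : MeasurableSet ((T.KA : Set GA) ×ˢ (T.KB : Set GB)) :=
    T.openA.measurableSet.prod T.openB.measurableSet
  have hmk : Measurable (QuotientGroup.mk : GA × GB → (GA × GB) ⧸ T.Γ) := measurable_quotient_mk''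
  have hfd : ∀ g : GA × GB, IsFundamentalDomain T.Γ.op
      ((fun x => g * x) ⁻¹' ((T.KA : Set GA) ×ˢ (T.KB : Set GB))) (μA.prod μB) := by
    intro g
    apply IsFundamentalDomain.mk'
    · exact ((measurable_const_mul g) hKm).nullMeasurableSet
    · intro x
      obtain ⟨γ, h1, h2⟩ := MEAaux.existsUnique T (g * x)
      have hc : ∀ γ : T.Γ.op, γ • (g * x) = g * (γ • x) := fun γ =>
        mul_assoc g x (MulOpposite.unop (γ : (GA × GB)ᵐᵒᵖ))
      refine ⟨γ, ?_, ?_⟩
      · have h3 := h1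
        rw [hc] at h3
        exact h3
      · intro γ' h3
        apply h2
        show γ' • (g * x) ∈ (T.KA : Set GA) ×ˢ (T.KB : Set GB)
        rw [hc]
        exact h3
  have hm0 : ∀ E : Set ((GA × GB) ⧸ T.Γ), MeasurableSet E → T.meas μA μB E =
      (μA.prod μB) (((QuotientGroup.mk : GA × GB → (GA × GB) ⧸ T.Γ) ⁻¹' E) ∩
        ((T.KA : Set GA) ×ˢ (T.KB : Set GB))) := by
    intro E hE
    rw [Trans.meas, Measure.map_apply hmk hE, Measure.restrict_apply (hmk hE)]
  constructor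
  · constructor
    rw [hm0 _ MeasurableSet.univ, Set.preimage_univ, Set.univ_inter, Measure.prod_prod, hKA, hKB,
      one_mul]
  · intro g
    have hsm : Measurable (fun x : (GA × GB) ⧸ T.Γ => g • x) := by
      apply QuotientGroup.measurable_from_quotient.2
      exact hmk.comp (measurable_const_mul g)
    refine ⟨hsm, ?_⟩
    ext E hE
    rw [Measure.map_apply hsm hE, hm0 _ (hsm hE), hm0 _ hE]
    set A : Set (GA × GB) := (QuotientGroup.mk : GA × GB → (GA × GB) ⧸ T.Γ) ⁻¹' E with hA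
    have hAm : MeasurableSet A := hmk hE
    have h1 : (QuotientGroup.mk : GA × GB → (GA × GB) ⧸ T.Γ) ⁻¹' ((fun x => g • x) ⁻¹' E) =
      (fun x => g * x) ⁻¹' A := rfl
    have h2 : (fun x => g * x) ⁻¹' A ∩ ((T.KA : Set GA) ×ˢ (T.KB : Set GB)) =
        (fun x => g * x) ⁻¹' (A ∩ (fun x => g⁻¹ * x) ⁻¹' ((T.KA : Set GA) ×ˢ (T.KB : Set GB))) := by
      ext x
      simp only [Set.mem_inter_iff, Set.mem_preimage, inv_mul_cancel_left]
    rw [h1, h2, measure_preimage_mul]
    have h3 := (hfd g⁻¹).measure_set_eq (hfd 1) hAm (by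
      intro γ
      ext x
      show QuotientGroup.mk (γ • x) ∈ E ↔ QuotientGroup.mk x ∈ E
      have : (QuotientGroup.mk (γ • x) : (GA × GB) ⧸ T.Γ) = QuotientGroup.mk x := by
        apply QuotientGroup.eq.2
        show (x * MulOpposite.unop (γ : (GA × GB)ᵐᵒᵖ))⁻¹ * x ∈ T.Γ
        rw [mul_inv_rev, inv_mul_cancel_right]
        exact T.Γ.inv_mem γ.2
      rw [this])
    rw [h3]
    simp only [one_mul]
    rfl

end TauSG
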