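import Mathlib
import Pool.Agent.Work.MP_972ac7_sg.Interface

/-! # NOFD: `SL2(ℚ_l)` has no finite dimensional unitary representations (helper33) -/

open MeasureTheory Pool.TFD
open scoped Quaternion BigOperators ENNReal ComplexOrder

namespace TauSG

open TauQ (RR GG castR redM)
open TauO

theorem NOFD_tr {d : ℕ} (U : Matrix.unitaryGroup (Fin d) ℂ)
    (h : Matrix.trace (U : Matrix (Fin d) (Fin d) ℂ) = d) : U = 1 := by
  have h1 : star (U : Matrix (Fin d) (Fin d) ℂ) * (U : Matrix (Fin d) (Fin d) ℂ) = 1 :=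
    Matrix.UnitaryGroup.star_mul_self U
  have h2 : Matrix.trace (star (U : Matrix (Fin d) (Fin d) ℂ)) = d := by
    rw [Matrix.star_eq_conjTranspose, Matrix.trace_conjTranspose, h]
    simp
  have h3 : Matrix.trace (((U : Matrix (Fin d) (Fin d) ℂ) - 1).conjTranspose *
      ((U : Matrix (Fin d) (Fin d) ℂ) - 1)) = 0 := by
    rw [← Matrix.star_eq_conjTranspose, star_sub, star_one, sub_mul, mul_sub, h1, one_mul,
      mul_one, Matrix.trace_sub, Matrix.trace_sub, Matrix.trace_sub, h, h2, Matrix.trace_one,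
      Fintype.card_fin]
    ring
  have h4 := Matrix.trace_conjTranspose_mul_self_eq_zero_iff.1 h3
  apply Subtype.ext
  exact sub_eq_zero.1 h4

theorem NOFD_conj {d : ℕ} (A B C : Matrix.unitaryGroup (Fin d) ℂ) (h : A * B = C * A) :
    Matrix.trace (C : Matrix (Fin d) (Fin d) ℂ) = Matrix.trace (B : Matrix (Fin d) (Fin d) ℂ) := by
  have h1 : C = A * B * A⁻¹ := by
    rw [h, mul_inv_cancel_right]
  rw [h1]
  have h2 : ((A * B * A⁻¹ : Matrix.unitaryGroup (Fin d) ℂ) : Matrix (Fin d) (Fin d) ℂ) =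
      (A : Matrix (Fin d) (Fin d) ℂ) * (B : Matrix (Fin d) (Fin d) ℂ) *
        star (A : Matrix (Fin d) (Fin d) ℂ) := rfl
  rw [h2, Matrix.trace_mul_comm, ← mul_assoc, Matrix.UnitaryGroup.star_mul_self, one_mul]

theorem NOFD_core (l : ℕ) [Fact l.Prime] {d : ℕ}
    (ρ : Matrix.SpecialLinearGroup (Fin 2) ℚ_[l] →* Matrix.unitaryGroup (Fin d) ℂ)
    (hρ : Continuous ρ) (g : ℚ_[l] → Matrix.SpecialLinearGroup (Fin 2) ℚ_[l]) (hg : Continuous g)
    (g0 : g 0 = 1) (a : Matrix.SpecialLinearGroup (Fin 2) ℚ_[l])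
    (ha : ∀ t, a * g t = g ((l : ℚ_[l]) ^ 2 * t) * a) (t : ℚ_[l]) : ρ (g t) = 1 := by
  set f : ℚ_[l] → ℂ := fun t => Matrix.trace (ρ (g t) : Matrix (Fin d) (Fin d) ℂ) with hf
  have hfc : Continuous f := by
    refine Continuous.matrix_trace ?_
    exact continuous_subtype_val.comp (hρ.comp hg)
  have hf0 : f 0 = d := by
    simp only [hf, g0, map_one]
    simp
  have hstep : ∀ t, f ((l : ℚ_[l]) ^ 2 * t) = f t := by
    intro t
    have h1 : ρ a * ρ (g t) = ρ (g ((l : ℚ_[l]) ^ 2 * t)) * ρ a := by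
      rw [← map_mul, ← map_mul, ha t]
    exact NOFD_conj _ _ _ h1
  have hpow : ∀ n : ℕ, f (((l : ℚ_[l]) ^ 2) ^ n * t) = f t := by
    intro n
    induction n with
    | zero => rw [pow_zero, one_mul]
    | succ n ih => rw [pow_succ', mul_assoc, hstep, ih]
  have hlt : ‖(l : ℚ_[l]) ^ 2‖ < 1 := by
    rw [norm_pow]
    exact pow_lt_one₀ (norm_nonneg _) Padic.norm_p_lt_one (by norm_num)
  have hlim : Filter.Tendsto (fun n : ℕ => f (((l : ℚ_[l]) ^ 2) ^ n * t)) Filter.atTop
      (nhds (f 0)) := by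
    refine (hfc.tendsto 0).comp ?_
    have h1 := tendsto_pow_atTop_nhds_zero_of_norm_lt_one hlt
    have h2 := h1.mul_const t
    rwa [zero_mul] at h2
  have hconst : Filter.Tendsto (fun n : ℕ => f (((l : ℚ_[l]) ^ 2) ^ n * t)) Filter.atTop
      (nhds (f t)) := by
    simp only [hpow]
    exact tendsto_const_nhds
  have heq : f t = f 0 := tendsto_nhds_unique hconst hlim
  rw [hf0] at heq
  exact NOFD_tr _ heq

theorem NOFD_upp_cont (l : ℕ) [Fact l.Prime] : Continuous (fun t : ℚ_[l] => upp t) := by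
  refine Continuous.subtype_mk ?_ _
  refine continuous_matrix fun i j => ?_
  fin_cases i <;> fin_cases j <;> simp <;> fun_prop

theorem NOFD_low_cont (l : ℕ) [Fact l.Prime] : Continuous (fun t : ℚ_[l] => low t) := by
  refine Continuous.subtype_mk ?_ _
  refine continuous_matrix fun i j => ?_
  fin_cases i <;> fin_cases j <;> simp <;> fun_prop

theorem NOFD_thm (h : S_GEN) : S_NOFD := by
  intro l _ d ρ hρ
  have hl : (l : ℚ_[l]) ≠ 0 := by
    have := (Fact.out : l.Prime).ne_zero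
    exact_mod_cast this
  have hup : ∀ t : ℚ_[l], ρ (upp t) = 1 := by
    refine NOFD_core l ρ hρ (fun t => upp t) (NOFD_upp_cont l) ?_
      ⟨!![(l : ℚ_[l]), 0; 0, (l : ℚ_[l])⁻¹], by
        rw [Matrix.det_fin_two]
        simp [hl]⟩ ?_
    · apply Subtype.ext
      ext i j
      fin_cases i <;> fin_cases j <;> simp [upp]
    · intro t
      apply Subtype.ext
      ext i j
      fin_cases i <;> fin_cases j <;>
        simp [upp, Matrix.mul_apply, Fin.sum_univ_two]
      field_simp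
  have hlo : ∀ t : ℚ_[l], ρ (low t) = 1 := by
    refine NOFD_core l ρ hρ (fun t => low t) (NOFD_low_cont l) ?_
      ⟨!![(l : ℚ_[l])⁻¹, 0; 0, (l : ℚ_[l])], by
        rw [Matrix.det_fin_two]
        simp [hl]⟩ ?_
    · apply Subtype.ext
      ext i j
      fin_cases i <;> fin_cases j <;> simp [low]
    · intro t
      apply Subtype.ext
      ext i j
      fin_cases i <;> fin_cases j <;>
        simp [low, Matrix.mul_apply, Fin.sum_univ_two]
      field_simp
  have hle : Subgroup.closure {g : Matrix.SpecialLinearGroup (Fin 2) ℚ_[l] |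
      ∃ t : ℚ_[l], g = upp t ∨ g = low t} ≤ ρ.ker := by
    rw [Subgroup.closure_le]
    rintro g ⟨t, rfl | rfl⟩
    · exact hup t
    · exact hlo t
  rw [h ℚ_[l]] at hle
  intro g
  exact hle (Subgroup.mem_top g)

end TauSG
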