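import Mathlib
import Pool.Agent.Work.MP_972ac7_sg.Interface

/-! # Block ONE: finitely many orbits at all levels force one orbit and density (helper55) -/

open MeasureTheory Pool.TFD
open scoped Quaternion BigOperators ENNReal Topology

namespace TauSG

/-- the unitary permutation representation -/
noncomputable def ONE_perm (d : ℕ) : Equiv.Perm (Fin d) →* Matrix.unitaryGroup (Fin d) ℂ where
  toFun σ := ⟨Matrix.permMatrixHom (R := ℂ) σ, by
    rw [Matrix.mem_unitaryGroup_iff, Matrix.star_eq_conjTranspose]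
    show Equiv.Perm.permMatrix ℂ σ⁻¹ * (Equiv.Perm.permMatrix ℂ σ⁻¹).conjTranspose = 1
    rw [Matrix.conjTranspose_permMatrix, ← Matrix.permMatrix_mul, inv_inv, mul_inv_cancel,
      Matrix.permMatrix_one]⟩
  map_one' := by
    apply Subtype.ext
    exact map_one _
  map_mul' σ τ := by
    apply Subtype.ext
    exact map_mul _ σ τ

theorem ONE_perm_inj (d : ℕ) (σ : Equiv.Perm (Fin d)) (h : ONE_perm d σ = 1) : σ = 1 := by
  have h1 : Matrix.permMatrixHom (R := ℂ) σ = 1 := congrArg Subtype.val h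
  have h2 : Equiv.Perm.permMatrix ℂ σ⁻¹ = 1 := h1
  have h3 : ∀ i, σ⁻¹ i = i := by
    intro i
    have h4 := congrFun (congrFun h2 i) i
    rw [Matrix.one_apply_eq] at h4
    unfold Equiv.Perm.permMatrix at h4
    rw [PEquiv.toMatrix_apply, Equiv.toPEquiv_apply] at h4
    by_contra hne
    rw [if_neg] at h4
    · exact zero_ne_one h4
    · intro h5
      rw [Option.mem_def, Option.some_inj] at h5
      exact hne h5
  have h5 : σ⁻¹ = 1 := Equiv.ext h3
  exact inv_eq_one.1 h5

/-- a closed subgroup of finite index of a group without finite dimensional representations -/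
theorem ONE_fin (G : Type) [Group G] [TopologicalSpace G] [IsTopologicalGroup G] (hN : NoFD G)
    (H : Subgroup G) (hcl : IsClosed (H : Set G)) [hf : H.FiniteIndex] : H = ⊤ := by
  have hop : IsOpen (H : Set G) := H.isOpen_of_isClosed_of_finiteIndex hcl
  have : Finite (G ⧸ H) := inferInstance
  obtain ⟨d, ⟨e⟩⟩ := Finite.exists_equiv_fin (G ⧸ H)
  set φ : G →* Matrix.unitaryGroup (Fin d) ℂ :=
    (ONE_perm d).comp (e.permCongrHom.toMonoidHom.comp (MulAction.toPermHom G (G ⧸ H))) with hφ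
  have hcont : Continuous φ := by
    rw [continuous_iff_continuousAt]
    intro g₀
    have hev : ∀ᶠ g in 𝓝 g₀, ∀ x : G ⧸ H, g • x = g₀ • x := by
      rw [Filter.eventually_all]
      intro x
      obtain ⟨a, rfl⟩ := QuotientGroup.mk_surjective x
      have h1 : {g : G | g • (QuotientGroup.mk a : G ⧸ H) = g₀ • (QuotientGroup.mk a : G ⧸ H)} =
          (fun g => (g * a)⁻¹ * (g₀ * a)) ⁻¹' (H : Set G) := by
        ext g
        show (QuotientGroup.mk (g * a) : G ⧸ H) = QuotientGroup.mk (g₀ * a) ↔ _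
        rw [QuotientGroup.eq]
        rfl
      have h2 : IsOpen {g : G | g • (QuotientGroup.mk a : G ⧸ H) =
          g₀ • (QuotientGroup.mk a : G ⧸ H)} := by
        rw [h1]
        exact hop.preimage (by fun_prop)
      exact h2.mem_nhds rfl
    have hev2 : ∀ᶠ g in 𝓝 g₀, φ g = φ g₀ := by
      filter_upwards [hev] with g hg
      have h3 : MulAction.toPermHom G (G ⧸ H) g = MulAction.toPermHom G (G ⧸ H) g₀ := by
        ext x
        exact hg x
      rw [hφ]
      simp only [MonoidHom.comp_apply]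
      rw [h3]
    exact (continuousAt_const (y := φ g₀)).congr (hev2.mono fun g hg => hg.symm)
  have htriv := hN d φ hcont
  rw [eq_top_iff]
  intro g _
  have h1 := ONE_perm_inj d _ (htriv g)
  have h2 : MulAction.toPermHom G (G ⧸ H) g = 1 := by
    have h3 : e.permCongrHom (MulAction.toPermHom G (G ⧸ H) g) = 1 := h1
    rwa [map_eq_one_iff _ e.permCongrHom.injective] at h3
  have h3 : g • (QuotientGroup.mk 1 : G ⧸ H) = QuotientGroup.mk 1 := by
    have := congrArg (fun σ : Equiv.Perm (G ⧸ H) => σ (QuotientGroup.mk 1)) h2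
    exact this
  have h4 : (QuotientGroup.mk (g * 1) : G ⧸ H) = QuotientGroup.mk 1 := h3
  rw [QuotientGroup.eq, mul_one, mul_one] at h4
  exact inv_mem_iff.1 h4

theorem ONE_thm : S_ONE := by
  classical
  intro GA GB Λ _ _ _ _ _ _ _ _ T L O hN hO
  set H : Subgroup GA := T.α.range.topologicalClosure with hH
  have hcl : IsClosed (H : Set GA) := T.α.range.isClosed_topologicalClosure
  have hsub : ∀ γ, T.α γ ∈ H := fun γ => Subgroup.le_topologicalClosure _ ⟨γ, rfl⟩
  -- representatives in `KA`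
  have hrep : ∀ c : GA ⧸ H, ∃ k : T.KA, (QuotientGroup.mk (k : GA) : GA ⧸ H) = c := by
    intro c
    obtain ⟨x, rfl⟩ := QuotientGroup.mk_surjective c
    obtain ⟨a, ha, -, -, γ, hx, -⟩ := T.cover x 1
    refine ⟨⟨a, ha⟩, ?_⟩
    show (QuotientGroup.mk a : GA ⧸ H) = QuotientGroup.mk x
    rw [QuotientGroup.eq, hx, inv_mul_cancel_left]
    exact hsub γ
  choose k hk using hrep
  have hfin : Finite (GA ⧸ H) := by
    by_contra hinf
    rw [not_finite_iff_infinite] at hinf
    obtain ⟨F, hF⟩ := Infinite.exists_subset_card_eq (GA ⧸ H) (O + 1)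
    have hV : ∀ z ∈ F ×ˢ F, z.1 ≠ z.2 →
        {v : GA | (k z.1 : GA)⁻¹ * k z.2 * v ∉ H} ∈ 𝓝 (1 : GA) := by
      intro z _ hne
      have hop : IsOpen {v : GA | (k z.1 : GA)⁻¹ * k z.2 * v ∉ H} :=
        hcl.isOpen_compl.preimage (f := fun v : GA => (k z.1 : GA)⁻¹ * k z.2 * v) (by fun_prop)
      refine hop.mem_nhds ?_
      show (k z.1 : GA)⁻¹ * k z.2 * 1 ∉ H
      rw [mul_one]
      intro hmem
      apply hne
      rw [← hk z.1, ← hk z.2, QuotientGroup.eq]
      exact hmem
    have hV2 : (⋂ z ∈ F ×ˢ F, {v : GA | z.1 ≠ z.2 → (k z.1 : GA)⁻¹ * k z.2 * v ∉ H}) ∈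
        𝓝 (1 : GA) := by
      rw [Filter.biInter_finset_mem]
      intro z hz
      by_cases hne : z.1 = z.2
      · exact Filter.mem_of_superset Filter.univ_mem fun v _ h => absurd hne h
      · exact Filter.mem_of_superset (hV z hz hne) fun v hv _ => hv
    obtain ⟨R, hR⟩ := L.basis _ hV2
    have hinj : Set.InjOn (fun c => (QuotientGroup.mk (L.ρ R (k c)) :
        L.Q R ⧸ T.LA.map (L.ρ R))) (F : Set (GA ⧸ H)) := by
      intro c hc c' hc' hcc
      by_contra hne
      have h1 : (QuotientGroup.mk (L.ρ R (k c)) : L.Q R ⧸ T.LA.map (L.ρ R)) =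
        QuotientGroup.mk (L.ρ R (k c')) := hcc
      rw [QuotientGroup.eq] at h1
      obtain ⟨lam, hlam, hlam2⟩ := h1
      have h2 : L.ρ R (((k c)⁻¹ * k c')⁻¹ * lam) = 1 := by
        rw [map_mul, hlam2, map_inv, map_mul, map_inv]
        group
      have h3 := hR _ h2
      rw [Set.mem_iInter₂] at h3
      have h4 := h3 (c, c') (Finset.mem_product.2 ⟨hc, hc'⟩) hne
      apply h4
      have h5 : (k c : GA)⁻¹ * k c' * ((((k c)⁻¹ * k c')⁻¹ * lam : T.KA) : GA) = (lam : GA) := by
        simp only [Subgroup.coe_mul, Subgroup.coe_inv]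
        group
      show (k c : GA)⁻¹ * k c' * ((((k c)⁻¹ * k c')⁻¹ * lam : T.KA) : GA) ∈ H
      rw [h5]
      obtain ⟨γ, hγ⟩ : (lam : GA) ∈ T.α.range := Subgroup.mem_subgroupOf.1 hlam
      rw [← hγ]
      exact hsub γ
    have h6 : F.card ≤ Nat.card (L.Q R ⧸ T.LA.map (L.ρ R)) := by
      have : Finite (L.Q R ⧸ T.LA.map (L.ρ R)) := Quotient.finite _
      have : Fintype (L.Q R ⧸ T.LA.map (L.ρ R)) := Fintype.ofFinite _
      rw [Nat.card_eq_fintype_card, ← Finset.card_image_of_injOn hinj]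
      exact Finset.card_le_univ _
    have h7 := hO R
    rw [Subgroup.index_eq_card] at h7
    omega
  have hfi : H.FiniteIndex := by
    have := hfin
    exact Subgroup.finiteIndex_of_finite_quotient
  have htop : H = ⊤ := ONE_fin GA hN H hcl
  have hdense : DenseRange T.α := by
    intro x
    have h1 : x ∈ (H : Set GA) := by
      rw [htop]
      trivial
    have h2 : (H : Set GA) = closure (T.α.range : Set GA) := Subgroup.topologicalClosure_coe
    rw [h2, MonoidHom.coe_range] at h1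
    exact h1
  refine ⟨fun R => ?_, hdense⟩
  rw [eq_top_iff]
  intro q _
  obtain ⟨κ, hκ⟩ := L.surj R q
  have hop : IsOpen ((fun g : GA => (κ : GA)⁻¹ * g) ⁻¹' {g : GA | ∃ k : T.KA, L.ρ R k = 1 ∧
      (k : GA) = g}) := (L.op R).preimage (by fun_prop)
  obtain ⟨γ, hγ⟩ := hdense.exists_mem_open hop ⟨(κ : GA), by
    refine ⟨1, map_one _, ?_⟩
    show ((1 : T.KA) : GA) = (κ : GA)⁻¹ * κ
    rw [inv_mul_cancel]
    rfl⟩
  obtain ⟨k', hk1, hk2⟩ := hγ
  refine ⟨κ * k', ?_, ?_⟩
  · show κ * k' ∈ T.LA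
    unfold Trans.LA
    rw [Subgroup.mem_subgroupOf]
    refine ⟨γ, ?_⟩
    rw [Subgroup.coe_mul, hk2, mul_inv_cancel_left]
  · rw [map_mul, hκ, hk1, mul_one]

end TauSG
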