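import Mathlib
import Pool.Agent.Work.MP_972ac7_sg.Interface

/-!
# Block PAIR: the pairs of letters are in the group (helper70)
-/

set_option autoImplicit false

open scoped Quaternion BigOperators

namespace TauSG

open TauQ (RR GG castR redM)
open TauO

lemma PAIR_unit (p q r : ℕ) (hr : r = p ∨ r = q) : IsUnit ((pst r : ℤ) : RR p q) := by
  have h1 : IsUnit ((algebraMap ℤ (RR p q)) (((p * q : ℕ) : ℤ))) :=
    IsLocalization.Away.algebraMap_isUnit (S := RR p q) (((p * q : ℕ) : ℤ))
  have h2 : (algebraMap ℤ (RR p q)) (((p * q : ℕ) : ℤ)) = (p : RR p q) * (q : RR p q) := by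
    rw [eq_intCast]
    push_cast
    rfl
  rw [h2] at h1
  have h3 : IsUnit (r : RR p q) := by
    rcases hr with rfl | rfl
    · exact isUnit_of_mul_isUnit_left h1
    · exact isUnit_of_mul_isUnit_right h1
  have h4 : IsUnit ((eps r : ℤ) : RR p q) := by
    apply IsUnit.of_mul_eq_one ((eps r : ℤ) : RR p q)
    rw [← Int.cast_mul, eps_sq, Int.cast_one]
  unfold pst
  rw [Int.cast_mul, Int.cast_natCast]
  exact h4.mul h3

theorem PAIR_thm : S_PAIR := by
  intro p q r hp hq hp2 hq2 hr b' b
  obtain ⟨v, hv⟩ := (PAIR_unit p q r hr).exists_right_inv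
  have hnorm : Quaternion.normSq (v • castR p q (b'.val * b.val)) = 1 := by
    rw [Quaternion.normSq_smul, TauQ.castR, TauQ.normSq_qmap, map_mul, b'.norm, b.norm]
    have h2 : ((pst r : ℤ) : RR p q) * ((pst r : ℤ) : RR p q) = (r : RR p q) * r := by
      rw [← Int.cast_mul, pst_sq]
      push_cast
      ring
    have h3 : (algebraMap ℤ (RR p q)) ((r : ℤ) * (r : ℤ)) = (r : RR p q) * r := by
      rw [eq_intCast]
      push_cast
      ring
    rw [h3, ← h2]
    calc v ^ 2 * (((pst r : ℤ) : RR p q) * ((pst r : ℤ) : RR p q))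
        = (((pst r : ℤ) : RR p q) * v) ^ 2 := by ring
      _ = 1 := by rw [hv, one_pow]
  have hx : ((pst r : ℤ) : ℍ[RR p q]) * (v • castR p q (b'.val * b.val)) =
      castR p q (b'.val * b.val) := by
    have h1 : ((pst r : ℤ) : ℍ[RR p q]) = (((pst r : ℤ) : RR p q) : ℍ[RR p q]) := by
      rw [Quaternion.coe_intCast]
    rw [h1, Quaternion.coe_mul_eq_smul, smul_smul, hv, one_smul]
  refine ⟨⟨⟨v • castR p q (b'.val * b.val), (TauQ.mem_unitary_iff _).2 hnorm⟩, ?_⟩, hx⟩
  rcases hr with h | h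
  · subst h
    refine ⟨1, 0, b'.val * b.val, SS.mul_old b' b, ?_⟩
    have : den r q 1 0 = pst r := by unfold den; ring
    rw [this]
    exact hx
  · subst h
    refine ⟨0, 1, b'.val * b.val, SS.mul_old b' b, ?_⟩
    have : den p r 0 1 = pst r := by unfold den; ring
    rw [this]
    exact hx

end TauSG
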