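import Mathlib
import Pool.Agent.Work.MP_972ac7_sg.Interface

/-! # Block PSI (helper21): the average over the second compact open subgroup -/

set_option autoImplicit false

open MeasureTheory
open scoped ENNReal

namespace TauSG

/-- Cauchy Schwarz on a probability space -/
lemma PSI_cs {X : Type*} [MeasurableSpace X] (μ : Measure X) [IsProbabilityMeasure μ] (g : X → ℂ)
    (hg : MemLp g 2 μ) : ‖∫ x, g x ∂μ‖ ^ 2 ≤ ∫ x, ‖g x‖ ^ 2 ∂μ := by
  have h1 : Integrable g μ := hg.integrable one_le_two
  have h2 : Integrable (fun x => ‖g x‖ ^ 2) μ := (memLp_two_iff_integrable_sq_norm hg.1).1 hg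
  set c := ∫ x, ‖g x‖ ∂μ with hc
  have h3 : 0 ≤ ∫ x, (‖g x‖ - c) ^ 2 ∂μ := integral_nonneg fun x => sq_nonneg _
  have h4 : ∫ x, (‖g x‖ - c) ^ 2 ∂μ = ∫ x, ‖g x‖ ^ 2 ∂μ - c ^ 2 := by
    have e : ∀ x, (‖g x‖ - c) ^ 2 = (‖g x‖ ^ 2 - 2 * c * ‖g x‖) + c ^ 2 := fun x => by ring
    have h5 : Integrable (fun x => 2 * c * ‖g x‖) μ := h1.norm.const_mul _
    have h6 : Integrable (fun x => ‖g x‖ ^ 2 - 2 * c * ‖g x‖) μ := h2.sub h5
    calc ∫ x, (‖g x‖ - c) ^ 2 ∂μ = ∫ x, ((‖g x‖ ^ 2 - 2 * c * ‖g x‖) + c ^ 2) ∂μ :=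
          integral_congr_ae (Filter.Eventually.of_forall e)
      _ = ∫ x, (‖g x‖ ^ 2 - 2 * c * ‖g x‖) ∂μ + ∫ x, c ^ 2 ∂μ :=
          integral_add h6 (integrable_const _)
      _ = (∫ x, ‖g x‖ ^ 2 ∂μ - ∫ x, 2 * c * ‖g x‖ ∂μ) + ∫ x, c ^ 2 ∂μ := by
          rw [integral_sub h2 h5]
      _ = (∫ x, ‖g x‖ ^ 2 ∂μ - 2 * c * c) + c ^ 2 := by
          rw [integral_const_mul, integral_const, probReal_univ, one_smul]
      _ = _ := by ring
  have h5 : ‖∫ x, g x ∂μ‖ ≤ c := norm_integral_le_integral_norm _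
  have h6 : ‖∫ x, g x ∂μ‖ ^ 2 ≤ c ^ 2 := pow_le_pow_left₀ (norm_nonneg _) h5 2
  linarith

section

variable {GA GB Λ : Type} [Group GA] [TopologicalSpace GA] [Group GB] [TopologicalSpace GB]
  [Group Λ] [MeasurableSpace GB]

lemma PSI_mk (T : Trans GA GB Λ) (μB : Measure GB) (φ : (GA × GB) ⧸ T.Γ → ℂ) (a : GA) (b : GB) :
    T.psi μB φ (QuotientGroup.mk (a, b)) =
      ∫ k in (T.KB : Set GB), φ (QuotientGroup.mk (a, k * b)) ∂μB := by
  unfold Trans.psi
  refine integral_congr_ae (Filter.Eventually.of_forall fun k => ?_)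
  have : ((1, k) : GA × GB) • (QuotientGroup.mk (a, b) : (GA × GB) ⧸ T.Γ) =
      QuotientGroup.mk (a, k * b) := by
    change (QuotientGroup.mk (((1, k) : GA × GB) * (a, b)) : (GA × GB) ⧸ T.Γ) = _
    rw [Prod.mk_mul_mk, one_mul]
  simp only [this]

lemma PSI_pre {K : Subgroup GB} {b : GB} (hb : b ∈ K) :
    (fun x : GB => x * b) ⁻¹' (K : Set GB) = K := by
  ext x
  simp only [Set.mem_preimage, SetLike.mem_coe]
  exact Subgroup.mul_mem_cancel_right _ hb

lemma PSI_pre' {K : Subgroup GB} {b : GB} (hb : b ∈ K) :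
    (fun x : GB => b * x) ⁻¹' (K : Set GB) = K := by
  ext x
  simp only [Set.mem_preimage, SetLike.mem_coe]
  exact Subgroup.mul_mem_cancel_left _ hb

lemma PSI_right [MeasurableMul GB] (K : Subgroup GB) (μ : Measure GB) [μ.IsMulRightInvariant]
    {b : GB} (hb : b ∈ K) (g : GB → ℂ) :
    ∫ k in (K : Set GB), g (k * b) ∂μ = ∫ k in (K : Set GB), g k ∂μ := by
  have h := (measurePreserving_mul_right μ b).setIntegral_preimage_emb
    (MeasurableEquiv.mulRight b).measurableEmbedding g (K : Set GB)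
  rw [PSI_pre hb] at h
  exact h

lemma PSI_rightL [MeasurableMul GB] (K : Subgroup GB) (μ : Measure GB) [μ.IsMulRightInvariant]
    {b : GB} (hb : b ∈ K) (g : GB → ℝ≥0∞) :
    ∫⁻ k in (K : Set GB), g (k * b) ∂μ = ∫⁻ k in (K : Set GB), g k ∂μ := by
  have h := (measurePreserving_mul_right μ b).setLIntegral_comp_preimage_emb
    (MeasurableEquiv.mulRight b).measurableEmbedding g (K : Set GB)
  rw [PSI_pre hb] at h
  exact h

end

theorem PSI_thm (hM : S_MEA) : S_PSI := by
  intro GA GB Λ _ _ _ _ _ _ _ _ _ _ _ _ _ _ _ _ _ T μA μB hA hB hRA hRB h1A h1B φ hφ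
  classical
  haveI := hA
  haveI := hB
  haveI := hRA
  haveI := hRB
  obtain ⟨hprob, hinv⟩ := hM GA GB Λ T μA μB hA hB hRA hRB h1A h1B
  haveI := hprob
  set π : GA × GB → (GA × GB) ⧸ T.Γ := QuotientGroup.mk with hπdef
  have hπ : Measurable π := QuotientGroup.measurable_coe
  have hKAm : MeasurableSet (T.KA : Set GA) := T.openA.measurableSet
  have hKBm : MeasurableSet (T.KB : Set GB) := T.openB.measurableSet
  set νA : Measure GA := μA.restrict (T.KA : Set GA) with hνA
  set νB : Measure GB := μB.restrict (T.KB : Set GB) with hνB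
  haveI pA : IsProbabilityMeasure νA := ⟨by rw [hνA, Measure.restrict_apply_univ, h1A]⟩
  haveI pB : IsProbabilityMeasure νB := ⟨by rw [hνB, Measure.restrict_apply_univ, h1B]⟩
  have hm : T.meas μA μB = Measure.map π (νA.prod νB) := by
    rw [Trans.meas, hνA, hνB, Measure.prod_restrict]
  -- the two algebraic facts
  have c3 : ∀ (φ : (GA × GB) ⧸ T.Γ → ℂ), ∀ k ∈ T.KB, ∀ x,
      T.psi μB φ (((1, k) : GA × GB) • x) = T.psi μB φ x := by
    intro φ k hk x
    unfold Trans.psi
    have h := PSI_right T.KB μB hk (fun k' => φ (((1, k') : GA × GB) • x))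
    rw [← h]
    refine integral_congr_ae (Filter.Eventually.of_forall fun k' => ?_)
    simp only
    rw [smul_smul, Prod.mk_mul_mk, one_mul]
  have c4 : ∀ (φ : (GA × GB) ⧸ T.Γ → ℂ), ∀ a : GA, ∀ b ∈ T.KB,
      T.psi μB φ (QuotientGroup.mk (a, b)) = T.phi0 μB φ a := by
    intro φ a b hb
    rw [PSI_mk]
    unfold Trans.phi0
    exact PSI_right T.KB μB hb (fun k => φ (QuotientGroup.mk (a, k)))
  -- the measurable version
  obtain ⟨φ', hφ'm, hae⟩ := hφ.1
  have hF : (fun p => φ (π p)) =ᵐ[νA.prod νB] fun p => φ' (π p) := by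
    rw [hm] at hae
    exact ae_of_ae_map hπ.aemeasurable hae
  have hFub : ∀ᵐ a ∂νA, ∀ᵐ b ∂νB, φ (π (a, b)) = φ' (π (a, b)) := Measure.ae_ae_of_ae_prod hF
  have h0 : T.phi0 μB φ =ᵐ[νA] T.phi0 μB φ' := by
    filter_upwards [hFub] with a ha
    exact integral_congr_ae ha
  have hBmem : ∀ᵐ b ∂νB, b ∈ T.KB := ae_restrict_mem hKBm
  have hsndmem : ∀ᵐ p ∂νA.prod νB, p.2 ∈ T.KB :=
    Measure.quasiMeasurePreserving_snd.ae hBmem
  have hpsi : T.psi μB φ =ᵐ[T.meas μA μB] T.psi μB φ' := by
    obtain ⟨N, hNs, hNm, hN0⟩ := exists_measurable_superset_of_null hae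
    set ind : (GA × GB) ⧸ T.Γ → ℝ≥0∞ := N.indicator 1 with hind
    have hindm : Measurable ind := measurable_one.indicator hNm
    set h : (GA × GB) ⧸ T.Γ → ℝ≥0∞ := fun x => ∫⁻ k, ind (((1, k) : GA × GB) • x) ∂νB with hh
    have hhmk : ∀ a b, h (π (a, b)) = ∫⁻ k, ind (π (a, k * b)) ∂νB := by
      intro a b
      simp only [hh]
      refine lintegral_congr fun k => ?_
      have : ((1, k) : GA × GB) • (π (a, b)) = π (a, k * b) := by
        change (QuotientGroup.mk (((1, k) : GA × GB) * (a, b)) : (GA × GB) ⧸ T.Γ) = _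
        rw [Prod.mk_mul_mk, one_mul]
      rw [this]
    have hhm : Measurable h := by
      refine QuotientGroup.measurable_from_quotient.2 ?_
      have e : (h ∘ ((↑) : GA × GB → (GA × GB) ⧸ T.Γ)) =
          fun p : GA × GB => ∫⁻ k, ind (π (p.1, k * p.2)) ∂νB := by
        funext p
        exact hhmk p.1 p.2
      rw [e]
      have hmm : Measurable fun z : (GA × GB) × GB => ind (π (z.1.1, z.2 * z.1.2)) := by
        refine hindm.comp (hπ.comp ?_)
        exact (measurable_fst.fst).prodMk (measurable_snd.mul measurable_fst.snd)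
      exact hmm.lintegral_prod_right'
    have hz : ∀ᵐ a ∂νA, ∫⁻ k, ind (π (a, k)) ∂νB = 0 := by
      have h1 : ∀ᵐ p ∂νA.prod νB, π p ∉ N := by
        have : ∀ᵐ x ∂(T.meas μA μB), x ∉ N := measure_eq_zero_iff_ae_notMem.1 hN0
        rw [hm] at this
        exact ae_of_ae_map hπ.aemeasurable this
      filter_upwards [Measure.ae_ae_of_ae_prod h1] with a ha
      refine lintegral_eq_zero_of_ae_eq_zero ?_
      filter_upwards [ha] with b hb
      simp [hind, hb]
    have hh0 : ∀ᵐ x ∂(T.meas μA μB), h x = 0 := by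
      rw [hm, ae_map_iff hπ.aemeasurable (measurableSet_eq_fun hhm measurable_const)]
      filter_upwards [Measure.quasiMeasurePreserving_fst.ae hz, hsndmem] with p hp hp2
      rw [show p = (p.1, p.2) from rfl, hhmk]
      rw [PSI_rightL T.KB μB hp2 (fun k => ind (π (p.1, k)))]
      exact hp
    filter_upwards [hh0] with x hx
    have h1 : ∀ᵐ k ∂νB, ind (((1, k) : GA × GB) • x) = 0 := by
      have hmm : Measurable fun k : GB => ind (((1, k) : GA × GB) • x) := by
        refine QuotientGroup.induction_on x fun p => ?_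
        have e : (fun k : GB => ind (((1, k) : GA × GB) • (QuotientGroup.mk p : (GA × GB) ⧸ T.Γ)))
            = fun k : GB => ind (π (1 * p.1, k * p.2)) := rfl
        rw [e]
        exact hindm.comp (hπ.comp (measurable_const.prodMk (measurable_id.mul_const _)))
      exact (lintegral_eq_zero_iff hmm).1 hx
    refine integral_congr_ae ?_
    filter_upwards [h1] with k hk
    by_contra hne
    have h2 : ((1, k) : GA × GB) • x ∈ N := hNs hne
    rw [hind, Set.indicator_of_mem h2] at hk
    exact one_ne_zero hk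
  -- measurability
  have hpsim : StronglyMeasurable (T.psi μB φ') := by
    refine Measurable.stronglyMeasurable ?_
    refine QuotientGroup.measurable_from_quotient.2 ?_
    have e : (T.psi μB φ' ∘ ((↑) : GA × GB → (GA × GB) ⧸ T.Γ)) =
        fun p : GA × GB => ∫ k, φ' (π (p.1, k * p.2)) ∂νB := by
      funext p
      exact PSI_mk T μB φ' p.1 p.2
    rw [e]
    have hmm : StronglyMeasurable fun z : (GA × GB) × GB => φ' (π (z.1.1, z.2 * z.1.2)) := by
      refine hφ'm.comp_measurable (hπ.comp ?_)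
      exact (measurable_fst.fst).prodMk (measurable_snd.mul measurable_fst.snd)
    exact hmm.integral_prod_right'.measurable
  have hF'm : StronglyMeasurable fun p : GA × GB => φ' (π p) := hφ'm.comp_measurable hπ
  have h0m : StronglyMeasurable (T.phi0 μB φ') := by
    have := hF'm.integral_prod_right' (ν := νB)
    exact this
  -- square integrability
  have hφ' : MemLp φ' 2 (T.meas μA μB) := (memLp_congr_ae hae).1 hφ
  have hF'2 : MemLp (fun p : GA × GB => φ' (π p)) 2 (νA.prod νB) := by
    rw [hm] at hφ'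
    exact (memLp_map_measure_iff hφ'm.aestronglyMeasurable hπ.aemeasurable).1 hφ'
  have hF'i : Integrable (fun p : GA × GB => ‖φ' (π p)‖ ^ 2) (νA.prod νB) :=
    (memLp_two_iff_integrable_sq_norm hF'2.1).1 hF'2
  have hsl : ∀ᵐ a ∂νA, MemLp (fun b => φ' (π (a, b))) 2 νB := by
    filter_upwards [hF'i.prod_right_ae] with a ha
    have hmm : StronglyMeasurable fun b => φ' (π (a, b)) :=
      hF'm.comp_measurable measurable_prodMk_left
    exact (memLp_two_iff_integrable_sq_norm hmm.aestronglyMeasurable).2 ha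
  have h0' : MemLp (T.phi0 μB φ') 2 νA := by
    refine (memLp_two_iff_integrable_sq_norm h0m.aestronglyMeasurable).2 ?_
    refine Integrable.mono' hF'i.integral_prod_left
      (h0m.norm.pow 2).aestronglyMeasurable ?_
    filter_upwards [hsl] with a ha
    rw [Real.norm_of_nonneg (by positivity)]
    exact PSI_cs νB _ ha
  have hcomp : (fun p => T.psi μB φ' (π p)) =ᵐ[νA.prod νB] fun p => T.phi0 μB φ' p.1 := by
    filter_upwards [hsndmem] with p hp
    exact c4 φ' p.1 p.2 hp
  have hfst : MemLp (fun p : GA × GB => T.phi0 μB φ' p.1) 2 (νA.prod νB) :=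
    h0'.comp_measurePreserving (measurePreserving_fst (μ := νA) (ν := νB))
  have hpsi' : MemLp (T.psi μB φ') 2 (T.meas μA μB) := by
    rw [hm]
    refine (memLp_map_measure_iff hpsim.aestronglyMeasurable hπ.aemeasurable).2 ?_
    exact (memLp_congr_ae hcomp).2 hfst
  refine ⟨(memLp_congr_ae hpsi).2 hpsi', (memLp_congr_ae h0).2 h0', c3 φ, c4 φ, ?_, ?_, ?_⟩
  · calc ∫ a, T.phi0 μB φ a ∂νA = ∫ a, T.phi0 μB φ' a ∂νA := integral_congr_ae h0
      _ = ∫ p, φ' (π p) ∂(νA.prod νB) :=
          (integral_prod _ (hF'2.integrable one_le_two)).symm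
      _ = ∫ x, φ' x ∂(T.meas μA μB) := by
          rw [hm, integral_map hπ.aemeasurable hφ'm.aestronglyMeasurable]
      _ = _ := (integral_congr_ae hae).symm
  · calc ∫ a, ‖T.phi0 μB φ a‖ ^ 2 ∂νA = ∫ a, ‖T.phi0 μB φ' a‖ ^ 2 ∂νA := by
          refine integral_congr_ae ?_
          filter_upwards [h0] with a ha
          rw [ha]
      _ = ∫ p, ‖T.phi0 μB φ' p.1‖ ^ 2 ∂(νA.prod νB) := by
          have hfm : Measure.map Prod.fst (νA.prod νB) = νA :=
            (measurePreserving_fst (μ := νA) (ν := νB)).map_eq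
          have h1 := integral_map (μ := νA.prod νB) (φ := Prod.fst) measurable_fst.aemeasurable
            (f := fun a => ‖T.phi0 μB φ' a‖ ^ 2)
            (by rw [hfm]; exact (h0m.norm.pow 2).aestronglyMeasurable)
          rw [hfm] at h1
          exact h1
      _ = ∫ p, ‖T.psi μB φ' (π p)‖ ^ 2 ∂(νA.prod νB) := by
          refine integral_congr_ae ?_
          filter_upwards [hcomp] with p hp
          rw [hp]
      _ = ∫ x, ‖T.psi μB φ' x‖ ^ 2 ∂(T.meas μA μB) := by
          rw [hm]
          exact (integral_map (μ := νA.prod νB) (φ := π) hπ.aemeasurable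
            (f := fun x => ‖T.psi μB φ' x‖ ^ 2) (hpsim.norm.pow 2).aestronglyMeasurable).symm
      _ = _ := by
          refine integral_congr_ae ?_
          filter_upwards [hpsi] with p hp
          rw [hp]
  · intro δ hδ
    -- the translates
    have hI : ∀ k ∈ T.KB, ∫ p, ‖φ' (π (p.1, k * p.2)) - φ' (π p)‖ ^ 2 ∂(νA.prod νB) ≤ δ := by
      intro k hk
      have h1 := hδ k⁻¹ (T.KB.inv_mem hk)
      refine le_trans (le_of_eq ?_) h1
      have hg : (((1, k⁻¹) : GA × GB))⁻¹ = (1, k) := by
        rw [Prod.inv_mk, inv_one, inv_inv]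
      rw [hg]
      have h2 : (fun x => φ (((1, k) : GA × GB) • x)) =ᵐ[T.meas μA μB]
          fun x => φ' (((1, k) : GA × GB) • x) :=
        (hinv (1, k)).quasiMeasurePreserving.ae_eq_comp hae
      have h3 : ∫ x, ‖φ (((1, k) : GA × GB) • x) - φ x‖ ^ 2 ∂(T.meas μA μB) =
          ∫ x, ‖φ' (((1, k) : GA × GB) • x) - φ' x‖ ^ 2 ∂(T.meas μA μB) := by
        refine integral_congr_ae ?_
        filter_upwards [h2, hae] with x hx hx'
        rw [hx, hx']
      rw [h3, hm, integral_map hπ.aemeasurable]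
      · refine integral_congr_ae (Filter.Eventually.of_forall fun p => ?_)
        have : ((1, k) : GA × GB) • (π p) = π (p.1, k * p.2) := by
          change (QuotientGroup.mk (((1, k) : GA × GB) * (p.1, p.2)) : (GA × GB) ⧸ T.Γ) = _
          rw [Prod.mk_mul_mk, one_mul]
        simp only [this]
      · have h4 : StronglyMeasurable fun x => φ' (((1, k) : GA × GB) • x) :=
          hφ'm.comp_measurable (hinv (1, k)).measurable
        exact ((h4.sub hφ'm).norm.pow 2).aestronglyMeasurable
    have hJm : StronglyMeasurable fun z : (GA × GB) × GB =>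
        ‖φ' (π (z.1.1, z.2 * z.1.2)) - φ' (π z.1)‖ ^ 2 := by
      have h1 : StronglyMeasurable fun z : (GA × GB) × GB => φ' (π (z.1.1, z.2 * z.1.2)) := by
        refine hφ'm.comp_measurable (hπ.comp ?_)
        exact (measurable_fst.fst).prodMk (measurable_snd.mul measurable_fst.snd)
      have h2 : StronglyMeasurable fun z : (GA × GB) × GB => φ' (π z.1) :=
        hF'm.comp_measurable measurable_fst
      exact (h1.sub h2).norm.pow 2
    have hleft : ∀ k ∈ T.KB, MeasurePreserving (fun b : GB => k * b) νB νB := by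
      intro k hk
      have h := (measurePreserving_mul_left μB k).restrict_preimage (s := (T.KB : Set GB)) hKBm
      rw [PSI_pre' hk] at h
      exact h
    have hright : ∀ k ∈ T.KB, MeasurePreserving (fun b : GB => b * k) νB νB := by
      intro k hk
      have h := (measurePreserving_mul_right μB k).restrict_preimage (s := (T.KB : Set GB)) hKBm
      rw [PSI_pre hk] at h
      exact h
    have hJk : ∀ k ∈ T.KB,
        Integrable (fun p : GA × GB => ‖φ' (π (p.1, k * p.2)) - φ' (π p)‖ ^ 2) (νA.prod νB) := by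
      intro k hk
      have h1 : MeasurePreserving (Prod.map id (fun b : GB => k * b)) (νA.prod νB)
          (νA.prod νB) := (MeasurePreserving.id νA).prod (hleft k hk)
      have h2 : MemLp (fun p : GA × GB => φ' (π (p.1, k * p.2))) 2 (νA.prod νB) :=
        hF'2.comp_measurePreserving h1
      have h3 := h2.sub hF'2
      exact (memLp_two_iff_integrable_sq_norm h3.1).1 h3
    have hJ : Integrable (fun z : (GA × GB) × GB =>
        ‖φ' (π (z.1.1, z.2 * z.1.2)) - φ' (π z.1)‖ ^ 2) ((νA.prod νB).prod νB) := by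
      rw [integrable_prod_iff' hJm.aestronglyMeasurable]
      constructor
      · filter_upwards [hBmem] with k hk
        exact hJk k hk
      · refine Integrable.of_bound (C := δ) ?_ ?_
        · exact (hJm.norm.integral_prod_left' (μ := νA.prod νB)).aestronglyMeasurable
        · filter_upwards [hBmem] with k hk
          rw [Real.norm_of_nonneg (integral_nonneg fun p => norm_nonneg _)]
          refine le_trans (le_of_eq ?_) (hI k hk)
          refine integral_congr_ae (Filter.Eventually.of_forall fun p => ?_)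
          simp only
          rw [Real.norm_of_nonneg (by positivity)]
    calc ∫ x, ‖φ x - T.psi μB φ x‖ ^ 2 ∂(T.meas μA μB)
        = ∫ x, ‖φ' x - T.psi μB φ' x‖ ^ 2 ∂(T.meas μA μB) := by
          refine integral_congr_ae ?_
          filter_upwards [hae, hpsi] with x hx hx'
          rw [hx, hx']
      _ = ∫ p, ‖φ' (π p) - T.psi μB φ' (π p)‖ ^ 2 ∂(νA.prod νB) := by
          rw [hm]
          exact integral_map (μ := νA.prod νB) (φ := π) hπ.aemeasurable
            (f := fun x => ‖φ' x - T.psi μB φ' x‖ ^ 2)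
            ((hφ'm.sub hpsim).norm.pow 2).aestronglyMeasurable
      _ ≤ ∫ p, (∫ k, ‖φ' (π (p.1, k * p.2)) - φ' (π p)‖ ^ 2 ∂νB) ∂(νA.prod νB) := by
          refine integral_mono_of_nonneg (Filter.Eventually.of_forall fun p => by positivity)
            hJ.integral_prod_left ?_
          filter_upwards [Measure.quasiMeasurePreserving_fst.ae hsl, hsndmem, hcomp] with p hp hp2 hc
          rw [hc]
          have h1 : MemLp (fun k => φ' (π (p.1, k * p.2))) 2 νB :=
            hp.comp_measurePreserving (hright p.2 hp2)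
          have h2 : MemLp (fun k => φ' (π (p.1, k * p.2)) - φ' (π p)) 2 νB :=
            h1.sub (memLp_const _)
          have h3 := PSI_cs νB _ h2
          refine le_trans (le_of_eq ?_) h3
          rw [integral_sub (h1.integrable one_le_two) (integrable_const _), integral_const]
          simp only [probReal_univ, one_smul]
          have h4 : T.phi0 μB φ' p.1 = ∫ k, φ' (π (p.1, k * p.2)) ∂νB :=
            (PSI_right T.KB μB hp2 (fun k => φ' (π (p.1, k)))).symm
          rw [← h4, norm_sub_rev]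
      _ = ∫ k, (∫ p, ‖φ' (π (p.1, k * p.2)) - φ' (π p)‖ ^ 2 ∂(νA.prod νB)) ∂νB :=
          integral_integral_swap hJ
      _ ≤ ∫ k, δ ∂νB := by
          refine integral_mono_ae hJ.integral_prod_right (integrable_const _) ?_
          filter_upwards [hBmem] with k hk
          exact hI k hk
      _ = δ := by
          rw [integral_const]
          simp

end TauSG
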