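import Mathlib
import Pool.Agent.Work.MP_972ac7_sg.Interface

/-! # MP_972ac7_al, block SG: the strong spectral gap from a gap at all levels (helper94) -/

set_option autoImplicit false

open MeasureTheory Pool.TFD
open scoped Quaternion BigOperators ENNReal

namespace TauSG

lemma SG_two (a b : ℂ) : ‖a‖ ^ 2 ≤ 2 * (‖b‖ ^ 2 + ‖a - b‖ ^ 2) := by
  have h1 : ‖a‖ ≤ ‖b‖ + ‖a - b‖ := by
    have := norm_add_le b (a - b)
    rwa [add_sub_cancel] at this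
  have h2 : ‖a‖ ^ 2 ≤ (‖b‖ + ‖a - b‖) ^ 2 := pow_le_pow_left₀ (norm_nonneg _) h1 2
  nlinarith [sq_nonneg (‖b‖ - ‖a - b‖)]

lemma SG_sq {X : Type} [MeasurableSpace X] {m : Measure X} {f : X → ℂ} (hf : MemLp f 2 m) :
    Integrable (fun x => ‖f x‖ ^ 2) m := (memLp_two_iff_integrable_sq_norm hf.1).1 hf

/-- the triangle inequality -/
lemma SG_tri {X : Type} [MeasurableSpace X] {m : Measure X} {φ ψ : X → ℂ} (hφ : MemLp φ 2 m)
    (hψ : MemLp ψ 2 m) :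
    ∫ x, ‖φ x‖ ^ 2 ∂m ≤ 2 * (∫ x, ‖ψ x‖ ^ 2 ∂m + ∫ x, ‖φ x - ψ x‖ ^ 2 ∂m) := by
  have i1 := SG_sq hφ
  have i2 := SG_sq hψ
  have i3 := SG_sq (hφ.sub hψ)
  simp only [Pi.sub_apply] at i3
  have h1 : ∫ x, ‖φ x‖ ^ 2 ∂m ≤ ∫ x, 2 * (‖ψ x‖ ^ 2 + ‖φ x - ψ x‖ ^ 2) ∂m := by
    apply integral_mono i1 ((i2.add i3).const_mul 2)
    intro x
    exact SG_two _ _
  rw [integral_const_mul, integral_add i2 i3] at h1
  exact h1

theorem SG_thm (hM : S_MEA) (hP : S_PSI) (hT : S_TRS) (hA : S_AVG) (hC : S_CVG) : S_SG := by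
  intro GA GB Λ _ _ _ _ _ _ _ _ _ _ _ _ _ _ _ _ _ T L μA μB hHA hHB hrA hrB hKA hKB ι _ s hs c hc
    hgap
  obtain ⟨hprob, hinv⟩ := hM GA GB Λ T μA μB hHA hHB hrA hrB hKA hKB
  have hη := fun i => hT GA GB Λ T μA μB hHA hHB hrA hrB hKA hKB (s i) (hs i)
  choose η hη0 hη using hη
  obtain ⟨S, hS⟩ : ∃ S : ℝ, S = ∑ i, 9 / η i := ⟨_, rfl⟩
  have hS0 : 0 ≤ S := by
    rw [hS]
    exact Finset.sum_nonneg fun i _ => div_nonneg (by norm_num) (hη0 i).le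
  -- the parameter
  obtain ⟨M, hM0, hM⟩ : ∃ M : ℝ, 0 < M ∧ M = 4 * (S / c + 1) := ⟨_, by positivity, rfl⟩
  refine ⟨(T.KB : Set GB) ∪ Set.range (fun i => T.β (s i)), T.compB.union
    (Set.finite_range _).isCompact, 1 / Real.sqrt M, by positivity, ?_⟩
  intro φ hφ hφ0
  by_contra hcon
  push Not at hcon
  have hδ : (1 / Real.sqrt M) ^ 2 = 1 / M := by
    rw [div_pow, Real.sq_sqrt hM0.le, one_pow]
  rw [hδ] at hcon
  obtain ⟨N, hN⟩ : ∃ N : ℝ, N = ∫ x, ‖φ x‖ ^ 2 ∂(T.meas μA μB) := ⟨_, rfl⟩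
  rw [← hN] at hcon
  have hN0 : 0 ≤ N := by
    rw [hN]
    exact integral_nonneg fun x => by positivity
  obtain ⟨Dd, hD⟩ : ∃ D : ℝ, D = 1 / M * N := ⟨_, rfl⟩
  rw [← hD] at hcon
  have hD0 : 0 ≤ Dd := by
    rw [hD]
    positivity
  have hKB' : ∀ k ∈ T.KB, ∫ x, ‖φ (((1, k) : GA × GB)⁻¹ • x) - φ x‖ ^ 2 ∂(T.meas μA μB) ≤ Dd :=
    fun k hk => (hcon k (Or.inl hk)).le
  have hS' : ∀ i, ∫ x, ‖φ (((1, T.β (s i)) : GA × GB)⁻¹ • x) - φ x‖ ^ 2 ∂(T.meas μA μB) ≤ Dd :=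
    fun i => (hcon _ (Or.inr ⟨i, rfl⟩)).le
  obtain ⟨hψ, hφ1, -, -, hint, hnorm, hψδ⟩ := hP GA GB Λ T μA μB hHA hHB hrA hrB hKA hKB φ hφ
  have h1 := hψδ Dd hKB'
  have h2 := fun i => hη i φ hφ Dd hKB' (hS' i)
  obtain ⟨hsum, htr⟩ := hA GA T.KA L μA T.compA T.openA hHA hrA hKA (T.phi0 μB φ) hφ1
  -- the function on `KA` is small
  have hsmall : ∫ a in (T.KA : Set GA), ‖T.phi0 μB φ a‖ ^ 2 ∂μA ≤ S * Dd / c := by
    refine le_of_forall_pos_le_add fun ε hε => ?_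
    obtain ⟨R, hR⟩ := hC GA T.KA L μA T.compA T.openA hHA hKA (T.phi0 μB φ) hφ1 ε hε
    have hcardpos : (0 : ℝ) < (Fintype.card (L.Q R) : ℝ) := by
      have : Nonempty (L.Q R) := ⟨1⟩
      exact_mod_cast Fintype.card_pos
    have hz : ∑ x, L.avg μA (T.phi0 μB φ) R x = 0 := by
      rw [hsum R, hint, hφ0, mul_zero]
    have h3 := hgap R _ hz
    have h4 : ∑ i, ∑ x, ‖L.avg μA (T.phi0 μB φ) R (x * L.ρ R ⟨T.α (s i), hs i⟩) -
        L.avg μA (T.phi0 μB φ) R x‖ ^ 2 ≤ Fintype.card (L.Q R) * (S * Dd) := by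
      have h5 : ∀ i ∈ (Finset.univ : Finset ι),
          ∑ x, ‖L.avg μA (T.phi0 μB φ) R (x * L.ρ R ⟨T.α (s i), hs i⟩) -
          L.avg μA (T.phi0 μB φ) R x‖ ^ 2 ≤ Fintype.card (L.Q R) * (9 / η i * Dd) := by
        intro i _
        refine (htr R ⟨T.α (s i), hs i⟩).trans ?_
        apply mul_le_mul_of_nonneg_left _ hcardpos.le
        rw [div_mul_eq_mul_div, le_div_iff₀ (hη0 i), mul_comm]
        exact h2 i
      refine (Finset.sum_le_sum h5).trans (le_of_eq ?_)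
      rw [← Finset.mul_sum, ← Finset.sum_mul, hS]
    have h6 : c * ((Fintype.card (L.Q R) : ℝ) *
        (∫ g in (T.KA : Set GA), ‖T.phi0 μB φ g‖ ^ 2 ∂μA - ε)) ≤
        Fintype.card (L.Q R) * (S * Dd) :=
      (mul_le_mul_of_nonneg_left hR hc.le).trans (h3.trans h4)
    have h7 : (Fintype.card (L.Q R) : ℝ) *
        (c * (∫ g in (T.KA : Set GA), ‖T.phi0 μB φ g‖ ^ 2 ∂μA - ε)) ≤
        Fintype.card (L.Q R) * (S * Dd) := by linarith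
    have h8 := le_of_mul_le_mul_left h7 hcardpos
    have h9 : ∫ g in (T.KA : Set GA), ‖T.phi0 μB φ g‖ ^ 2 ∂μA - ε ≤ S * Dd / c := by
      rw [le_div_iff₀ hc]
      linarith
    linarith
  have h3 := SG_tri hφ hψ
  rw [← hN, ← hnorm] at h3
  have h4 : N ≤ 2 * (S * Dd / c + Dd) := by linarith
  have h5 : 2 * (S * Dd / c + Dd) = N / 2 := by
    rw [hD, hM]
    have : S / c + 1 ≠ 0 := by positivity
    field_simp
    ring
  have h6 : N = 0 := by linarith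
  have h7 := hcon 1 (Or.inl T.KB.one_mem)
  rw [hD, h6, mul_zero] at h7
  have h8 : 0 ≤ ∫ x, ‖φ (((1, 1) : GA × GB)⁻¹ • x) - φ x‖ ^ 2 ∂(T.meas μA μB) :=
    integral_nonneg fun x => by positivity
  linarith

end TauSG
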