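import Mathlib
import Pool.Agent.Work.MP_972ac7_sg.Interface

/-!
# SIDE: the data of one side (helper52)
-/

open MeasureTheory Pool.TFD
open scoped Quaternion BigOperators ENNReal

namespace TauSG

open TauQ (RR GG castR redM)
open TauO

theorem SIDE_coe_mul {M : ℕ} (a : ℤ) (z : ℍ[ZMod M]) :
    ((a : ℤ) : ℍ[ZMod M]) * z = ((a : ℤ) : ZMod M) • z := by
  rw [← zsmul_eq_mul, Int.cast_smul_eq_zsmul]

theorem SIDE_thm (hIDX : S_IDX) (hLEV : S_LEV) (hPAIR : S_PAIR) (hWORD : S_WORD)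
    (hINT : S_INT) : S_SIDE := by
  intro p q l r _ hp hq hp2 hq2 hpq hlr h x y hxy
  have hl : l.Prime := Fact.out
  have hr : r.Prime := by
    rcases hlr with ⟨_, h2⟩ | ⟨_, h2⟩
    · rw [h2]; exact hq
    · rw [h2]; exact hp
  have hl2 : l ≠ 2 := by
    rcases hlr with ⟨h1, _⟩ | ⟨h1, _⟩
    · rw [h1]; exact hp2
    · rw [h1]; exact hq2
  have hr2 : r ≠ 2 := by
    rcases hlr with ⟨_, h2⟩ | ⟨_, h2⟩
    · rw [h2]; exact hq2
    · rw [h2]; exact hp2
  have hne : l ≠ r := by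
    rcases hlr with ⟨h1, h2⟩ | ⟨h1, h2⟩
    · rw [h1, h2]; exact hpq
    · rw [h1, h2]; exact hpq.symm
  have hrpq : r = p ∨ r = q := by
    rcases hlr with ⟨_, h2⟩ | ⟨_, h2⟩
    · exact Or.inr h2
    · exact Or.inl h2
  have hnd : ¬ (l : ℤ) ∣ pst r := by
    intro hd
    have h1 : (l : ℤ) ∣ r := by
      have h2 : (r : ℤ) = eps r * pst r := by
        unfold pst
        rw [← mul_assoc, eps_sq, one_mul]
      rw [h2]
      exact Dvd.dvd.mul_left hd _
    have h3 : l ∣ r := Int.natCast_dvd_natCast.1 h1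
    exact hne ((Nat.prime_dvd_prime_iff_eq hl hr).1 h3)
  have hM : ∀ R : ℕ, Nat.Coprime r (l ^ R) := fun R =>
    Nat.Coprime.pow_right R ((Nat.coprime_primes hr hl).2 hne.symm)
  haveI hNZ : ∀ R : ℕ, NeZero (l ^ R) := fun R => ⟨pow_ne_zero _ hl.ne_zero⟩
  choose sP hsP using hPAIR p q r hp hq hp2 hq2 hrpq
  obtain ⟨L, e, he⟩ := hLEV l hl2 x y hxy
  obtain ⟨g, O, hg, hI⟩ := hIDX l r hl hr hl2 hr2 hne
  set F : G1 p q →* Matrix.SpecialLinearGroup (Fin 2) ℚ_[l] :=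
    (emb p q l h hxy).comp (G1 p q).subtype with hF
  have hpair : ∀ (γ : G1 p q) (b' b : SS r),
      ((pst r : ℤ) : ℍ[RR p q]) * ((γ : GG p q) : ℍ[RR p q]) = castR p q (b'.val * b.val) →
      F γ ∈ KK l := fun γ b' b hγ => hINT p q l h x y hxy γ (pst r) _ hnd hγ
  have hval : ∀ (γ : G1 p q) (b' b : SS r)
      (_ : ((pst r : ℤ) : ℍ[RR p q]) * ((γ : GG p q) : ℍ[RR p q]) = castR p q (b'.val * b.val))
      (hm : F γ ∈ KK l) (R : ℕ), e R (L.ρ R ⟨F γ, hm⟩) = uM (l ^ R) (hM R) b' b := by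
    intro γ b' b hγ hm R
    apply Subtype.ext
    have h1 := he p q h γ (pst r) _ hnd hγ hm R
    have h2 : ((uM (l ^ R) (hM R) b' b : unitary ℍ[ZMod (l ^ R)]) : ℍ[ZMod (l ^ R)]) =
        ((((pst r : ℤ) : ZMod (l ^ R)))⁻¹) • redM (l ^ R) (b'.val * b.val) := rfl
    rw [h2, ← h1, SIDE_coe_mul, smul_smul, mul_comm _ (((pst r : ℤ) : ZMod (l ^ R))),
      pst_unit (hM R), one_smul]
    rfl
  have hs : ∀ i : SS r × SS r, F (sP i.1 i.2) ∈ KK l := fun i => hpair _ i.1 i.2 (hsP i.1 i.2)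
  -- the images of the lattice at the levels
  have hle : ∀ R, Subgroup.closure {z | ∃ b' b : SS r, z = uM (l ^ R) (hM R) b' b} ≤
      (((F.range).subgroupOf (KK l)).map (L.ρ R)).map (e R).toMonoidHom := by
    intro R
    rw [Subgroup.closure_le]
    rintro z ⟨b', b, rfl⟩
    refine ⟨L.ρ R ⟨F (sP b' b), hs (b', b)⟩, ⟨⟨F (sP b' b), hs (b', b)⟩, ?_, rfl⟩, ?_⟩
    · exact ⟨sP b' b, rfl⟩
    · exact hval _ b' b (hsP b' b) _ R
  have hge : ∀ R, (((F.range).subgroupOf (KK l)).map (L.ρ R)).map (e R).toMonoidHom ≤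
      Subgroup.closure {z | ∃ b' b : SS r, z = uM (l ^ R) (hM R) b' b} := by
    intro R
    rintro _ ⟨_, ⟨k, hk, rfl⟩, rfl⟩
    obtain ⟨γ, hγ⟩ := hk
    have hγK : F γ ∈ KK l := by
      have : F γ = (k : Matrix.SpecialLinearGroup (Fin 2) ℚ_[l]) := hγ
      rw [this]; exact k.2
    have hkγ : k = ⟨F γ, hγK⟩ := Subtype.ext hγ.symm
    have hcl := hWORD p q l r hp hq hp2 hq2 hpq hlr h x y hxy γ hγK
    have key : ∃ hm : F γ ∈ KK l, e R (L.ρ R ⟨F γ, hm⟩) ∈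
        Subgroup.closure {z | ∃ b' b : SS r, z = uM (l ^ R) (hM R) b' b} := by
      refine Subgroup.closure_induction (p := fun γ _ => ∃ hm : F γ ∈ KK l,
        e R (L.ρ R ⟨F γ, hm⟩) ∈
          Subgroup.closure {z | ∃ b' b : SS r, z = uM (l ^ R) (hM R) b' b}) ?_ ?_ ?_ ?_ hcl
      · rintro γ' ⟨b', b, hb⟩
        refine ⟨hpair γ' b' b hb, ?_⟩
        rw [hval γ' b' b hb]
        exact Subgroup.subset_closure ⟨b', b, rfl⟩
      · refine ⟨by rw [map_one]; exact one_mem _, ?_⟩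
        have h1 : (⟨F 1, by rw [map_one]; exact one_mem _⟩ : KK l) = 1 :=
          Subtype.ext (map_one F)
        rw [h1, map_one, map_one]
        exact one_mem _
      · rintro a b _ _ ⟨ha, ha'⟩ ⟨hb, hb'⟩
        refine ⟨by rw [map_mul]; exact mul_mem ha hb, ?_⟩
        have h1 : (⟨F (a * b), by rw [map_mul]; exact mul_mem ha hb⟩ : KK l) =
            ⟨F a, ha⟩ * ⟨F b, hb⟩ := Subtype.ext (map_mul F a b)
        rw [h1, map_mul, map_mul]
        exact mul_mem ha' hb'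
      · rintro a _ ⟨ha, ha'⟩
        refine ⟨by rw [map_inv]; exact inv_mem ha, ?_⟩
        have h1 : (⟨F a⁻¹, by rw [map_inv]; exact inv_mem ha⟩ : KK l) = (⟨F a, ha⟩)⁻¹ :=
          Subtype.ext (map_inv F a)
        rw [h1, map_inv, map_inv]
        exact inv_mem ha'
    obtain ⟨hm, hmem⟩ := key
    rw [hkγ]
    exact hmem
  refine ⟨L, O, 2 * g, fun i => sP i.1 i.2, hs, by positivity, ?_, ?_⟩
  · intro R
    have h1 := (hI R (hM R)).1
    refine le_trans ?_ h1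
    have h2 : (((F.range).subgroupOf (KK l)).map (L.ρ R)).index =
        ((((F.range).subgroupOf (KK l)).map (L.ρ R)).map (e R).toMonoidHom).index :=
      (Subgroup.index_map_equiv _ (e R)).symm
    rw [h2]
    refine Nat.le_of_dvd (Nat.pos_of_ne_zero Subgroup.index_ne_zero_of_finite)
      (Subgroup.index_dvd_of_le (hle R))
  · intro hT R f hf
    have h1 := (hI R (hM R)).2 (by
      rw [eq_top_iff]
      refine le_trans ?_ (hge R)
      rw [hT R, ← MonoidHom.range_eq_map]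
      intro z _
      exact ⟨(e R).symm z, (e R).apply_symm_apply z⟩)
    -- from left to right
    have h2 := h1 (fun u => f (((e R).symm u)⁻¹)) (by
      rw [← hf]
      exact Fintype.sum_equiv ((e R).symm.toEquiv.trans (Equiv.inv _)) _ _ (fun u => rfl))
    have h3 : ∑ u : unitary ℍ[ZMod (l ^ R)], ‖f (((e R).symm u)⁻¹)‖ ^ 2 = ∑ x, ‖f x‖ ^ 2 :=
      Fintype.sum_equiv ((e R).symm.toEquiv.trans (Equiv.inv _)) _ _ (fun u => rfl)
    rw [h3] at h2
    refine h2.trans (le_of_eq ?_)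
    rw [Fintype.sum_prod_type]
    refine Finset.sum_congr rfl fun b' _ => Finset.sum_congr rfl fun b _ => ?_
    have h4 : (e R).symm (uM (l ^ R) (hM R) b' b) = L.ρ R ⟨F (sP b' b), hs (b', b)⟩ := by
      rw [← hval (sP b' b) b' b (hsP b' b) (hs (b', b)) R]
      exact (e R).symm_apply_apply _
    -- u ↦ (e.symm (uM * u))⁻¹
    refine Fintype.sum_equiv ((Equiv.mulLeft (uM (l ^ R) (hM R) b' b)).trans
      ((e R).symm.toEquiv.trans (Equiv.inv _))) _ _ (fun u => ?_)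
    have h5 : ((Equiv.mulLeft (uM (l ^ R) (hM R) b' b)).trans
      ((e R).symm.toEquiv.trans (Equiv.inv _))) u =
        ((e R).symm (uM (l ^ R) (hM R) b' b * u))⁻¹ := rfl
    rw [h5]
    have h6 : ((e R).symm (uM (l ^ R) (hM R) b' b * u))⁻¹ *
        L.ρ R ⟨F (sP b' b), hs (b', b)⟩ = ((e R).symm u)⁻¹ := by
      rw [map_mul, mul_inv_rev, h4, mul_assoc, inv_mul_cancel, mul_one]
    show ‖f (((e R).symm (uM (l ^ R) (hM R) b' b * u))⁻¹) - f (((e R).symm u)⁻¹)‖ ^ 2 =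
      ‖f (((e R).symm (uM (l ^ R) (hM R) b' b * u))⁻¹ * L.ρ R ⟨F (sP b' b), hs (b', b)⟩) -
        f (((e R).symm (uM (l ^ R) (hM R) b' b * u))⁻¹)‖ ^ 2
    rw [h6, norm_sub_rev]

end TauSG
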