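import Mathlib
import Pool.Agent.Work.MP_972ac7_sg.Interface

/-! Block SPL (helper39): `x ^ 2 + y ^ 2 = -1` is soluble in the `l`-adic integers, `l` odd. -/

namespace TauSG

open Polynomial

theorem SPL_aux (l : ℕ) [Fact l.Prime] (hl : l ≠ 2) (a b : ZMod l) (hab : a ^ 2 + b ^ 2 = -1)
    (ha : a ≠ 0) : ∃ x y : ℤ_[l], x ^ 2 + y ^ 2 = -1 := by
  have hlp : l.Prime := Fact.out
  set A : ℤ_[l] := ((a.val : ℕ) : ℤ_[l]) with hA
  set B : ℤ_[l] := ((b.val : ℕ) : ℤ_[l]) with hB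
  have mA : PadicInt.toZMod A = a := by
    rw [hA, map_natCast, ZMod.natCast_zmod_val]
  have mB : PadicInt.toZMod B = b := by
    rw [hB, map_natCast, ZMod.natCast_zmod_val]
  set F : ℤ_[l][X] := X ^ 2 + C (B ^ 2 + 1) with hF
  have e1 : F.aeval A = A ^ 2 + (B ^ 2 + 1) := by
    rw [hF]; simp
  have e2 : F.derivative.aeval A = 2 * A := by
    rw [hF, derivative_add, derivative_C, derivative_X_pow]
    simp
  have key : ∀ z : ℤ_[l], PadicInt.toZMod z = 0 ↔ ‖z‖ < 1 := by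
    intro z
    rw [← RingHom.mem_ker, PadicInt.ker_toZMod, PadicInt.maximalIdeal_eq_span_p,
      Ideal.mem_span_singleton, PadicInt.norm_lt_one_iff_dvd]
  have n1 : ‖F.aeval A‖ < 1 := by
    rw [← key, e1, map_add, map_add, map_pow, map_pow, map_one, mA, mB, ← add_assoc, hab]
    ring
  have h2 : (2 : ZMod l) ≠ 0 := by
    intro h
    have h3 : ((2 : ℕ) : ZMod l) = 0 := by exact_mod_cast h
    rw [ZMod.natCast_eq_zero_iff] at h3
    exact hl ((Nat.prime_dvd_prime_iff_eq hlp Nat.prime_two).1 h3)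
  have n2 : ‖F.derivative.aeval A‖ = 1 := by
    refine le_antisymm (PadicInt.norm_le_one _) ?_
    by_contra hlt
    push Not at hlt
    rw [← key, e2, map_mul, mA, map_ofNat] at hlt
    rcases mul_eq_zero.1 hlt with h | h
    · exact h2 h
    · exact ha h
  have hn : ‖F.aeval A‖ < ‖F.derivative.aeval A‖ ^ 2 := by
    rw [n2, one_pow]
    exact n1
  obtain ⟨z, hz, -⟩ := hensels_lemma hn
  refine ⟨z, B, ?_⟩
  have e3 : F.aeval z = z ^ 2 + (B ^ 2 + 1) := by
    rw [hF]; simp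
  rw [e3] at hz
  linear_combination hz

theorem SPL_thm : S_SPL := by
  intro l _ hl
  obtain ⟨a, b, hab⟩ := ZMod.sq_add_sq l (-1)
  by_cases ha : a = 0
  · have hb : b ≠ 0 := by
      rintro rfl
      rw [ha] at hab
      have h1 : (1 : ZMod l) = 0 := by
        have h2 : (-1 : ZMod l) = 0 := by rw [← hab]; ring
        rw [← neg_neg (1 : ZMod l), h2, neg_zero]
      exact one_ne_zero h1
    obtain ⟨x, y, h⟩ := SPL_aux l hl b a (by rw [add_comm]; exact hab) hb
    exact ⟨x, y, h⟩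
  · exact SPL_aux l hl a b hab ha

end TauSG
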