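import Mathlib
import Pool.Agent.Work.MP_972ac7_sg.Interface

/-! # MP_972ac7_al, block TOPL: the topology of `SL2(ℚ_l)` (helper63) -/

set_option autoImplicit false

open MeasureTheory Pool.TFD
open scoped Quaternion BigOperators ENNReal

namespace TauSG

theorem TOPL_algebraMap (l : ℕ) [Fact l.Prime] (x : ℤ_[l]) :
    algebraMap ℤ_[l] ℚ_[l] x = (x : ℚ_[l]) := rfl

theorem TOPL_cont (l : ℕ) [Fact l.Prime] : Continuous (algebraMap ℤ_[l] ℚ_[l]) :=
  continuous_subtype_val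

theorem TOPL_mem (l : ℕ) [Fact l.Prime] (g : Matrix.SpecialLinearGroup (Fin 2) ℚ_[l]) :
    g ∈ KK l ↔ ∀ i j, ‖(g : Matrix (Fin 2) (Fin 2) ℚ_[l]) i j‖ ≤ 1 := by
  constructor
  · rintro ⟨A, rfl⟩ i j
    show ‖algebraMap ℤ_[l] ℚ_[l] ((A : Matrix (Fin 2) (Fin 2) ℤ_[l]) i j)‖ ≤ 1
    rw [TOPL_algebraMap]
    exact PadicInt.norm_le_one _
  · intro h
    let A : Matrix (Fin 2) (Fin 2) ℤ_[l] := fun i j => ⟨(g : Matrix (Fin 2) (Fin 2) ℚ_[l]) i j, h i j⟩
    have hA : (algebraMap ℤ_[l] ℚ_[l]).mapMatrix A = (g : Matrix (Fin 2) (Fin 2) ℚ_[l]) := by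
      ext i j
      rfl
    have hdet : A.det = 1 := by
      have h1 : algebraMap ℤ_[l] ℚ_[l] A.det = 1 := by
        rw [RingHom.map_det, hA]
        exact g.2
      apply Subtype.ext
      exact h1
    refine ⟨⟨A, hdet⟩, ?_⟩
    apply Subtype.ext
    exact hA

theorem TOPL_thm : S_TOPL := by
  intro l _
  have hval : Topology.IsClosedEmbedding
      ((↑) : Matrix.SpecialLinearGroup (Fin 2) ℚ_[l] → Matrix (Fin 2) (Fin 2) ℚ_[l]) :=
    Matrix.SpecialLinearGroup.isClosedEmbedding_val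
  have hvalZ : Topology.IsClosedEmbedding
      ((↑) : Matrix.SpecialLinearGroup (Fin 2) ℤ_[l] → Matrix (Fin 2) (Fin 2) ℤ_[l]) :=
    Matrix.SpecialLinearGroup.isClosedEmbedding_val
  have : LocallyCompactSpace (Matrix (Fin 2) (Fin 2) ℚ_[l]) :=
    inferInstanceAs (LocallyCompactSpace (Fin 2 → Fin 2 → ℚ_[l]))
  have : SecondCountableTopology (Matrix (Fin 2) (Fin 2) ℚ_[l]) :=
    inferInstanceAs (SecondCountableTopology (Fin 2 → Fin 2 → ℚ_[l]))
  have : T2Space (Matrix (Fin 2) (Fin 2) ℚ_[l]) :=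
    inferInstanceAs (T2Space (Fin 2 → Fin 2 → ℚ_[l]))
  have : CompactSpace (Matrix (Fin 2) (Fin 2) ℤ_[l]) :=
    inferInstanceAs (CompactSpace (Fin 2 → Fin 2 → ℤ_[l]))
  have : CompactSpace (Matrix.SpecialLinearGroup (Fin 2) ℤ_[l]) := hvalZ.compactSpace
  refine ⟨hval.locallyCompactSpace, hval.isEmbedding.secondCountableTopology,
    hval.isEmbedding.t2Space, ?_, ?_⟩
  · have h1 : (KK l : Set (Matrix.SpecialLinearGroup (Fin 2) ℚ_[l])) =
        Set.range (Matrix.SpecialLinearGroup.map (n := Fin 2) (algebraMap ℤ_[l] ℚ_[l])) := rfl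
    rw [h1]
    exact isCompact_range (TOPL_cont l).specialLinearGroup_map
  · have h1 : (KK l : Set (Matrix.SpecialLinearGroup (Fin 2) ℚ_[l])) =
        ⋂ i : Fin 2, ⋂ j : Fin 2, {g : Matrix.SpecialLinearGroup (Fin 2) ℚ_[l] |
          ‖(g : Matrix (Fin 2) (Fin 2) ℚ_[l]) i j‖ ≤ 1} := by
      ext g
      rw [SetLike.mem_coe, TOPL_mem]
      simp
    rw [h1]
    refine isOpen_iInter_of_finite fun i => isOpen_iInter_of_finite fun j => ?_
    have h2 : IsOpen (Metric.closedBall (0 : ℚ_[l]) 1) :=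
      IsUltrametricDist.isOpen_closedBall _ one_ne_zero
    have h3 : Continuous (fun g : Matrix.SpecialLinearGroup (Fin 2) ℚ_[l] =>
        (g : Matrix (Fin 2) (Fin 2) ℚ_[l]) i j) :=
      (continuous_apply_apply i j).comp continuous_subtype_val
    have h4 := h2.preimage h3
    convert h4 using 1
    ext g
    simp

end TauSG
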