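import Mathlib
import Pool.Agent.Work.MP_972ac7_sg.Interface

/-!
# Block TRIV: an element of the lattice which is integral at `p` and at `q` is trivial
-/

open MeasureTheory Pool.TFD
open scoped Quaternion BigOperators ENNReal

namespace TauSG

open TauQ (RR GG castR redM)
open TauO

lemma TRIV_unit_pq (p q : ℕ) : IsUnit (((p * q : ℕ) : ℤ) : RR p q) := by
  have h := IsLocalization.Away.algebraMap_isUnit (S := RR p q) (((p * q : ℕ) : ℤ))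
  rwa [eq_intCast] at h

lemma TRIV_unit_p (p q : ℕ) : IsUnit (p : RR p q) := by
  refine isUnit_of_dvd_unit ?_ (TRIV_unit_pq p q)
  exact ⟨(q : RR p q), by push_cast; ring⟩

lemma TRIV_unit_q (p q : ℕ) : IsUnit (q : RR p q) := by
  refine isUnit_of_dvd_unit ?_ (TRIV_unit_pq p q)
  exact ⟨(p : RR p q), by push_cast; ring⟩

lemma TRIV_unit_pst {p q r : ℕ} (hr : IsUnit (r : RR p q)) : IsUnit (((pst r : ℤ) : RR p q)) := by
  have h1 : ((pst r : ℤ) : RR p q) * ((pst r : ℤ) : RR p q) = (r : RR p q) * (r : RR p q) := by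
    rw [← Int.cast_mul, pst_sq]
    push_cast
    ring
  refine isUnit_of_mul_isUnit_left (y := ((pst r : ℤ) : RR p q)) ?_
  rw [h1]
  exact hr.mul hr

lemma TRIV_unit_den (p q i j : ℕ) : IsUnit (((den p q i j : ℤ) : RR p q)) := by
  rw [den, Int.cast_mul, Int.cast_pow, Int.cast_pow]
  exact ((TRIV_unit_pst (TRIV_unit_p p q)).pow i).mul ((TRIV_unit_pst (TRIV_unit_q p q)).pow j)

lemma TRIV_cancel (p q : ℕ) (n : ℤ) (hn : IsUnit (n : RR p q)) (x y : ℍ[RR p q])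
    (h : (n : ℍ[RR p q]) * x = (n : ℍ[RR p q]) * y) : x = y := by
  have h1 := hn.map (algebraMap (RR p q) ℍ[RR p q])
  rw [map_intCast] at h1
  exact h1.mul_left_cancel h

lemma TRIV_comp (p q : ℕ) (n : ℤ) (z : ℍ[RR p q]) (α : ℍ[ℤ])
    (h : (n : ℍ[RR p q]) * z = castR p q α) :
    (n : RR p q) * z.re = ((α.re : ℤ) : RR p q) ∧ (n : RR p q) * z.imI = ((α.imI : ℤ) : RR p q) ∧
    (n : RR p q) * z.imJ = ((α.imJ : ℤ) : RR p q) ∧ (n : RR p q) * z.imK = ((α.imK : ℤ) : RR p q) := by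
  have e1 := congrArg (fun w : ℍ[RR p q] => w.re) h
  have e2 := congrArg (fun w : ℍ[RR p q] => w.imI) h
  have e3 := congrArg (fun w : ℍ[RR p q] => w.imJ) h
  have e4 := congrArg (fun w : ℍ[RR p q] => w.imK) h
  refine ⟨?_, ?_, ?_, ?_⟩
  · simpa [castR] using e1
  · simpa [castR] using e2
  · simpa [castR] using e3
  · simpa [castR] using e4

lemma TRIV_dvd (l : ℕ) [Fact l.Prime] (hl : l ≠ 2) (i : ℕ) (D a : ℤ) (w : ℤ_[l]) (z : ℚ_[l])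
    (h1 : (D : ℚ_[l]) * z = (a : ℚ_[l])) (h2 : 2 * z = (w : ℚ_[l])) (hD : ((l : ℤ) ^ i) ∣ D) :
    ((l : ℤ) ^ i) ∣ a := by
  have h3 : (((2 * a : ℤ)) : ℤ_[l]) = ((D : ℤ) : ℤ_[l]) * w := by
    apply Subtype.ext
    have e : ((2 * a : ℤ) : ℚ_[l]) = (D : ℚ_[l]) * (w : ℚ_[l]) := by
      rw [← h2, Int.cast_mul, ← h1]
      push_cast
      ring
    rw [PadicInt.coe_mul, PadicInt.coe_intCast, PadicInt.coe_intCast]
    exact e
  have h4 : ‖(((2 * a : ℤ)) : ℤ_[l])‖ ≤ (l : ℝ) ^ (-i : ℤ) := by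
    rw [h3, norm_mul]
    have h5 := PadicInt.norm_int_le_pow_iff_dvd.2 hD
    calc ‖((D : ℤ) : ℤ_[l])‖ * ‖w‖ ≤ (l : ℝ) ^ (-i : ℤ) * 1 :=
          mul_le_mul h5 (PadicInt.norm_le_one w) (norm_nonneg _) (by positivity)
      _ = _ := mul_one _
  have h6 := PadicInt.norm_int_le_pow_iff_dvd.1 h4
  have h7 : IsCoprime ((l : ℤ) ^ i) 2 := by
    have h8 : Nat.Coprime (l ^ i) 2 :=
      Nat.Coprime.pow_left i ((Nat.coprime_primes (Fact.out : l.Prime) Nat.prime_two).2 hl)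
    have h9 := Nat.isCoprime_iff_coprime.2 h8
    push_cast at h9
    exact h9
  exact h7.dvd_of_dvd_mul_left h6

/-- integral entries of the matrix give integral coordinates, up to the factor two -/
lemma TRIV_two (l : ℕ) [Fact l.Prime] (x y : ℤ_[l]) (hxy : IsSpl l x y) (z : ℍ[ℚ_[l]])
    (B : Fin 2 → Fin 2 → ℤ_[l]) (hB : ∀ i j, matQ (x : ℚ_[l]) (y : ℚ_[l]) z i j = (B i j : ℚ_[l])) :
    (∃ w : ℤ_[l], 2 * z.re = (w : ℚ_[l])) ∧ (∃ w : ℤ_[l], 2 * z.imI = (w : ℚ_[l])) ∧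
    (∃ w : ℤ_[l], 2 * z.imJ = (w : ℚ_[l])) ∧ (∃ w : ℤ_[l], 2 * z.imK = (w : ℚ_[l])) := by
  have hc := hxy.coe
  have h00 := hB 0 0
  have h01 := hB 0 1
  have h10 := hB 1 0
  have h11 := hB 1 1
  simp only [matQ, Matrix.of_apply, Matrix.cons_val', Matrix.cons_val_zero, Matrix.cons_val_one,
    Matrix.cons_val_fin_one] at h00 h01 h10 h11
  refine ⟨⟨B 0 0 + B 1 1, ?_⟩, ⟨-((B 0 0 - B 1 1) * x + (B 0 1 + B 1 0) * y), ?_⟩,
    ⟨B 0 1 - B 1 0, ?_⟩, ⟨-((B 0 1 + B 1 0) * x - (B 0 0 - B 1 1) * y), ?_⟩⟩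
  · push_cast
    rw [← h00, ← h11]
    ring
  · push_cast
    rw [← h00, ← h11, ← h01, ← h10]
    linear_combination (2 * z.imI) * hc
  · push_cast
    rw [← h01, ← h10]
    ring
  · push_cast
    rw [← h00, ← h11, ← h01, ← h10]
    linear_combination (2 * z.imK) * hc

lemma TRIV_emb (p q l : ℕ) [Fact l.Prime] (h : p * q ≠ 0) (x y : ℤ_[l]) (hxy : IsSpl l x y)
    (γ : GG p q) (hγ : emb p q l h hxy γ ∈ KK l) :
    (∃ w : ℤ_[l], 2 * toQ p q l h (γ : ℍ[RR p q]).re = (w : ℚ_[l])) ∧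
    (∃ w : ℤ_[l], 2 * toQ p q l h (γ : ℍ[RR p q]).imI = (w : ℚ_[l])) ∧
    (∃ w : ℤ_[l], 2 * toQ p q l h (γ : ℍ[RR p q]).imJ = (w : ℚ_[l])) ∧
    (∃ w : ℤ_[l], 2 * toQ p q l h (γ : ℍ[RR p q]).imK = (w : ℚ_[l])) := by
  obtain ⟨B, hB⟩ := hγ
  have h1 : ∀ i j, matQ (x : ℚ_[l]) (y : ℚ_[l]) (TauQ.qmap (toQ p q l h) (γ : ℍ[RR p q])) i j =
      ((B : Matrix (Fin 2) (Fin 2) ℤ_[l]) i j : ℚ_[l]) := by
    intro i j
    have h2 := congrArg (fun X : Matrix.SpecialLinearGroup (Fin 2) ℚ_[l] =>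
      (X : Matrix (Fin 2) (Fin 2) ℚ_[l]) i j) hB
    exact h2.symm
  exact TRIV_two l x y hxy _ _ h1

lemma TRIV_pst_mod {r : ℕ} (hr : r.Prime) (hr2 : r ≠ 2) : pst r % 4 = 1 := by
  have h1 : r % 2 = 1 := hr.eq_two_or_odd.resolve_left hr2
  have h2 : r % 4 = 1 ∨ r % 4 = 3 := by omega
  rcases h2 with h | h
  · rw [pst, eps_one h]
    omega
  · rw [pst, eps_three h]
    omega

lemma TRIV_mod_pow {a : ℤ} (ha : a % 4 = 1) (n : ℕ) : a ^ n % 4 = 1 := by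
  induction n with
  | zero => norm_num
  | succ n ih => rw [pow_succ, Int.mul_emod, ih, ha]; norm_num

lemma TRIV_pst_dvd (r : ℕ) : (r : ℤ) ∣ pst r ∧ pst r ∣ (r : ℤ) := by
  constructor
  · exact ⟨eps r, by rw [pst]; ring⟩
  · refine ⟨eps r, ?_⟩
    rw [pst, mul_right_comm, eps_sq, one_mul]

theorem TRIV_thm : S_TRIV := by
  intro p q _ _ hp2 hq2 hpq h x y hxy x' y' hxy' γ h1 h2
  have hp : p.Prime := Fact.out
  have hq : q.Prime := Fact.out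
  obtain ⟨i, j, α, hα, hγα⟩ := γ.2
  obtain ⟨D, hD⟩ : ∃ D : ℤ, D = den p q i j := ⟨_, rfl⟩
  have hDu := TRIV_unit_den p q i j
  rw [← hD] at hγα hDu
  have hD4 : D % 4 = 1 := by
    rw [hD, den, Int.mul_emod, TRIV_mod_pow (TRIV_pst_mod hp hp2), TRIV_mod_pow (TRIV_pst_mod hq hq2)]
    norm_num
  have hDp : ((p : ℤ) ^ i) ∣ D := by
    rw [hD, den]
    exact (pow_dvd_pow_of_dvd (TRIV_pst_dvd p).1 i).mul_right _
  have hDq : ((q : ℤ) ^ j) ∣ D := by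
    rw [hD, den]
    exact (pow_dvd_pow_of_dvd (TRIV_pst_dvd q).1 j).mul_left _
  have hcop : IsCoprime ((p : ℤ) ^ i) ((q : ℤ) ^ j) := by
    have h8 : Nat.Coprime (p ^ i) (q ^ j) :=
      Nat.Coprime.pow _ _ ((Nat.coprime_primes hp hq).2 hpq)
    have h9 := Nat.isCoprime_iff_coprime.2 h8
    push_cast at h9
    exact h9
  have hDd : D ∣ (p : ℤ) ^ i * (q : ℤ) ^ j := by
    rw [hD, den]
    exact mul_dvd_mul (pow_dvd_pow_of_dvd (TRIV_pst_dvd p).2 i) (pow_dvd_pow_of_dvd (TRIV_pst_dvd q).2 j)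
  obtain ⟨c1, c2, c3, c4⟩ := TRIV_comp p q D _ α hγα
  obtain ⟨⟨w1, e1⟩, ⟨w2, e2⟩, ⟨w3, e3⟩, ⟨w4, e4⟩⟩ := TRIV_emb p q p h x y hxy _ h1
  obtain ⟨⟨v1, f1⟩, ⟨v2, f2⟩, ⟨v3, f3⟩, ⟨v4, f4⟩⟩ := TRIV_emb p q q h x' y' hxy' _ h2
  have key : ∀ (a : ℤ) (t : RR p q) (w : ℤ_[p]) (v : ℤ_[q]), (D : RR p q) * t = ((a : ℤ) : RR p q) →
      2 * toQ p q p h t = (w : ℚ_[p]) → 2 * toQ p q q h t = (v : ℚ_[q]) → D ∣ a := by
    intro a t w v ht hw hv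
    have g1 := congrArg (toQ p q p h) ht
    rw [map_mul, map_intCast, map_intCast] at g1
    have g2 := congrArg (toQ p q q h) ht
    rw [map_mul, map_intCast, map_intCast] at g2
    have k1 := TRIV_dvd p hp2 i D a w _ g1 hw hDp
    have k2 := TRIV_dvd q hq2 j D a v _ g2 hv hDq
    exact hDd.trans (hcop.mul_dvd k1 k2)
  obtain ⟨b1, hb1⟩ := key _ _ _ _ c1 e1 f1
  obtain ⟨b2, hb2⟩ := key _ _ _ _ c2 e2 f2
  obtain ⟨b3, hb3⟩ := key _ _ _ _ c3 e3 f3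
  obtain ⟨b4, hb4⟩ := key _ _ _ _ c4 e4 f4
  obtain ⟨β, hβ⟩ : ∃ β : ℍ[ℤ], β = TauQ.mk4 b1 b2 b3 b4 := ⟨_, rfl⟩
  have hαβ : α = (D : ℍ[ℤ]) * β := by
    rw [hβ]
    ext
    · simp [hb1]
    · simp [hb2]
    · simp [hb3]
    · simp [hb4]
  have hγβ : ((γ : GG p q) : ℍ[RR p q]) = castR p q β := by
    apply TRIV_cancel p q D hDu
    rw [hγα, hαβ, map_mul, map_intCast]
  have hnorm : Quaternion.normSq β = 1 := by
    have g1 : Quaternion.normSq ((γ : GG p q) : ℍ[RR p q]) = 1 := (TauQ.mem_unitary_iff _).1 (γ : GG p q).2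
    rw [hγβ, castR, TauQ.normSq_qmap, eq_intCast] at g1
    have g2 := congrArg (toQ p q p h) g1
    rw [map_intCast, map_one] at g2
    exact_mod_cast g2
  rw [Quaternion.normSq_def'] at hnorm
  have hb : b1 ^ 2 + b2 ^ 2 + b3 ^ 2 + b4 ^ 2 = 1 := by
    rw [hβ] at hnorm
    simpa using hnorm
  obtain ⟨m1, -, -, -⟩ := hα
  have hm : (D * b1) % 4 = 1 := by rw [← hb1]; exact m1
  have hb1m : b1 % 4 = 1 := by
    rw [Int.mul_emod, hD4] at hm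
    omega
  have hb1le : b1 ≤ 1 := by nlinarith [sq_nonneg b2, sq_nonneg b3, sq_nonneg b4, sq_nonneg (b1 - 1)]
  have hb1ge : -1 ≤ b1 := by nlinarith [sq_nonneg b2, sq_nonneg b3, sq_nonneg b4, sq_nonneg (b1 + 1)]
  have hb1e : b1 = 1 := by omega
  have hrest : b2 ^ 2 + b3 ^ 2 + b4 ^ 2 = 0 := by rw [hb1e] at hb; linarith
  have hb2e : b2 = 0 := by
    have : b2 ^ 2 = 0 := by nlinarith [sq_nonneg b2, sq_nonneg b3, sq_nonneg b4]
    exact pow_eq_zero_iff (two_ne_zero) |>.1 this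
  have hb3e : b3 = 0 := by
    have : b3 ^ 2 = 0 := by nlinarith [sq_nonneg b2, sq_nonneg b3, sq_nonneg b4]
    exact pow_eq_zero_iff (two_ne_zero) |>.1 this
  have hb4e : b4 = 0 := by
    have : b4 ^ 2 = 0 := by nlinarith [sq_nonneg b2, sq_nonneg b3, sq_nonneg b4]
    exact pow_eq_zero_iff (two_ne_zero) |>.1 this
  have hβ1 : β = 1 := by
    rw [hβ, hb1e, hb2e, hb3e, hb4e]
    ext <;> simp
  apply Subtype.ext
  apply Subtype.ext
  show ((γ : GG p q) : ℍ[RR p q]) = 1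
  rw [hγβ, hβ1, map_one]

end TauSG
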