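import Mathlib
import Pool.Agent.Work.MP_972ac7_sg.Interface

/-! # MP_972ac7_al, block TRS: a nearly invariant function gives a nearly invariant function on `KA`
(helper94) -/

set_option autoImplicit false

open MeasureTheory Pool.TFD
open scoped Quaternion BigOperators ENNReal

namespace TauSG

lemma TRS_three (a b c : ℂ) : ‖a + b + c‖ ^ 2 ≤ 3 * (‖a‖ ^ 2 + ‖b‖ ^ 2 + ‖c‖ ^ 2) := by
  have h1 : ‖a + b + c‖ ≤ ‖a‖ + ‖b‖ + ‖c‖ := norm_add₃_le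
  have h2 : ‖a + b + c‖ ^ 2 ≤ (‖a‖ + ‖b‖ + ‖c‖) ^ 2 := pow_le_pow_left₀ (norm_nonneg _) h1 2
  nlinarith [sq_nonneg (‖a‖ - ‖b‖), sq_nonneg (‖a‖ - ‖c‖), sq_nonneg (‖b‖ - ‖c‖)]

/-- integrals of compositions with measure preserving maps -/
lemma TRS_comp {X : Type} [MeasurableSpace X] {m : Measure X} {t : X → X}
    (ht : MeasurePreserving t m m) {F : X → ℝ} (hF : AEStronglyMeasurable F m) :
    ∫ x, F (t x) ∂m = ∫ x, F x ∂m := by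
  have h1 : ∫ x, F x ∂(Measure.map t m) = ∫ x, F (t x) ∂m := by
    apply integral_map ht.measurable.aemeasurable
    rw [ht.map_eq]
    exact hF
  rw [← h1, ht.map_eq]

lemma TRS_sq {X : Type} [MeasurableSpace X] {m : Measure X} {f : X → ℂ} (hf : MemLp f 2 m) :
    Integrable (fun x => ‖f x‖ ^ 2) m := (memLp_two_iff_integrable_sq_norm hf.1).1 hf

/-- the triangle inequality -/
lemma TRS_tri {X : Type} [MeasurableSpace X] {m : Measure X} {t : X → X}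
    (ht : MeasurePreserving t m m) {φ ψ : X → ℂ} (hφ : MemLp φ 2 m) (hψ : MemLp ψ 2 m) {δ : ℝ}
    (h1 : ∫ x, ‖φ (t x) - φ x‖ ^ 2 ∂m ≤ δ) (h2 : ∫ x, ‖φ x - ψ x‖ ^ 2 ∂m ≤ δ) :
    ∫ x, ‖ψ (t x) - ψ x‖ ^ 2 ∂m ≤ 9 * δ := by
  have hφt : MemLp (fun x => φ (t x)) 2 m := hφ.comp_measurePreserving ht
  have hψt : MemLp (fun x => ψ (t x)) 2 m := hψ.comp_measurePreserving ht
  have i1 := TRS_sq (hφt.sub hφ)
  have i2 := TRS_sq (hφ.sub hψ)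
  have i3 := TRS_sq (hφt.sub hψt)
  have i4 := TRS_sq (hψt.sub hψ)
  simp only [Pi.sub_apply] at i1 i2 i3 i4
  have h3 : ∫ x, ‖φ (t x) - ψ (t x)‖ ^ 2 ∂m = ∫ x, ‖φ x - ψ x‖ ^ 2 ∂m :=
    TRS_comp ht (F := fun x => ‖φ x - ψ x‖ ^ 2) i2.1
  have h4 : ∫ x, ‖ψ (t x) - ψ x‖ ^ 2 ∂m ≤ ∫ x, 3 * (‖φ (t x) - ψ (t x)‖ ^ 2 +
      ‖φ (t x) - φ x‖ ^ 2 + ‖φ x - ψ x‖ ^ 2) ∂m := by
    apply integral_mono i4 (((i3.add i1).add i2).const_mul 3)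
    intro x
    have h5 := TRS_three (-(φ (t x) - ψ (t x))) (φ (t x) - φ x) (φ x - ψ x)
    have h6 : -(φ (t x) - ψ (t x)) + (φ (t x) - φ x) + (φ x - ψ x) = ψ (t x) - ψ x := by ring
    rw [h6, norm_neg] at h5
    exact h5
  have h5 : ∫ x, (‖φ (t x) - ψ (t x)‖ ^ 2 + ‖φ (t x) - φ x‖ ^ 2 + ‖φ x - ψ x‖ ^ 2) ∂m =
      ∫ x, ‖φ (t x) - ψ (t x)‖ ^ 2 ∂m + ∫ x, ‖φ (t x) - φ x‖ ^ 2 ∂m +
        ∫ x, ‖φ x - ψ x‖ ^ 2 ∂m := by
    rw [← integral_add i3 i1]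
    exact integral_add (i3.add i1) i2
  rw [integral_const_mul, h5, h3] at h4
  linarith

theorem TRS_thm (hM : S_MEA) (hP : S_PSI) : S_TRS := by
  intro GA GB Λ _ _ _ _ _ _ _ _ _ _ _ _ _ _ _ _ _ T μA μB hA hB hrA hrB hKA hKB s hs
  obtain ⟨-, hinv⟩ := hM GA GB Λ T μA μB hA hB hrA hrB hKA hKB
  -- the set of the good `b`
  obtain ⟨Bs, hBs⟩ : ∃ Bs : Set GB, ∀ b, b ∈ Bs ↔ b ∈ T.KB ∧ (T.β s)⁻¹ * b * T.β s ∈ T.KB :=
    ⟨{b | b ∈ T.KB ∧ (T.β s)⁻¹ * b * T.β s ∈ T.KB}, fun _ => Iff.rfl⟩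
  have hBopen : IsOpen Bs := by
    have h1 : Bs = (T.KB : Set GB) ∩ (fun b => (T.β s)⁻¹ * b * T.β s) ⁻¹' (T.KB : Set GB) := by
      ext b
      exact hBs b
    rw [h1]
    exact T.openB.inter (T.openB.preimage (by fun_prop))
  have hBsub : Bs ⊆ (T.KB : Set GB) := fun b hb => ((hBs b).1 hb).1
  have hBpos : 0 < μB Bs := by
    apply hBopen.measure_pos μB
    refine ⟨1, (hBs 1).2 ⟨T.KB.one_mem, ?_⟩⟩
    simp
  have hBtop : μB Bs ≠ ⊤ := by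
    have := measure_mono (μ := μB) hBsub
    rw [hKB] at this
    exact ne_top_of_le_ne_top ENNReal.one_ne_top this
  refine ⟨(μB Bs).toReal, ENNReal.toReal_pos hBpos.ne' hBtop, ?_⟩
  intro φ hφ δ hδ1 hδ2
  obtain ⟨hψ, -, -, hψ0, -, -, hψδ⟩ := hP GA GB Λ T μA μB hA hB hrA hrB hKA hKB φ hφ
  have h1 := hψδ δ hδ1
  have h2 := TRS_tri (hinv ((1, T.β s) : GA × GB)⁻¹) hφ hψ hδ2 h1
  refine le_trans ?_ h2
  -- pull back to `GA × GB`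
  have hψt : MemLp (fun x => T.psi μB φ (((1, T.β s) : GA × GB)⁻¹ • x)) 2 (T.meas μA μB) :=
    hψ.comp_measurePreserving (hinv ((1, T.β s) : GA × GB)⁻¹)
  have hint := TRS_sq (hψt.sub hψ)
  simp only [Pi.sub_apply] at hint
  have hmk : Measurable (QuotientGroup.mk : GA × GB → (GA × GB) ⧸ T.Γ) :=
    QuotientGroup.measurable_coe
  have hmeas : T.meas μA μB = Measure.map (QuotientGroup.mk : GA × GB → (GA × GB) ⧸ T.Γ)
    ((μA.prod μB).restrict ((T.KA : Set GA) ×ˢ (T.KB : Set GB))) := rfl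
  have h3 : ∫ x, ‖T.psi μB φ (((1, T.β s) : GA × GB)⁻¹ • x) - T.psi μB φ x‖ ^ 2
      ∂(T.meas μA μB) = ∫ z in (T.KA : Set GA) ×ˢ (T.KB : Set GB),
        ‖T.psi μB φ (((1, T.β s) : GA × GB)⁻¹ • (QuotientGroup.mk z : (GA × GB) ⧸ T.Γ)) -
          T.psi μB φ (QuotientGroup.mk z)‖ ^ 2 ∂(μA.prod μB) := by
    rw [hmeas] at hint ⊢
    exact integral_map hmk.aemeasurable hint.1
  have h4 : IntegrableOn (fun z : GA × GB =>
        ‖T.psi μB φ (((1, T.β s) : GA × GB)⁻¹ • (QuotientGroup.mk z : (GA × GB) ⧸ T.Γ)) -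
          T.psi μB φ (QuotientGroup.mk z)‖ ^ 2) ((T.KA : Set GA) ×ˢ (T.KB : Set GB))
          (μA.prod μB) := by
    rw [hmeas] at hint
    exact hint.comp_measurable hmk
  rw [h3]
  have h5 : ∫ z in (T.KA : Set GA) ×ˢ Bs,
        ‖T.psi μB φ (((1, T.β s) : GA × GB)⁻¹ • (QuotientGroup.mk z : (GA × GB) ⧸ T.Γ)) -
          T.psi μB φ (QuotientGroup.mk z)‖ ^ 2 ∂(μA.prod μB) ≤
      ∫ z in (T.KA : Set GA) ×ˢ (T.KB : Set GB),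
        ‖T.psi μB φ (((1, T.β s) : GA × GB)⁻¹ • (QuotientGroup.mk z : (GA × GB) ⧸ T.Γ)) -
          T.psi μB φ (QuotientGroup.mk z)‖ ^ 2 ∂(μA.prod μB) := by
    apply setIntegral_mono_set h4
    · exact Filter.Eventually.of_forall fun z => by positivity
    · exact (Set.prod_mono le_rfl hBsub).eventuallyLE
  refine le_trans (le_of_eq ?_) h5
  have h6 : ∫ z in (T.KA : Set GA) ×ˢ Bs,
        ‖T.psi μB φ (((1, T.β s) : GA × GB)⁻¹ • (QuotientGroup.mk z : (GA × GB) ⧸ T.Γ)) -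
          T.psi μB φ (QuotientGroup.mk z)‖ ^ 2 ∂(μA.prod μB) =
      ∫ z in (T.KA : Set GA) ×ˢ Bs, (fun a => ‖T.phi0 μB φ (a * T.α s) - T.phi0 μB φ a‖ ^ 2) z.1 *
        (fun _ => (1 : ℝ)) z.2 ∂(μA.prod μB) := by
    apply setIntegral_congr_fun (T.openA.measurableSet.prod hBopen.measurableSet)
    rintro ⟨a, b⟩ ⟨_, hb⟩
    have hb' := (hBs b).1 hb
    have h7 : ((1, T.β s) : GA × GB)⁻¹ • (QuotientGroup.mk (a, b) : (GA × GB) ⧸ T.Γ) =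
        QuotientGroup.mk (a * T.α s, (T.β s)⁻¹ * b * T.β s) := by
      have h8 : ((1, T.β s) : GA × GB)⁻¹ • (QuotientGroup.mk (a, b) : (GA × GB) ⧸ T.Γ) =
        QuotientGroup.mk (((1, T.β s) : GA × GB)⁻¹ * (a, b)) := rfl
      rw [h8, QuotientGroup.eq]
      refine ⟨s, ?_⟩
      ext
      · simp [MonoidHom.prod_apply]
      · simp [MonoidHom.prod_apply, mul_assoc]
    show ‖T.psi μB φ (((1, T.β s) : GA × GB)⁻¹ • (QuotientGroup.mk (a, b) : (GA × GB) ⧸ T.Γ)) -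
          T.psi μB φ (QuotientGroup.mk (a, b))‖ ^ 2 =
      ‖T.phi0 μB φ (a * T.α s) - T.phi0 μB φ a‖ ^ 2 * 1
    rw [h7, hψ0 _ _ hb'.2, hψ0 _ _ hb'.1, mul_one]
  have h8 := setIntegral_prod_mul (μ := μA) (ν := μB)
    (fun a => ‖T.phi0 μB φ (a * T.α s) - T.phi0 μB φ a‖ ^ 2) (fun _ => (1 : ℝ)) (T.KA : Set GA) Bs
  rw [h6, h8, setIntegral_const, smul_eq_mul, mul_one, mul_comm]
  rfl

end TauSG
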