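import Mathlib
import Pool.Agent.Work.MP_972ac7_sg.Interface
set_option autoImplicit false

/-! Block UNIM (helper88): `SL2(ℚ_l)` is unimodular. -/

open MeasureTheory
open scoped NNReal

namespace TauSG

/-- diagonal matrix -/
def UNIM_dg {k : Type} [Field k] (t : k) (ht : t ≠ 0) : Matrix.SpecialLinearGroup (Fin 2) k :=
  ⟨!![t, 0; 0, t⁻¹], by simp [Matrix.det_fin_two, ht]⟩

theorem UNIM_upp {k : Type} [Field k] (s : k) (h2 : (2 : k) ≠ 0) :
    UNIM_dg 2 h2 * upp s = upp (3 * s) * (upp s * UNIM_dg 2 h2) := by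
  apply Subtype.ext
  rw [Matrix.SpecialLinearGroup.coe_mul, Matrix.SpecialLinearGroup.coe_mul,
    Matrix.SpecialLinearGroup.coe_mul]
  unfold upp UNIM_dg
  ext i j
  fin_cases i <;> fin_cases j <;>
    simp [Matrix.mul_apply, Fin.sum_univ_two] <;> field_simp <;> ring

theorem UNIM_low {k : Type} [Field k] (s : k) (h2 : (2 : k) ≠ 0) :
    low s * UNIM_dg 2 h2 = UNIM_dg 2 h2 * low s * low (3 * s) := by
  apply Subtype.ext
  rw [Matrix.SpecialLinearGroup.coe_mul, Matrix.SpecialLinearGroup.coe_mul,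
    Matrix.SpecialLinearGroup.coe_mul]
  unfold low UNIM_dg
  ext i j
  fin_cases i <;> fin_cases j <;>
    simp [Matrix.mul_apply, Fin.sum_univ_two] <;> field_simp <;> ring

theorem UNIM_thm (hG : S_GEN) (hT : S_TOPL) : S_UNIM := by
  intro l _ μ hμ
  obtain ⟨i1, i2, i3, -, -⟩ := hT l
  have h2 : (2 : ℚ_[l]) ≠ 0 := two_ne_zero
  have h3 : (3 : ℚ_[l]) ≠ 0 := three_ne_zero
  set χ : Matrix.SpecialLinearGroup (Fin 2) ℚ_[l] →* ℝ≥0 := Measure.modularCharacter with hχ
  have hpos : ∀ g, χ g ≠ 0 := fun g => (Measure.modularCharacterFun_pos g).ne'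
  have hu : ∀ t : ℚ_[l], χ (upp t) = 1 := by
    intro t
    have e := congrArg χ (UNIM_upp (t / 3) h2)
    rw [mul_div_cancel₀ t h3, map_mul, map_mul, map_mul, mul_comm (χ (upp (t / 3)))] at e
    have hne : χ (UNIM_dg 2 h2) * χ (upp (t / 3)) ≠ 0 := mul_ne_zero (hpos _) (hpos _)
    exact mul_right_cancel₀ hne (by rw [one_mul]; exact e.symm)
  have hl : ∀ t : ℚ_[l], χ (low t) = 1 := by
    intro t
    have e := congrArg χ (UNIM_low (t / 3) h2)
    rw [mul_div_cancel₀ t h3, map_mul, map_mul, map_mul, mul_comm (χ (low (t / 3)))] at e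
    have hne : χ (UNIM_dg 2 h2) * χ (low (t / 3)) ≠ 0 := mul_ne_zero (hpos _) (hpos _)
    exact mul_left_cancel₀ hne (by rw [mul_one]; exact e.symm)
  have hker : χ.ker = ⊤ := by
    rw [eq_top_iff, ← hG ℚ_[l], Subgroup.closure_le]
    rintro g ⟨t, rfl | rfl⟩
    · exact hu t
    · exact hl t
  constructor
  intro g
  have hg : Measure.modularCharacterFun g = 1 := by
    have : g ∈ χ.ker := by rw [hker]; exact Subgroup.mem_top g
    exact this
  rw [Measure.map_right_mul_eq_modularCharacterFun_smul μ g, hg, one_smul]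

end TauSG
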