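import Mathlib
import Pool.Agent.Work.MP_972ac7_od.All
import Pool.Agent.Work.MP_972ac7_sg.DISC
import Pool.Agent.Work.MP_972ac7_sg.MEA
import Pool.Agent.Work.MP_972ac7_sg.ONE
import Pool.Agent.Work.MP_972ac7_sg.AVG
import Pool.Agent.Work.MP_972ac7_sg.CVG
import Pool.Agent.Work.MP_972ac7_sg.PSI
import Pool.Agent.Work.MP_972ac7_sg.TRS
import Pool.Agent.Work.MP_972ac7_sg.SG
import Pool.Agent.Work.MP_972ac7_sg.TOPL
import Pool.Agent.Work.MP_972ac7_sg.GEN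
import Pool.Agent.Work.MP_972ac7_sg.NOFD
import Pool.Agent.Work.MP_972ac7_sg.UNIM
import Pool.Agent.Work.MP_972ac7_sg.SPL
import Pool.Agent.Work.MP_972ac7_sg.INT
import Pool.Agent.Work.MP_972ac7_sg.COV1
import Pool.Agent.Work.MP_972ac7_sg.COV
import Pool.Agent.Work.MP_972ac7_sg.TRIV
import Pool.Agent.Work.MP_972ac7_sg.LEV
import Pool.Agent.Work.MP_972ac7_sg.IDX
import Pool.Agent.Work.MP_972ac7_sg.PAIR
import Pool.Agent.Work.MP_972ac7_sg.WORD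
import Pool.Agent.Work.MP_972ac7_sg.SIDE
import Pool.Agent.Work.MP_972ac7_sg.HSG

namespace TauSG

theorem a_MEA : S_MEA := MEA_thm DISC_thm
theorem a_PSI : S_PSI := PSI_thm a_MEA
theorem a_TRS : S_TRS := TRS_thm a_MEA a_PSI
theorem a_SG : S_SG := SG_thm a_MEA a_PSI a_TRS AVG_thm CVG_thm
theorem a_NOFD : S_NOFD := NOFD_thm GEN_thm
theorem a_UNIM : S_UNIM := UNIM_thm GEN_thm TOPL_thm
theorem a_COV1 : S_COV1 := COV1_thm TauO.EX_thm
theorem a_COV : S_COV := COV_thm a_COV1 INT_thm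
theorem a_IDX : S_IDX := IDX_thm TauO.all_TG
theorem a_WORD : S_WORD := WORD_thm TauO.EX_thm
theorem a_SIDE : S_SIDE := SIDE_thm a_IDX LEV_thm PAIR_thm a_WORD INT_thm
theorem a_HSG : S_HSG :=
  HSG_thm DISC_thm a_MEA ONE_thm a_SG TOPL_thm a_NOFD a_UNIM SPL_thm a_COV TRIV_thm a_SIDE

end TauSG
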