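import Mathlib
import Pool.Agent.Work.MP_972ac7_sg.Interface
set_option autoImplicit false

/-! Block GEN (helper88): the unipotent matrices generate `SL2` of a field. -/

namespace TauSG

theorem GEN_low {k : Type} [Field k] (g : Matrix.SpecialLinearGroup (Fin 2) k) (hc : g.1 1 0 ≠ 0) :
    g = upp ((g.1 0 0 - 1) / g.1 1 0) * low (g.1 1 0) * upp ((g.1 1 1 - 1) / g.1 1 0) := by
  have hdet := g.2
  rw [Matrix.det_fin_two] at hdet
  apply Subtype.ext
  rw [Matrix.SpecialLinearGroup.coe_mul, Matrix.SpecialLinearGroup.coe_mul]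
  unfold upp low
  ext i j
  fin_cases i <;> fin_cases j <;>
    simp [Matrix.mul_apply, Fin.sum_univ_two] <;> field_simp <;>
    first | ring1 | linear_combination hdet | linear_combination -hdet

theorem GEN_thm : S_GEN := by
  intro k _
  rw [eq_top_iff]
  rintro g -
  have hu : ∀ t : k, upp t ∈ Subgroup.closure
      {g : Matrix.SpecialLinearGroup (Fin 2) k | ∃ t : k, g = upp t ∨ g = low t} :=
    fun t => Subgroup.subset_closure ⟨t, Or.inl rfl⟩
  have hl : ∀ t : k, low t ∈ Subgroup.closure
      {g : Matrix.SpecialLinearGroup (Fin 2) k | ∃ t : k, g = upp t ∨ g = low t} :=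
    fun t => Subgroup.subset_closure ⟨t, Or.inr rfl⟩
  have key : ∀ g : Matrix.SpecialLinearGroup (Fin 2) k, g.1 1 0 ≠ 0 → g ∈ Subgroup.closure
      {g : Matrix.SpecialLinearGroup (Fin 2) k | ∃ t : k, g = upp t ∨ g = low t} := by
    intro g hg
    rw [GEN_low g hg]
    exact mul_mem (mul_mem (hu _) (hl _)) (hu _)
  by_cases hc : g.1 1 0 = 0
  · have hdet := g.2
    rw [Matrix.det_fin_two, hc] at hdet
    have h2 : (low 1 * g).1 1 0 ≠ 0 := by
      rw [Matrix.SpecialLinearGroup.coe_mul]
      unfold low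
      simp only [Matrix.mul_apply, Fin.sum_univ_two]
      simp only [Matrix.of_apply, Matrix.cons_val', Matrix.cons_val_zero, Matrix.cons_val_one,
        Matrix.cons_val_fin_one, hc, mul_zero, add_zero, one_mul]
      intro h0
      rw [h0] at hdet
      simp at hdet
    have h3 := key _ h2
    have h4 : g = (low 1)⁻¹ * (low 1 * g) := by group
    rw [h4]
    exact mul_mem (inv_mem (hl 1)) h3
  · exact key g hc

end TauSG
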