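import Mathlib
import Pool.Agent.Work.MP_972ac7_sg.Interface
import Pool.Agent.Work.MP_972ac7_od.HT

/-!
# Block WORD: the elements which are integral at one prime are products of pairs of letters of the
other prime
-/

set_option autoImplicit false

open scoped Quaternion BigOperators

namespace TauSG

open TauQ (RR GG castR redM)
open TauO

section alg

variable {p q : ℕ}

lemma WORD_cancel {n : ℤ} (hn : IsUnit (n : RR p q)) {x y : ℍ[RR p q]}
    (h : (n : ℍ[RR p q]) * x = (n : ℍ[RR p q]) * y) : x = y := by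
  have h1 := hn.map (algebraMap (RR p q) ℍ[RR p q])
  rw [map_intCast] at h1
  exact h1.mul_left_cancel h

lemma WORD_norm (hp : p.Prime) (hq : q.Prime) (γ : GG p q) (n : ℤ) (α : ℍ[ℤ])
    (h : (n : ℍ[RR p q]) * (γ : ℍ[RR p q]) = castR p q α) : Quaternion.normSq α = n * n := by
  apply TauQ.hat_cast_inj hp hq
  rw [← TauQ.hat_normSq_castR, ← h, map_mul, (TauQ.mem_unitary_iff _).1 γ.2, mul_one,
    Quaternion.normSq_intCast]
  push_cast
  ring

lemma WORD_pst_pow (r i : ℕ) : pst r ^ i * pst r ^ i = (r : ℤ) ^ (2 * i) := by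
  calc pst r ^ i * pst r ^ i = (pst r * pst r) ^ i := by ring
    _ = (r : ℤ) ^ (2 * i) := by rw [pst_sq]; ring

lemma WORD_mod4 (r i : ℕ) (hr : r % 4 = 1 ∨ r % 4 = 3) : (r : ℤ) ^ (2 * i) % 4 = 1 := by
  have h1 : (r : ℤ) ^ 2 ≡ 1 [ZMOD 4] := by
    obtain ⟨k, hk⟩ : ∃ k : ℤ, (r : ℤ) = 2 * k + 1 := ⟨(r : ℤ) / 2, by omega⟩
    rw [hk]
    apply Int.ModEq.symm
    rw [Int.modEq_iff_dvd]
    exact ⟨k ^ 2 + k, by ring⟩
  have h2 := h1.pow i
  rw [one_pow, ← pow_mul] at h2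
  exact h2

/-- the induction on the length -/
lemma WORD_core (hE : Stmt_exists) (hp : p.Prime) (hq : q.Prime) {r : ℕ} (hr : r.Prime)
    (hr2 : r ≠ 2) (hu : IsUnit ((pst r : ℤ) : RR p q))
    (hpair : ∀ b' b : SS r, ∃ γ : G1 p q,
      ((pst r : ℤ) : ℍ[RR p q]) * ((γ : GG p q) : ℍ[RR p q]) = castR p q (b'.val * b.val)) :
    ∀ (i : ℕ) (γ : G1 p q) (α : ℍ[ℤ]), α ∈ TauQ.OO →
      ((pst r ^ i : ℤ) : ℍ[RR p q]) * ((γ : GG p q) : ℍ[RR p q]) = castR p q α →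
      γ ∈ Subgroup.closure {γ' : G1 p q | ∃ b' b : SS r,
        ((pst r : ℤ) : ℍ[RR p q]) * ((γ' : GG p q) : ℍ[RR p q]) = castR p q (b'.val * b.val)} := by
  have hr4 := hat_mod hr hr2
  have hr0 : (r : ℤ) ≠ 0 := by exact_mod_cast hr.ne_zero
  intro i
  induction i with
  | zero =>
    intro γ α hα h
    have hn : Quaternion.normSq α = 1 := by
      have := WORD_norm hp hq (γ : GG p q) _ α h
      simpa using this
    have h1 : α = 1 := TauQ.hat_eq_one hα hn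
    have h2 : γ = 1 := by
      apply Subtype.ext
      apply Subtype.ext
      rw [pow_zero, Int.cast_one, one_mul, h1, map_one] at h
      exact h
    rw [h2]
    exact Subgroup.one_mem _
  | succ i ih =>
    intro γ α hα h
    have hn : Quaternion.normSq α = (r : ℤ) ^ (2 * (i + 1)) := by
      rw [WORD_norm hp hq (γ : GG p q) _ α h, WORD_pst_pow]
    have hdvd : (r : ℤ) ∣ Quaternion.normSq α := by
      rw [hn]
      exact dvd_pow_self _ (by omega)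
    by_cases hd : ∃ δ : ℍ[ℤ], α = (r : ℍ[ℤ]) * δ
    · obtain ⟨δ, hδ⟩ := hd
      have hδ2 : α = ((pst r : ℤ) : ℍ[ℤ]) * (((eps r : ℤ) : ℍ[ℤ]) * δ) := by
        rw [← mul_assoc, ← Int.cast_mul]
        have e1 : pst r * eps r = r := by
          unfold pst
          linear_combination (r : ℤ) * eps_sq r
        rw [e1, hδ, Int.cast_natCast]
      have h3 : ((pst r ^ i : ℤ) : ℍ[RR p q]) * ((γ : GG p q) : ℍ[RR p q]) =
          castR p q (((eps r : ℤ) : ℍ[ℤ]) * δ) := by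
        apply WORD_cancel hu
        rw [← mul_assoc, ← Int.cast_mul, ← pow_succ', h]
        conv_lhs => rw [hδ2]
        rw [map_mul, map_intCast]
      have h4 : ((eps r : ℤ) : ℍ[ℤ]) * δ ∈ OO := hat_OO_of_mul hr4 (old_le hα) hδ2
      have h5 : Quaternion.normSq (((eps r : ℤ) : ℍ[ℤ]) * δ) = (r : ℤ) ^ (2 * i) := by
        rw [WORD_norm hp hq (γ : GG p q) _ _ h3, WORD_pst_pow]
      exact ih γ _ (old_of_norm h4 (by rw [h5]; exact WORD_mod4 r i hr4)) h3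
    · push Not at hd
      obtain ⟨β, δ, hδ⟩ := hE r hr hr2 α hd hdvd
      have hN : Quaternion.normSq δ = (r : ℤ) ^ (2 * i + 1) := by
        apply mul_left_cancel₀ hr0
        have : (r : ℤ) * Quaternion.normSq δ = Quaternion.normSq α := by
          rw [hδ, map_mul, β.norm]
        rw [this, hn]
        ring
      have hd2 : ∀ κ : ℍ[ℤ], δ ≠ (r : ℍ[ℤ]) * κ := by
        intro κ hκ
        apply hd (β.val * κ)
        rw [hδ, hκ, ← mul_assoc, ← mul_assoc, (Nat.cast_commute r β.val).eq]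
      have hdvd2 : (r : ℤ) ∣ Quaternion.normSq δ := by
        rw [hN]
        exact dvd_pow_self _ (by omega)
      obtain ⟨β₂, κ, hκ⟩ := hE r hr hr2 δ hd2 hdvd2
      have hOδ : δ ∈ OO := hat_OO_of_letter (old_le hα) β hδ
      have hOκ : κ ∈ OO := hat_OO_of_letter hOδ β₂ hκ
      have hNκ : Quaternion.normSq κ = (r : ℤ) ^ (2 * i) := by
        apply mul_left_cancel₀ hr0
        have : (r : ℤ) * Quaternion.normSq κ = Quaternion.normSq δ := by
          rw [hκ, map_mul, β₂.norm]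
        rw [this, hN]
        ring
      obtain ⟨γ₁, hγ₁⟩ := hpair β β₂
      have h6 : ((pst r ^ i : ℤ) : ℍ[RR p q]) * ((γ : GG p q) : ℍ[RR p q]) =
          ((γ₁ : GG p q) : ℍ[RR p q]) * castR p q κ := by
        apply WORD_cancel hu
        rw [← mul_assoc, ← Int.cast_mul, ← pow_succ', h, ← mul_assoc, hγ₁, ← map_mul, hδ, hκ,
          mul_assoc]
      have h7 : ((pst r ^ i : ℤ) : ℍ[RR p q]) * (((γ₁⁻¹ * γ : G1 p q) : GG p q) : ℍ[RR p q]) =
          castR p q κ := by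
        have e1 : (((γ₁⁻¹ * γ : G1 p q) : GG p q) : ℍ[RR p q]) =
            (((γ₁ : GG p q)⁻¹ : GG p q) : ℍ[RR p q]) * ((γ : GG p q) : ℍ[RR p q]) := rfl
        have e2 : (((γ₁ : GG p q)⁻¹ : GG p q) : ℍ[RR p q]) * ((γ₁ : GG p q) : ℍ[RR p q]) = 1 := by
          rw [← Submonoid.coe_mul, inv_mul_cancel]
          rfl
        rw [e1, ← mul_assoc, (Int.cast_commute (pst r ^ i) _).eq, mul_assoc, h6, ← mul_assoc, e2,
          one_mul]
      have h8 := ih (γ₁⁻¹ * γ) κ (old_of_norm hOκ (by rw [hNκ]; exact WORD_mod4 r i hr4)) h7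
      have h9 : γ = γ₁ * (γ₁⁻¹ * γ) := by rw [mul_inv_cancel_left]
      rw [h9]
      exact Subgroup.mul_mem _ (Subgroup.subset_closure ⟨β, β₂, hγ₁⟩) h8

end alg

section integ

variable {l : ℕ} [Fact l.Prime]

lemma WORD_two (hl : l ≠ 2) {a : ℚ_[l]} (h : ‖2 * a‖ ≤ 1) : ‖a‖ ≤ 1 := by
  have h2 : ‖((2 : ℤ) : ℚ_[l])‖ = 1 := by
    rw [Padic.norm_intCast_eq_one_iff]
    have h3 := (Nat.coprime_primes Nat.prime_two (Fact.out : l.Prime)).2 (Ne.symm hl)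
    exact_mod_cast h3
  rw [norm_mul] at h
  rw [show (2 : ℚ_[l]) = ((2 : ℤ) : ℚ_[l]) by norm_num, h2, one_mul] at h
  exact h

lemma WORD_add {a b : ℚ_[l]} (ha : ‖a‖ ≤ 1) (hb : ‖b‖ ≤ 1) : ‖a + b‖ ≤ 1 :=
  (Padic.nonarchimedean a b).trans (max_le ha hb)

lemma WORD_sub {a b : ℚ_[l]} (ha : ‖a‖ ≤ 1) (hb : ‖b‖ ≤ 1) : ‖a - b‖ ≤ 1 := by
  rw [sub_eq_add_neg]
  exact WORD_add ha (by rwa [norm_neg])

lemma WORD_mul {a b : ℚ_[l]} (ha : ‖a‖ ≤ 1) (hb : ‖b‖ ≤ 1) : ‖a * b‖ ≤ 1 := by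
  rw [norm_mul]
  exact mul_le_one₀ ha (norm_nonneg _) hb

/-- a quaternion with integral matrix is integral -/
lemma WORD_int (hl : l ≠ 2) {x y : ℤ_[l]} (hxy : IsSpl l x y) (z : ℍ[ℚ_[l]])
    (h : ∀ i j, ‖matQ (x : ℚ_[l]) (y : ℚ_[l]) z i j‖ ≤ 1) :
    ‖z.re‖ ≤ 1 ∧ ‖z.imI‖ ≤ 1 ∧ ‖z.imJ‖ ≤ 1 ∧ ‖z.imK‖ ≤ 1 := by
  have h00 : ‖z.re + z.imI * x - z.imK * y‖ ≤ 1 := by simpa [matQ] using h 0 0
  have h01 : ‖z.imI * y + z.imJ + z.imK * x‖ ≤ 1 := by simpa [matQ] using h 0 1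
  have h10 : ‖z.imI * y - z.imJ + z.imK * x‖ ≤ 1 := by simpa [matQ] using h 1 0
  have h11 : ‖z.re - z.imI * x + z.imK * y‖ ≤ 1 := by simpa [matQ] using h 1 1
  have hs := hxy.coe
  have hx : ‖(x : ℚ_[l])‖ ≤ 1 := x.2
  have hy : ‖(y : ℚ_[l])‖ ≤ 1 := y.2
  have hre : ‖z.re‖ ≤ 1 := by
    apply WORD_two hl
    have e : 2 * z.re = (z.re + z.imI * x - z.imK * y) + (z.re - z.imI * x + z.imK * y) := by ring
    rw [e]
    exact WORD_add h00 h11
  have hJ : ‖z.imJ‖ ≤ 1 := by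
    apply WORD_two hl
    have e : 2 * z.imJ = (z.imI * y + z.imJ + z.imK * x) - (z.imI * y - z.imJ + z.imK * x) := by
      ring
    rw [e]
    exact WORD_sub h01 h10
  have hu : ‖z.imI * x - z.imK * y‖ ≤ 1 := by
    have e : z.imI * x - z.imK * y = (z.re + z.imI * x - z.imK * y) - z.re := by ring
    rw [e]
    exact WORD_sub h00 hre
  have hv : ‖z.imI * y + z.imK * x‖ ≤ 1 := by
    have e : z.imI * y + z.imK * x = (z.imI * y + z.imJ + z.imK * x) - z.imJ := by ring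
    rw [e]
    exact WORD_sub h01 hJ
  refine ⟨hre, ?_, hJ, ?_⟩
  · have e : z.imI = -((z.imI * x - z.imK * y) * x + (z.imI * y + z.imK * x) * y) := by
      linear_combination z.imI * hs
    rw [e, norm_neg]
    exact WORD_add (WORD_mul hu hx) (WORD_mul hv hy)
  · have e : z.imK = (z.imI * x - z.imK * y) * y - (z.imI * y + z.imK * x) * x := by
      linear_combination z.imK * hs
    rw [e]
    exact WORD_sub (WORD_mul hu hy) (WORD_mul hv hx)

end integ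

/-- the entries of an element of `KK l` are integral -/
lemma WORD_KK {l : ℕ} [Fact l.Prime] {g : Matrix.SpecialLinearGroup (Fin 2) ℚ_[l]}
    (hg : g ∈ KK l) (i j : Fin 2) : ‖(g : Matrix (Fin 2) (Fin 2) ℚ_[l]) i j‖ ≤ 1 := by
  obtain ⟨m, rfl⟩ := hg
  have h1 : ((Matrix.SpecialLinearGroup.map (n := Fin 2) (algebraMap ℤ_[l] ℚ_[l]) m :
      Matrix.SpecialLinearGroup (Fin 2) ℚ_[l]) : Matrix (Fin 2) (Fin 2) ℚ_[l]) i j =
      (((m : Matrix (Fin 2) (Fin 2) ℤ_[l]) i j : ℤ_[l]) : ℚ_[l]) := rfl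
  rw [h1]
  exact PadicInt.norm_le_one _

lemma WORD_toQ {p q l : ℕ} [Fact l.Prime] (h : p * q ≠ 0) (n : ℤ) :
    toQ p q l h ((n : ℤ) : RR p q) = (n : ℚ_[l]) := map_intCast _ _

/-- divisibility of one coordinate -/
lemma WORD_dvd {p q l : ℕ} [Fact l.Prime] (h : p * q ≠ 0) (a : ℕ) (d n : ℤ) (t : RR p q)
    (ht : ‖toQ p q l h t‖ ≤ 1) (he : ((pst l ^ a * d : ℤ) : RR p q) * t = ((n : ℤ) : RR p q)) :
    (pst l ^ a) ∣ n := by
  have h1 := congrArg (toQ p q l h) he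
  rw [map_mul, WORD_toQ, WORD_toQ] at h1
  have h2 : ‖((n : ℤ) : ℚ_[l])‖ ≤ (l : ℝ) ^ (-(a : ℤ)) := by
    rw [← h1, norm_mul, Int.cast_mul, norm_mul, Int.cast_pow, norm_pow]
    have h3 : ‖((pst l : ℤ) : ℚ_[l])‖ = (l : ℝ)⁻¹ := by
      have h4 : ‖((eps l : ℤ) : ℚ_[l])‖ = 1 := by
        unfold eps
        split_ifs <;> simp
      rw [pst, Int.cast_mul, norm_mul, h4, one_mul, Int.cast_natCast, Padic.norm_p]
    rw [h3, zpow_neg, zpow_natCast, inv_pow]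
    have h5 : ‖((d : ℤ) : ℚ_[l])‖ ≤ 1 := Padic.norm_int_le_one d
    have h6 : 0 ≤ ((l : ℝ) ^ a)⁻¹ := by positivity
    calc ((l : ℝ) ^ a)⁻¹ * ‖((d : ℤ) : ℚ_[l])‖ * ‖toQ p q l h t‖
        ≤ ((l : ℝ) ^ a)⁻¹ * 1 * 1 := by gcongr
      _ = ((l : ℝ) ^ a)⁻¹ := by ring
  rw [Padic.norm_int_le_pow_iff_dvd] at h2
  have h7 : pst l ^ a = eps l ^ a * (l : ℤ) ^ a := by rw [pst, mul_pow]
  have h8 : IsUnit (eps l ^ a) := by
    have : IsUnit (eps l) := IsUnit.of_mul_eq_one _ (eps_sq l)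
    exact this.pow a
  rw [h7, IsUnit.mul_left_dvd h8]
  exact_mod_cast h2

lemma WORD_smul (N : ℤ) (z : ℍ[ℤ]) : (N : ℍ[ℤ]) * z = N • z := by
  ext <;> simp

/-- an element which is integral at `l` has a denominator which is a power of `r` -/
lemma WORD_den {p q l r : ℕ} [Fact l.Prime] (h : p * q ≠ 0) (hl : l ≠ 2) {x y : ℤ_[l]}
    (hxy : IsSpl l x y) (hu : IsUnit ((pst l : ℤ) : RR p q)) (γ : GG p q)
    (hγ : emb p q l h hxy γ ∈ KK l) (a b : ℕ) (α : ℍ[ℤ]) (hα : α ∈ TauQ.OO)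
    (he : ((pst l ^ a * pst r ^ b : ℤ) : ℍ[RR p q]) * (γ : ℍ[RR p q]) = castR p q α) :
    ∃ α' : ℍ[ℤ], α' ∈ TauQ.OO ∧
      ((pst r ^ b : ℤ) : ℍ[RR p q]) * (γ : ℍ[RR p q]) = castR p q α' := by
  have hK := fun i j => WORD_KK hγ i j
  have h1 := WORD_int hl hxy (TauQ.qmap (toQ p q l h) (γ : ℍ[RR p q])) hK
  simp only [TauQ.qmap_re, TauQ.qmap_imI, TauQ.qmap_imJ, TauQ.qmap_imK] at h1
  obtain ⟨h0, hI, hJ, hKK⟩ := h1
  have e : ((pst l ^ a * pst r ^ b : ℤ) : ℍ[RR p q]) * (γ : ℍ[RR p q]) =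
      ((pst l ^ a * pst r ^ b : ℤ) : RR p q) • (γ : ℍ[RR p q]) := by
    rw [hat_int, Algebra.smul_def]
  rw [e] at he
  have d0 := WORD_dvd h a (pst r ^ b) α.re _ h0 (by
    have := congrArg (fun z : ℍ[RR p q] => z.re) he
    simpa [castR] using this)
  have d1 := WORD_dvd h a (pst r ^ b) α.imI _ hI (by
    have := congrArg (fun z : ℍ[RR p q] => z.imI) he
    simpa [castR] using this)
  have d2 := WORD_dvd h a (pst r ^ b) α.imJ _ hJ (by
    have := congrArg (fun z : ℍ[RR p q] => z.imJ) he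
    simpa [castR] using this)
  have d3 := WORD_dvd h a (pst r ^ b) α.imK _ hKK (by
    have := congrArg (fun z : ℍ[RR p q] => z.imK) he
    simpa [castR] using this)
  obtain ⟨c0, d0⟩ := d0
  obtain ⟨c1, d1⟩ := d1
  obtain ⟨c2, d2⟩ := d2
  obtain ⟨c3, d3⟩ := d3
  have hl4 : l % 4 = 1 ∨ l % 4 = 3 := hat_mod (Fact.out : l.Prime) hl
  obtain ⟨t, ht⟩ : ∃ t, pst l ^ a = 4 * t + 1 := by
    have a1 : pst l ≡ 1 [ZMOD 4] := hat_pst_mod hl4
    have a2 := a1.pow a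
    rw [one_pow] at a2
    have a3 : pst l ^ a % 4 = 1 := a2
    exact ⟨pst l ^ a / 4, by omega⟩
  refine ⟨TauQ.mk4 c0 c1 c2 c3, ?_, ?_⟩
  · obtain ⟨k0, k1, k2, k3⟩ := hα
    rw [ht] at d0 d1 d2 d3
    have f0 : α.re = 4 * (t * c0) + c0 := by rw [d0]; ring
    have f1 : α.imI = 4 * (t * c1) + c1 := by rw [d1]; ring
    have f2 : α.imJ = 4 * (t * c2) + c2 := by rw [d2]; ring
    have f3 : α.imK = 4 * (t * c3) + c3 := by rw [d3]; ring
    refine ⟨?_, ?_, ?_, ?_⟩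
    · show c0 % 4 = 1
      omega
    · show 2 ∣ c1
      omega
    · show 2 ∣ c2
      omega
    · show 2 ∣ c3
      omega
  · have hu' : IsUnit ((pst l ^ a : ℤ) : RR p q) := by
      rw [Int.cast_pow]
      exact hu.pow a
    apply WORD_cancel hu'
    rw [← mul_assoc, ← Int.cast_mul, e, he, ← map_intCast (castR p q), ← map_mul]
    congr 1
    rw [WORD_smul]
    generalize pst l ^ a = N at d0 d1 d2 d3 ⊢
    ext
    · simp [d0]
    · simp [d1]
    · simp [d2]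
    · simp [d3]

theorem WORD_thm (h : TauO.Stmt_exists) : S_WORD := by
  intro p q l r _ hp hq hp2 hq2 hpq hlr hpq0 x y hxy γ hγ
  obtain ⟨i, j, α, hα, he⟩ := γ.2
  rcases hlr with ⟨rfl, rfl⟩ | ⟨rfl, rfl⟩
  · obtain ⟨α', hα', he'⟩ := WORD_den hpq0 hp2 hxy (hat_unit_pst_p _ _) (γ : GG l r) hγ i j α hα he
    refine WORD_core h hp hq hq hq2 (hat_unit_pst_q _ _) ?_ j γ α' hα' he'
    intro b' b
    obtain ⟨γ', h'⟩ := hat_mk (p := l) (q := r) (b'.val * b.val) 0 1 (SS.mul_old b' b) (by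
      rw [TauQ.hat_N, map_mul, b'.norm, b.norm]
      push_cast
      ring)
    refine ⟨γ', ?_⟩
    rw [← h']
    simp [den]
  · obtain ⟨α', hα', he'⟩ := WORD_den hpq0 hq2 hxy (hat_unit_pst_q _ _) (γ : GG r l) hγ j i α hα (by
      rw [mul_comm (pst l ^ j)]
      exact he)
    refine WORD_core h hp hq hp hp2 (hat_unit_pst_p _ _) ?_ i γ α' hα' he'
    intro b' b
    obtain ⟨γ', h'⟩ := hat_mk (p := r) (q := l) (b'.val * b.val) 1 0 (SS.mul_old b' b) (by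
      rw [TauQ.hat_N, map_mul, b'.norm, b.norm]
      push_cast
      ring)
    refine ⟨γ', ?_⟩
    rw [← h']
    simp [den]

end TauSG
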